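import Pool.Agent.Mg.Fe62289a.Gfb6445

set_option linter.all false

section

open Set Filter Topology Complex MeasureTheory Metric Polynomial
open scoped Manifold ContDiff ComplexConjugate NNReal ENNReal

namespace Pool.Agent.MP_e62289_ag.Un

variable {P : ℂ[X]}

/-- local `x`-coordinate at an end -/
noncomputable def U_En (i : Fin 4) (x : ℂ) : ℂ := if i.val < 2 then x else x⁻¹

/-- local `y`-coordinate at an end -/
noncomputable def V_En (G : ℕ) (i : Fin 4) (p : ℂ × ℂ) : ℂ :=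
  if i.val < 2 then p.2 else p.2 * p.1⁻¹ ^ G

theorem rev_En (P : ℂ[X]) {x : ℂ} (hx : x ≠ 0) :
    P.reverse.eval x⁻¹ * x ^ P.natDegree = P.eval x := by
  have := invertibleOfNonzero hx
  have h := eval₂_reverse_mul_pow (RingHom.id ℂ) x P
  rwa [invOf_eq_inv, eval₂_id, eval₂_id] at h

theorem near_En {x : ℂ} {r : ℝ} (hr : r ≤ 1 / 8) (hx : x ≠ 0) (i j : Fin 4)
    (hi : ‖U_En i x‖ < r) (hj : ‖U_En j x‖ < r) : i.val / 2 = j.val / 2 := by
  have h : ‖x‖ < r → ¬ ‖x⁻¹‖ < r := fun a c => by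
    have h0 := norm_pos_iff.2 hx
    rw [norm_inv, inv_lt_iff_one_lt_mul₀ h0] at c
    nlinarith
  fin_cases i <;> fin_cases j <;> simp [U_En, -norm_inv] at hi hj ⊢ <;> tauto

theorem same_En (i j : Fin 4) (h : i.val / 2 = j.val / 2) (hne : i ≠ j) :
    (i.val < 2 ↔ j.val < 2) ∧ (-1 : ℂ) ^ i.val = -(-1) ^ j.val := by
  fin_cases i <;> fin_cases j <;> simp at h hne ⊢ <;> norm_num

theorem other_En (i : Fin 4) : ∃ j : Fin 4, i.val / 2 = j.val / 2 ∧ i ≠ j := by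
  revert i
  decide

theorem compact_En {m : ℝ} (hm : 0 < m) : IsCompact {q : Cw P | ∀ i, m ≤ ‖U_En i q.1.1‖} := by
  have hc : Continuous fun x => P.eval x := P.continuous
  obtain ⟨M, hM⟩ := (isCompact_closedBall (0 : ℂ) m⁻¹).exists_bound_of_continuousOn hc.continuousOn
  rw [Subtype.isCompact_iff]
  have e : Subtype.val '' {q : Cw P | ∀ i, m ≤ ‖U_En i q.1.1‖} =
      {p : ℂ × ℂ | p.2 ^ 2 = P.eval p.1 ∧ m ≤ ‖p.1‖ ∧ ‖p.1‖ ≤ m⁻¹} := by
    ext p
    constructor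
    · rintro ⟨q, hq, rfl⟩
      refine ⟨q.2.1, by simpa [U_En] using hq 0, ?_⟩
      have : m ≤ ‖q.1.1‖⁻¹ := by simpa [U_En] using hq 2
      exact le_inv_of_le_inv₀ hm this
    · rintro ⟨a, d, e⟩
      refine ⟨⟨p, a, norm_pos_iff.1 (hm.trans_le d)⟩, fun i => ?_, rfl⟩
      have f : m ≤ ‖p.1‖⁻¹ := le_inv_of_le_inv₀ (hm.trans_le d) e
      fin_cases i <;> simp [U_En] <;> assumption
  rw [e]
  refine ((isCompact_closedBall (0 : ℂ) m⁻¹).prod
    (isCompact_closedBall (0 : ℂ) (M + 1))).of_isClosed_subset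
    ?_ fun p hp => ⟨mem_closedBall_zero_iff.2 hp.2.2, mem_closedBall_zero_iff.2 ?_⟩
  · simp only [Set.ofPred_and]
    exact (isClosed_eq (by fun_prop) (by fun_prop)).inter
      ((isClosed_le (by fun_prop) (by fun_prop)).inter (isClosed_le (by fun_prop) (by fun_prop)))
  · have := hM _ (mem_closedBall_zero_iff.2 hp.2.2)
    rw [← hp.1, norm_pow] at this
    nlinarith [sq_nonneg (‖p.2‖ - 1)]

theorem sEn : SEn := by
  intro P G hG h0
  have hP0 : P ≠ 0 := fun h => h0 (by rw [h, eval_zero])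
  obtain ⟨r₁, hr₁, Y₁, a1, a2⟩ := X3c_sqrt (P := fun u => P.eval u) P.differentiable h0
  obtain ⟨r₂, hr₂, Y₂, b1, b2⟩ := X3c_sqrt (P := fun u => P.reverse.eval u)
    P.reverse.differentiable (by
      rw [← coeff_zero_eq_eval_zero, coeff_zero_reverse]
      exact leadingCoeff_ne_zero.2 hP0)
  obtain ⟨r, hr, hrs, hr1, hr2⟩ : ∃ r : ℝ, 0 < r ∧ r ≤ 1 / 8 ∧ r ≤ r₁ ∧ r ≤ r₂ :=
    ⟨min (1 / 8) (min r₁ r₂), by positivity, min_le_left _ _, by simp, by simp⟩
  have hrc : (r : ℂ) ≠ 0 := by exact_mod_cast hr.ne'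
  set Q : Fin 4 → ℂ → ℂ := fun i u => if i.val < 2 then P.eval u else P.reverse.eval u with hQ
  set Z : Fin 4 → ℂ → ℂ := fun i u => (-1) ^ i.val * (if i.val < 2 then Y₁ u else Y₂ u) with hZ
  have Zd : ∀ i, DifferentiableOn ℂ (Z i) (ball 0 r) := fun i => by
    refine DifferentiableOn.const_mul ?_ _
    split_ifs
    · exact a1.mono (ball_subset_ball hr1)
    · exact b1.mono (ball_subset_ball hr2)
  have Z2 : ∀ i, ∀ a ∈ ball (0 : ℂ) r, Z i a ≠ 0 ∧ Z i a ^ 2 = Q i a := fun i a ha => by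
    obtain ⟨c1, c2⟩ := a2 a (ball_subset_ball hr1 ha)
    obtain ⟨c3, c4⟩ := b2 a (ball_subset_ball hr2 ha)
    simp only [hZ, hQ]
    rw [mul_pow, ← pow_mul, mul_comm i.val, pow_mul]
    split_ifs <;> simp [c1, c2, c3, c4]
  have hP : ∀ i (q : Cw P), V_En G i q.1 ^ 2 = Q i (U_En i q.1.1) := fun i q => by
    simp only [U_En, V_En, hQ]
    split_ifs with h
    · exact q.2.1
    · have h1 := rev_En P q.2.2
      have h2 := q.2.2
      rw [mul_pow, q.2.1, ← h1, hG, pow_mul', mul_assoc, ← mul_pow, ← mul_pow,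
        mul_inv_cancel₀ h2, one_pow, one_pow, mul_one]
  have z₀ : Cw P := ⟨(1, (x3e_sqrt (P.eval 1)).choose), (x3e_sqrt _).choose_spec, one_ne_zero⟩
  have hinv : Continuous fun q : Cw P => q.1.1⁻¹ :=
    (continuous_fst.comp continuous_subtype_val).inv₀ fun q => q.2.2
  have hE : ∀ i : Fin 4, ∃ e : OpenPartialHomeomorph (Cw P) ℂ,
      e.source = {q | ‖U_En i q.1.1‖ < r ∧ V_En G i q.1 = Z i (U_En i q.1.1)} ∧
      e.target = ball 0 1 \ {0} ∧ (∀ q, e q = U_En i q.1.1 / r) ∧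
      ∀ ρ, ρ < 1 → IsClosed {q | q ∈ e.source ∧ ‖e q‖ ≤ ρ} := fun i => by
    have hPi := hP i
    simp only [U_En, V_En] at hPi ⊢
    by_cases h : i.val < 2
    · simp only [if_pos h] at hPi ⊢
      refine X3c_end IsEmbedding.subtypeVal z₀ (by fun_prop) (by fun_prop) (fun q => q.2.2)
        (ι := fun p => p) (by fun_prop) (fun q => rfl)
        (P := Q i) hr hPi (Zd i).continuousOn (Z2 i) fun a b a0 ar hb => ?_
      simp only [hQ, if_pos h] at hb
      exact ⟨⟨(a, b), hb, a0⟩, rfl, rfl⟩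
    · simp only [if_neg h] at hPi ⊢
      refine X3c_end IsEmbedding.subtypeVal z₀ (v := fun q => q.1.2 * q.1.1⁻¹ ^ G) hinv
        ((continuous_snd.comp continuous_subtype_val).mul (hinv.pow G))
        (fun q => inv_ne_zero q.2.2) (ι := fun p => (p.1⁻¹, p.2 * p.1⁻¹ ^ G))
        ((continuousOn_fst.inv₀ fun p hp => hp).prodMk
          (continuousOn_snd.mul ((continuousOn_fst.inv₀ fun p hp => hp).pow G))) (fun q => ?_)
        (P := Q i) hr hPi (Zd i).continuousOn (Z2 i) fun a b a0 ar hb => ?_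
      · have := q.2.2
        refine Prod.ext (inv_inv _) ?_
        simp only [inv_inv]
        rw [mul_assoc, ← mul_pow, inv_mul_cancel₀ this, one_pow, mul_one]
      · simp only [hQ, if_neg h] at hb
        refine ⟨⟨(a⁻¹, b * a⁻¹ ^ G), ?_, inv_ne_zero a0⟩, inv_inv _, ?_⟩
        · have h1 := rev_En P (inv_ne_zero a0)
          rw [inv_inv] at h1
          change (b * a⁻¹ ^ G) ^ 2 = P.eval a⁻¹
          rw [← h1, ← hb, hG, pow_mul', mul_pow]
        · change b * a⁻¹ ^ G * a⁻¹⁻¹ ^ G = b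
          rw [inv_inv, mul_assoc, ← mul_pow, inv_mul_cancel₀ a0, one_pow, mul_one]
  choose e es et ee ec using hE
  have hn : ∀ a : ℂ, ‖a / r‖ = ‖a‖ / r := fun a => by
    rw [norm_div, norm_real, Real.norm_of_nonneg hr.le]
  have hmul : ∀ z ∈ ball (0 : ℂ) 1, (r : ℂ) * z ∈ ball (0 : ℂ) r := fun z hz => by
    rw [mem_ball_zero_iff, norm_mul, norm_real, Real.norm_of_nonneg hr.le]
    exact mul_lt_of_lt_one_right hr (mem_ball_zero_iff.1 hz)
  have hsame : ∀ i j : Fin 4, i.val / 2 = j.val / 2 → i ≠ j →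
      U_En i = U_En j ∧ V_En G i = V_En G j ∧ ∀ u, Z i u = -Z j u := fun i j h hne => by
    obtain ⟨b, c⟩ := same_En i j h hne
    refine ⟨funext fun x => ?_, funext fun p => ?_, fun u => ?_⟩
    · simp only [U_En, b]
    · simp only [V_En, b]
    · simp only [hZ, b, c, neg_mul]
  refine ⟨e, r, fun i z => (if i.val < 2 then 1 else (r : ℂ)⁻¹ ^ G) * Z i (r * z), hr, hrs, et,
    fun i j hij => ?_, ec, fun ρ hρ => ?_, fun i => ?_, fun i z hz => ?_, fun i hi q hq => ?_,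
    fun i hi q hq => ?_⟩
  · change Disjoint (e i).source (e j).source
    rw [es, es, Set.disjoint_left]
    intro q hi hj
    obtain ⟨a, b, c⟩ := hsame i j (near_En hrs q.2.2 i j hi.1 hj.1) hij
    have d1 := hi.2
    rw [a, b, c, hj.2] at d1
    exact (Z2 j _ (mem_ball_zero_iff.2 hj.1)).1 (by linear_combination d1 / 2)
  · have : {q : Cw P | ∀ i, q ∈ (e i).source → ρ ≤ ‖e i q‖} =
        {q : Cw P | ∀ i, min ρ 1 * r ≤ ‖U_En i q.1.1‖} := by
      ext q
      constructor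
      · intro h i
        by_contra hlt
        have b1 : ‖U_En i q.1.1‖ < r :=
          (not_le.1 hlt).trans_le (mul_le_of_le_one_left hr.le (min_le_right _ _))
        have b2 : ‖U_En i q.1.1‖ < ρ * r :=
          (not_le.1 hlt).trans_le (mul_le_mul_of_nonneg_right (min_le_left _ _) hr.le)
        have b3 := (Z2 i _ (mem_ball_zero_iff.2 b1)).2
        rw [← hP i q] at b3
        rcases sq_eq_sq_iff_eq_or_eq_neg.1 b3.symm with c | c
        · have := h i (by rw [es]; exact ⟨b1, c⟩)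
          rw [ee, hn, le_div_iff₀ hr] at this
          linarith
        · obtain ⟨j, j1, j2⟩ := other_En i
          obtain ⟨a, b, d⟩ := hsame i j j1 j2
          rw [d, neg_neg, a, b] at c
          rw [a] at b1 b2
          have := h j (by rw [es]; exact ⟨b1, c⟩)
          rw [ee, hn, le_div_iff₀ hr] at this
          linarith
      · intro h i hq
        rw [es] at hq
        rw [ee, hn, le_div_iff₀ hr]
        have b1 := h i
        rcases le_total ρ 1 with c | c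
        · rwa [min_eq_left c] at b1
        · rw [min_eq_right c] at b1
          linarith [hq.1]
    rw [this]
    exact compact_En (mul_pos (lt_min hρ one_pos) hr)
  · exact ((Zd i).comp (by fun_prop) hmul).const_mul _
  · refine mul_ne_zero ?_ (Z2 i _ (hmul z hz)).1
    split_ifs
    · exact one_ne_zero
    · exact pow_ne_zero _ (inv_ne_zero hrc)
  · rw [es] at hq
    have b := hq.2
    simp only [ee, mul_div_cancel₀ _ hrc]
    simp only [U_En, V_En, if_pos hi] at b ⊢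
    exact ⟨trivial, by rw [one_mul, b]⟩
  · rw [es] at hq
    have b := hq.2
    simp only [ee, mul_div_cancel₀ _ hrc]
    simp only [U_En, V_En, if_neg (not_lt.2 hi)] at b ⊢
    exact ⟨mul_inv_cancel₀ q.2.2, by rw [← b]; ring⟩

end Pool.Agent.MP_e62289_ag.Un

end

section

open Set Filter Topology Complex MeasureTheory Metric Polynomial
open scoped Manifold ContDiff ComplexConjugate NNReal ENNReal

namespace Pool.Agent.MP_e62289_ag.Un

theorem poly_Xi (R : ℂ[X]) {b : ℕ} (h : R.natDegree ≤ b) :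
    ∃ B : ℝ, 0 ≤ B ∧ ∀ (x : ℂ) (t : ℝ), 1 ≤ t → ‖x‖ ≤ t → ‖R.eval x‖ ≤ B * t ^ b := by
  refine ⟨∑ i ∈ Finset.range (b + 1), ‖R.coeff i‖, Finset.sum_nonneg fun _ _ => norm_nonneg _,
    fun x t h1 h2 => ?_⟩
  rw [eval_eq_sum_range' (Nat.lt_succ_of_le h), Finset.sum_mul]
  refine norm_sum_le_of_le _ fun i hi => ?_
  rw [norm_mul, norm_pow]
  exact mul_le_mul_of_nonneg_left ((pow_le_pow_left₀ (norm_nonneg _) h2 i).trans
    (pow_le_pow_right₀ h1 (Nat.lt_succ_iff.1 (Finset.mem_range.1 hi)))) (norm_nonneg _)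

theorem ends_Xi {k m : ℕ} {P R : ℂ[X]} {F : ℂ → ℂ → ℂ} (H : Hy P (k + 2 + (k + 2 + m)) F)
    (hR : R.natDegree ≤ k + 2 + m) (i : Fin 4) : ∃ c : ℝ, 0 < c ∧ ∀ᶠ q in H.S.endF i,
    c * ‖H.S.e i q‖ ^ (![k + 2, k + 2, k + 2 + m, k + 2 + m] i - 1) * ‖d1 (H.S.e i) q‖ ≤
      ‖H.x q ^ (k + 1)‖ ∧
    c * ‖H.S.e i q‖ ^ (![k + 2, k + 2, k + 2 + m, k + 2 + m] i - 1) *
      ‖R.eval (H.x q) / H.x q ^ (k + 1)‖ ≤ 1 := by
  have hr := H.r_pos
  have hr' : H.r ≤ 1 := by linarith [H.r_le]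
  obtain ⟨B, B0, hB⟩ := poly_Xi R hR
  obtain ⟨Y, hY, hev⟩ : ∃ M : ℝ, 1 ≤ M ∧ ∀ᶠ q in H.S.endF i,
      q ∈ (H.S.e i).source ∧ ‖H.Yb i (H.S.e i q)‖ ≤ M := by
    refine ⟨‖H.Yb i 0‖ + 1, le_add_of_nonneg_left (norm_nonneg _),
      Eventually.and (mem_inf_of_right (mem_principal_self _)) ?_⟩
    have ht : Tendsto (H.S.e i) (H.S.endF i) (𝓝 0) := tendsto_comap.mono_left inf_le_left
    have hc : ContinuousAt (H.Yb i) 0 :=
      (H.Yb_hol i).continuousOn.continuousAt (ball_mem_nhds 0 one_pos)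
    exact ((hc.tendsto.comp ht).norm.eventually (gt_mem_nhds (lt_add_one _))).mono
      fun q hq => hq.le
  have hM : 0 < Y + B := by linarith
  refine ⟨H.r ^ (k + 2 + m) / (Y + B), by positivity, hev.mono fun q ⟨hq, hy⟩ => ?_⟩
  obtain ⟨-, he1, he0⟩ := H.e_prop i hq
  have E0 : 0 < ‖H.S.e i q‖ := norm_pos_iff.2 he0
  have X0 : 0 < ‖H.x q‖ := norm_pos_iff.2 (H.x_ne q)
  have hre : ‖(H.r : ℂ) * H.S.e i q‖ = H.r * ‖H.S.e i q‖ := by
    rw [norm_mul, Complex.norm_real, Real.norm_of_nonneg hr.le]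
  have hre' : H.r * ‖H.S.e i q‖ ≤ 1 := mul_le_one₀ hr' E0.le he1.le
  have pw : ∀ j l, j ≤ l → H.r ^ l ≤ H.r ^ j := fun j l h => pow_le_pow_of_le_one hr.le hr' h
  rw [norm_div, norm_pow, mul_assoc, mul_assoc, div_mul_eq_mul_div, div_mul_eq_mul_div,
    div_le_iff₀ hM, div_le_one hM, ← mul_div_assoc, ← mul_div_assoc, div_le_iff₀ (pow_pos X0 _)]
  by_cases hi : i.val < 2
  · have ha : ![k + 2, k + 2, k + 2 + m, k + 2 + m] i - 1 = k + 1 := by
      fin_cases i <;> simp_all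
    have hd : H.r * ‖d1 (H.S.e i) q‖ ≤ Y + B := by
      rw [← Real.norm_of_nonneg hr.le, ← Complex.norm_real, ← norm_mul, ← H.d_fin i hi hq,
        (H.fin i hi q hq).2]
      linarith
    have hx : ‖H.x q‖ = H.r * ‖H.S.e i q‖ := by rw [(H.fin i hi q hq).1, hre]
    have h1 := hB (H.x q) 1 le_rfl (hx ▸ hre')
    rw [one_pow, mul_one] at h1
    rw [ha, hx]
    constructor
    · calc _ ≤ H.r ^ (k + 2) * (‖H.S.e i q‖ ^ (k + 1) * ‖d1 (H.S.e i) q‖) :=
            mul_le_mul_of_nonneg_right (pw _ _ (by omega)) (by positivity)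
        _ = (H.r * ‖H.S.e i q‖) ^ (k + 1) * (H.r * ‖d1 (H.S.e i) q‖) := by ring
        _ ≤ _ := mul_le_mul_of_nonneg_left hd (by positivity)
    · calc _ ≤ H.r ^ (k + 1) * (‖H.S.e i q‖ ^ (k + 1) * ‖R.eval (H.x q)‖) :=
            mul_le_mul_of_nonneg_right (pw _ _ (by omega)) (by positivity)
        _ = ‖R.eval (H.x q)‖ * (H.r * ‖H.S.e i q‖) ^ (k + 1) := by ring
        _ ≤ _ := mul_le_mul_of_nonneg_right (by linarith) (by positivity)
  · have hi' : 2 ≤ i.val := not_lt.1 hi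
    have ha : ![k + 2, k + 2, k + 2 + m, k + 2 + m] i - 1 = k + 1 + m := by
      fin_cases i <;> simp_all
    have hx : ‖H.x q‖ * (H.r * ‖H.S.e i q‖) = 1 := by
      rw [← hre, ← norm_mul, (H.inf i hi' q hq).1, norm_one]
    have hd : ‖d1 (H.S.e i) q‖ = H.r * ‖H.y q‖ * ‖H.S.e i q‖ ^ 2 := by
      rw [H.d_inf i hi' hq, norm_neg, norm_mul, norm_mul, norm_pow, Complex.norm_real,
        Real.norm_of_nonneg hr.le]
    rw [← (H.inf i hi' q hq).2, norm_mul, norm_pow] at hy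
    have X1 : 1 ≤ ‖H.x q‖ := by nlinarith
    have h1 := hB (H.x q) _ X1 le_rfl
    rw [ha, hd]
    constructor
    · calc _ = (‖H.x q‖ * (H.r * ‖H.S.e i q‖)) ^ (k + 1) * (H.r ^ (k + 2 + m) *
            (‖H.S.e i q‖ ^ (k + 1 + m) * (H.r * ‖H.y q‖ * ‖H.S.e i q‖ ^ 2))) := by
            rw [hx, one_pow, one_mul]
        _ = ‖H.x q‖ ^ (k + 1) * (H.r ^ (k + 1 + (k + 2 + m) + 1) *
            (‖H.y q‖ * ‖H.S.e i q‖ ^ (k + 2 + (k + 2 + m)))) := by ring
        _ ≤ _ := mul_le_mul_of_nonneg_left ((mul_le_of_le_one_left (by positivity)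
            (pow_le_one₀ hr.le hr')).trans (by linarith)) (by positivity)
    · calc _ ≤ H.r ^ (m + 1) * (‖H.S.e i q‖ ^ (m + 1) * (B * ‖H.x q‖ ^ (k + 2 + m))) :=
            mul_le_mul (pw _ _ (by omega)) (mul_le_mul
              (pow_le_pow_of_le_one E0.le he1.le (by omega)) h1 (norm_nonneg _) (by positivity))
              (by positivity) (by positivity)
        _ = B * (‖H.x q‖ * (H.r * ‖H.S.e i q‖)) ^ (m + 1) * ‖H.x q‖ ^ (k + 1) := by ring
        _ ≤ _ := by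
            rw [hx, one_pow, mul_one]
            exact mul_le_mul_of_nonneg_right (by linarith) (by positivity)

theorem sXi (h1 : SIn) (h2 : SJ1) (h3 : SJ2) : SXi := by
  intro a b d
  obtain ⟨C, η, η0, hC⟩ := h3 a b d
  obtain ⟨k, rfl⟩ := Nat.exists_eq_add_of_le' d.two_le
  obtain ⟨m, rfl⟩ := Nat.exists_eq_add_of_le d.le
  refine ⟨((2 * ∫⁻ z : ℂ, ‖1 / (z * d.A.eval z)‖ₑ) ^ (1 / 2 : ℝ)).toReal *
    ((2 * (C : ℝ≥0∞)) ^ (1 / 2 : ℝ)).toReal, max 1 (-Real.log η / 4), fun L hL H => ?_⟩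
  have δ0 := dl_pos L
  have δ1 := dl_le ((le_max_left _ _).trans hL)
  have δ2 : dl L ≤ η := by
    rw [dl, ← Real.le_log_iff_exp_le η0]
    linarith [(le_max_right _ _).trans hL]
  have δ3 : (dl L : ℂ) ≠ 0 := by exact_mod_cast δ0.ne'
  have hP : d.P (dl L) ≠ 0 := fun h => by
    have := d.P_eval (dl L) 0
    rw [h, eval_zero, PD.p, d.A0, d.U0, one_pow, one_mul, one_mul] at this
    have h' : (1 : ℝ) = dl L := by exact_mod_cast sub_eq_zero.1 this.symm
    linarith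
  have hU : Hol fun q => d.U.eval (H.x q) * H.y q := fun q =>
    (X5_comp (g := fun z => d.U.eval z) d.U.differentiableAt (H.x_hol q)).mul (H.y_hol q)
  have hp : Hol fun q => d.p (H.x q) := fun q =>
    X5_comp (d.p_deriv _).differentiableAt (H.x_hol q)
  have eqn : ∀ q, H.y q ^ 2 = d.A.eval (H.x q) * (d.p (H.x q) - dl L) := fun q => by
    rw [H.eqn, d.P_eval]
  have sq : ∀ q, (d.U.eval (H.x q) * H.y q) ^ 2 = d.p (H.x q) * (d.p (H.x q) - dl L) := fun q => by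
    rw [mul_pow, eqn, ← mul_assoc, ← PD.p]
  have hf : ∀ q, H.S.f q =
      (2 * d.p (H.x q) + 2 * (d.U.eval (H.x q) * H.y q) - dl L) / H.x q := fun q => by
    rw [H.f_eq, PD.ff, mul_assoc]
  have alg : ∀ s p δ x : ℂ, δ ≠ 0 → x ≠ 0 → s ^ 2 = p * (p - δ) →
      (2 * p + 2 * s - δ) / x * ((s - p + δ) / δ) ^ 2 = (p - δ) / x ∧
      (2 * p + 2 * s - δ) / x * ((p - s) / δ) ^ 2 = p / x ∧
      (2 * p + 2 * s - δ) / x * ((s - p + δ) / δ) * ((p - s) / δ) = s / x := by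
    intro s p δ x h1 h2 h
    refine ⟨?_, ?_, ?_⟩ <;> field_simp
    · linear_combination (2 * s - 2 * p + 3 * δ) * h
    · linear_combination (2 * s - 2 * p - δ) * h
    · linear_combination (-2 * s + 2 * p - δ) * h
  have ne : ∀ q, H.y q ≠ 0 → d.A.eval (H.x q) ≠ 0 ∧ d.p (H.x q) - dl L ≠ 0 := fun q hq =>
    mul_ne_zero_iff.1 (eqn q ▸ pow_ne_zero 2 hq)
  obtain ⟨ξp, p1, p2, p3⟩ := (h1 _ _ _ H hP).1
    (fun q => (d.U.eval (H.x q) * H.y q - d.p (H.x q) + dl L) / dl L)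
    (fun z => 1 / (z * d.A.eval z)) _
    (X5_div ((hU.sub hp).add mdifferentiable_const) mdifferentiable_const fun _ => δ3)
    (by have := d.A.continuous.measurable; fun_prop) (fun q hq => by
      have a1 := H.x_ne q
      have a2 := (ne q hq).1
      rw [← norm_pow, ← norm_pow, ← norm_mul, ← norm_mul, hf, (alg _ _ _ _ δ3 a1 (sq q)).1, eqn]
      congr 1
      field_simp) (h2 _ _ d).2.ne le_rfl
  obtain ⟨ξm, m1, m2, m3⟩ := (h1 _ _ _ H hP).1
    (fun q => (d.p (H.x q) - d.U.eval (H.x q) * H.y q) / dl L)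
    (fun z => d.U.eval z ^ 2 / (z * (d.p z - dl L))) _
    (X5_div (hp.sub hU) mdifferentiable_const fun _ => δ3)
    (by
      have := d.U.continuous.measurable
      have := d.p_cont.measurable
      fun_prop) (fun q hq => by
      have a1 := H.x_ne q
      have a2 := (ne q hq).2
      rw [← norm_pow, ← norm_pow, ← norm_mul, ← norm_mul, hf, (alg _ _ _ _ δ3 a1 (sq q)).2.1, eqn]
      congr 1
      field_simp
      rw [PD.p]
      ring) ENNReal.coe_ne_top (hC _ δ0 δ2)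
  have key : ∀ᵐ q ∂H.S.lam, H.S.f q * ξp q * ξm q = d.U.eval (H.x q) * H.y q / H.x q := by
    filter_upwards [p3, m3] with q a b
    rw [a, b, hf, (alg _ _ _ _ δ3 (H.x_ne q) (sq q)).2.2]
  have hg : ∀ q, HasDerivAt (fun z : ℂ => d.R.eval z / z ^ (k + 1))
      (d.U.eval (H.x q) / H.x q ^ (k + 2)) (H.x q) := fun q => by
    have a1 := H.x_ne q
    refine ((d.R.hasDerivAt _).div (hasDerivAt_pow (k + 1) _) (pow_ne_zero _ a1)).congr_deriv ?_
    rw [← d.hR]
    simp only [Nat.add_succ_sub_one, add_zero]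
    field_simp
    ring
  refine ⟨ξp, ξm, p1, m1, mul_le_mul p2 m2 (norm_nonneg _) ENNReal.toReal_nonneg,
    ⟨⟨fun q => H.x q ^ (k + 1), fun q => d.R.eval (H.x q) / H.x q ^ (k + 1),
      fun q => X5_comp (g := fun z => z ^ (k + 1)) (by fun_prop) (H.x_hol q),
      fun q => X5_comp (hg q).differentiableAt (H.x_hol q), fun q => pow_ne_zero _ (H.x_ne q), ?_,
      ends_Xi H d.degR⟩⟩, key⟩
  filter_upwards [key] with q hq
  have a1 := H.x_ne q
  rw [hq, (d_hol_comp (hg q) (d2_of_hol (H.x_hol q)).1).2.1, H.d1x]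
  field_simp
  ring

end Pool.Agent.MP_e62289_ag.Un

end

section

open Set Filter Topology Complex MeasureTheory Metric Polynomial
open scoped Manifold ContDiff ComplexConjugate NNReal ENNReal

namespace Pool.Agent.MP_e62289_ag.Un

theorem rev_E1 (f : ℂ[X]) {x w : ℂ} (h : x * w = 1) :
    f.eval x * w ^ f.natDegree = f.reverse.eval w := by
  let _ : Invertible x := ⟨w, by rw [mul_comm, h], h⟩
  have e := eval₂_reverse_mul_pow (RingHom.id ℂ) x f
  rw [eval₂_id, eval₂_id] at e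
  rw [← e, mul_assoc, ← mul_pow, h, one_pow, mul_one]
  rfl

theorem sg_E1 {g s : ℂ} (hs : s = 1 ∨ s = -1) (h : ‖g - s‖ < 1) :
    (if 0 < g.re then 1 else -1 : ℂ) = s := by
  have h1 := abs_lt.1 ((abs_re_le_norm _).trans_lt h)
  rcases hs with rfl | rfl
  · rw [sub_re, one_re] at h1
    rw [if_pos (by linarith [h1.1])]
  · rw [sub_re, neg_re, one_re] at h1
    rw [if_neg (by linarith [h1.2])]

theorem sE1 : SE1 := by
  intro a b d ε L hL H i hi
  obtain ⟨a, rfl⟩ : ∃ a', a = a' + 2 := ⟨a - 2, by have := d.two_le; omega⟩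
  obtain ⟨b, rfl⟩ : ∃ b', b = b' + 1 := ⟨b - 1, by have := d.le; omega⟩
  have hr : (H.r : ℂ) ≠ 0 := ofReal_ne_zero.2 H.r_pos.ne'
  have hdeg : (d.U * d.A).natDegree = a + 2 + (b + 1) := by
    rw [natDegree_mul d.U_ne d.A_ne, d.degA, d.degU, add_comm]
  obtain ⟨Q, hQ⟩ : ∃ Q, Q = (d.U * d.A).reverse := ⟨_, rfl⟩
  have hD : ∀ x w : ℂ, x * w = 1 → d.D x * w ^ (a + 2 + (b + 1)) = Q.eval w := fun x w h => by
    rw [hQ, ← rev_E1 _ h, hdeg, eval_mul, PD.D]
  have hQ0 : Q.eval (H.r * 0 : ℂ) ≠ 0 := by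
    rw [mul_zero, ← coeff_zero_eq_eval_zero, hQ, coeff_zero_reverse]
    exact leadingCoeff_ne_zero.2 (mul_ne_zero d.U_ne d.A_ne)
  have cQ : Differentiable ℂ fun z : ℂ => Q.eval (H.r * z) := Q.differentiable.comp (by fun_prop)
  have cY : ContinuousAt (H.Yb i) 0 :=
    (H.Yb_hol i).continuousOn.continuousAt (ball_mem_nhds _ one_pos)
  have y0 : ((H.r : ℂ) ^ (a + 2 + (b + 1)) * H.Yb i 0) ^ 2 = Q.eval (H.r * 0 : ℂ) ^ 2 := by
    have c1 : ContinuousAt (fun z => ((H.r : ℂ) ^ (a + 2 + (b + 1)) * H.Yb i z) ^ 2) 0 :=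
      (continuousAt_const.mul cY).pow 2
    have c0 : Continuous fun z : ℂ => d.A.reverse.eval (H.r * z) :=
      d.A.reverse.continuous.comp (by fun_prop)
    have c2 : ContinuousAt (fun z : ℂ => Q.eval (H.r * z) ^ 2 -
        dl L * d.A.reverse.eval (H.r * z) * (H.r * z) ^ (a + 2 * b + 3 + 1)) 0 :=
      ((cQ.continuous.pow 2).sub ((continuous_const.mul c0).mul (by fun_prop))).continuousAt
    have := tendsto_nhds_unique (l := 𝓝[≠] 0) (c1.tendsto.mono_left nhdsWithin_le_nhds)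
      ((c2.tendsto.mono_left nhdsWithin_le_nhds).congr' (by
        filter_upwards [self_mem_nhdsWithin,
          mem_nhdsWithin_of_mem_nhds (ball_mem_nhds (0 : ℂ) one_pos)] with z h1 h2
        have h3 : z ∈ (H.S.e i).target := by rw [H.S.e_target]; exact ⟨h2, h1⟩
        obtain ⟨h4, h5⟩ := H.inf i hi _ ((H.S.e i).map_target h3)
        rw [(H.S.e i).right_inv h3] at h4 h5
        have h6 := H.eqn ((H.S.e i).symm z)
        rw [d.P_eval'] at h6
        rw [← hD _ _ h4, ← rev_E1 _ h4, d.degA, ← h5]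
        linear_combination (-(H.r * z) ^ (2 * (a + 2 + (b + 1)))) * h6))
    simpa using this
  obtain ⟨s, hs⟩ : ∃ s, s = (H.r : ℂ) ^ (a + 2 + (b + 1)) * H.Yb i 0 / Q.eval (H.r * 0 : ℂ) :=
    ⟨_, rfl⟩
  have s2 : s ^ 2 = 1 := by rw [hs, div_pow, y0, div_self (pow_ne_zero 2 hQ0)]
  obtain ⟨η, M, -, -, hM, hp, -⟩ := d.eta
  have v1 : ∀ᶠ z : ℂ in 𝓝 0, Q.eval (H.r * z) ≠ 0 := cQ.continuous.continuousAt.eventually_ne hQ0
  have v2 : ∀ᶠ z : ℂ in 𝓝 0,
      ‖(H.r : ℂ) ^ (a + 2 + (b + 1)) * H.Yb i z / Q.eval (H.r * z) - s‖ < 1 :=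
    ((((continuousAt_const.mul cY).div cQ.continuous.continuousAt hQ0).sub
      continuousAt_const).norm).eventually_lt continuousAt_const (by simp [hs])
  have v3 : ∀ᶠ z : ℂ in 𝓝 0, M * ‖H.r * z‖ < 1 :=
    ContinuousAt.eventually_lt (by fun_prop) continuousAt_const (by simp)
  obtain ⟨ρ, hρ, hb⟩ := Metric.eventually_nhds_iff_ball.1 (v1.and (v2.and v3))
  have b1 : ball (0 : ℂ) (min ρ 1) ⊆ ball 0 ρ := ball_subset_ball (min_le_left _ _)
  have b2 : ball (0 : ℂ) (min ρ 1) ⊆ ball 0 1 := ball_subset_ball (min_le_right _ _)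
  have hρ' : 0 < min ρ 1 := lt_min hρ one_pos
  have hΨ : DifferentiableOn ℂ (fun p : ℂ × P2 => -((H.r : ℂ) ^ (a + 2))⁻¹ *
      ((1 + p.2 1 * (H.r * p.1)) / H.Yb i p.1 + s * (exp (p.2 0 * s / 2) - 1) *
        (H.r : ℂ) ^ (a + 2 + (b + 1)) / Q.eval (H.r * p.1))) (ball 0 (min ρ 1) ×ˢ univ) :=
    ((X8_div (by fun_prop) ((H.Yb_hol i).comp differentiableOn_fst fun _ h => b2 h.1)
      fun p h => H.Yb_ne i _ (b2 h.1)).add (X8_div (by fun_prop)
        (cQ.comp differentiable_fst).differentiableOn fun p h => (hb _ (b1 h.1)).1)).const_mul _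
  have an : ∀ {Φ : ℂ × P2 → ℂ}, DifferentiableOn ℂ Φ (ball 0 (min ρ 1) ×ˢ univ) → ∀ t,
      AnalyticAt ℂ (fun z => Φ (z, t)) 0 := fun h t =>
    DifferentiableOn.analyticAt (s := ball 0 (min ρ 1))
      (h.comp (f := fun z => (z, t)) (by fun_prop) fun _ hz => ⟨hz, trivial⟩) (ball_mem_nhds _ hρ')
  have hΦ := (differentiableOn_fst.fun_pow b).fun_mul hΨ
  refine ⟨_, _, hρ', min_le_right _ _, hΦ, fun t q hq => ?_, fun t _ => ?_⟩
  · obtain ⟨h1, h2⟩ := H.inf i hi q hq.1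
    have hz := mem_ball_zero_iff.2 hq.2
    obtain ⟨g1, g2, g3⟩ := hb _ (b1 hz)
    have g4 := H.Yb_ne i _ (b2 hz)
    have z0 := (H.e_prop i hq.1).2.2
    rw [H.d_inf i hi hq.1]
    have h3 := hD _ _ h1
    generalize H.S.e i q = z at *
    generalize H.x q = x at *
    generalize H.y q = y at *
    have h8 : ‖x‖ * ‖(H.r : ℂ) * z‖ = 1 := by rw [← norm_mul, h1, norm_one]
    have h9 : M < ‖x‖ := lt_of_mul_lt_mul_right (g3.trans_eq h8.symm) (norm_nonneg _)
    have h10 : 1 < ‖d.p x‖ := not_le.1 fun h => absurd (hp x h).1 (not_le.2 h9)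
    have hB := cB_one (d.lg_one hL (x := x) (by linarith)).le
    have hZ := X8_cZ0 (t := ‖x‖ ^ 2) (by nlinarith)
    have hD0 : d.D x ≠ 0 := left_ne_zero_of_mul (h3 ▸ g1)
    have hsg : d.sg x y = s := by
      have e : y / d.D x = (H.r : ℂ) ^ (a + 2 + (b + 1)) * H.Yb i z / Q.eval (H.r * z) := by
        rw [← h3, ← h2, mul_pow]
        field_simp
      rw [PD.sg, e]
      exact sg_E1 (sq_eq_one_iff.1 s2) g2
    rw [PD.K1, PD.K2, PD.ex, hB.1, hB.2, hZ.1, hZ.2, hsg]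
    refine ⟨by simp, ?_⟩
    have y1 : y ≠ 0 := left_ne_zero_of_mul (h2 ▸ g4)
    have e : x = ((H.r : ℂ) * z)⁻¹ := eq_inv_of_mul_eq_one_left h1
    dsimp only
    rw [← h3, ← h2]
    generalize d.D x = D at *
    simp only [Nat.add_succ_sub_one, Nat.add_sub_cancel, ofReal_one, ofReal_zero, mul_one, mul_zero,
      zero_mul, zero_div, add_zero, sub_zero]
    rw [e, inv_pow, inv_pow]
    simp only [mul_pow, pow_add]
    field_simp
  · refine (an hΦ t).analyticOrderAt_eq_natCast.2 ⟨_, an hΨ t, ?_, Eventually.of_forall fun z => ?_⟩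
    · have g4 := H.Yb_ne i 0 (mem_ball_self one_pos)
      have e : s * (exp (t 0 * s / 2) - 1) * (H.r : ℂ) ^ (a + 2 + (b + 1)) / Q.eval (H.r * 0 : ℂ) =
          (exp (t 0 * s / 2) - 1) / H.Yb i 0 := by
        rw [eq_div_iff g4]
        generalize exp (t 0 * s / 2) = E
        linear_combination (E - 1) * s2 - s * (E - 1) * hs
      dsimp only
      rw [e, mul_zero, mul_zero, add_zero, ← add_div, add_sub_cancel]
      exact mul_ne_zero (neg_ne_zero.2 (inv_ne_zero (pow_ne_zero _ hr)))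
        (div_ne_zero (exp_ne_zero _) g4)
    · simp

end Pool.Agent.MP_e62289_ag.Un

end

section

open Set Filter Topology Complex MeasureTheory Metric Polynomial
open scoped Manifold ContDiff ComplexConjugate NNReal ENNReal

namespace Pool.Agent.MP_e62289_ag.Un

/-- the main density -/
noncomputable def g_Lo (z : ℂ) : ℝ := -deriv cZ (‖z‖ ^ 2)

theorem g_nonneg_Lo (z : ℂ) : 0 ≤ g_Lo z := by
  have h : Antitone cZ := fun a b hab => Real.smoothTransition.monotone (by linarith)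
  exact neg_nonneg.2 h.deriv_nonpos

theorem g_cont_Lo : Continuous g_Lo := by
  have h := X9_cZ.continuous_deriv le_rfl
  unfold g_Lo
  fun_prop

theorem g_supp_Lo {z : ℂ} (h : g_Lo z ≠ 0) : ‖z‖ ≤ 1 := by
  have h1 := X9_dZ (neg_ne_zero.1 h)
  nlinarith [norm_nonneg z]

theorem g_cs_Lo : HasCompactSupport g_Lo :=
  HasCompactSupport.intro (isCompact_closedBall 0 1) fun z hz => by
    by_contra h
    exact hz (mem_closedBall_zero_iff.2 (g_supp_Lo h))

theorem g_pos_Lo : 0 < ∫ z, g_Lo z := by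
  obtain ⟨t, ⟨h0, h1⟩, ht⟩ := exists_deriv_eq_slope cZ (a := 0) (b := 1 / 4) (by norm_num)
    X9_cZ.continuous.continuousOn (X9_cZ.differentiable one_ne_zero).differentiableOn
  have e0 : cZ 0 = 1 := Real.smoothTransition.one_of_one_le (by norm_num)
  have e1 : cZ (1 / 4) = 0 := Real.smoothTransition.zero_of_nonpos (by norm_num)
  rw [e0, e1] at ht
  refine g_cont_Lo.integral_pos_of_hasCompactSupport_nonneg_nonzero g_cs_Lo g_nonneg_Lo
    (x := ((√t : ℝ) : ℂ)) ?_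
  rw [g_Lo, norm_real, Real.norm_of_nonneg (Real.sqrt_nonneg t), Real.sq_sqrt h0.le, ht]
  norm_num

theorem main_Lo {a b : ℕ} (d : PD a b) {L : ℝ} (hL : 1 ≤ L) {x y : ℂ}
    (h : y ^ 2 = (d.P (dl L)).eval x) {A : ℂ}
    (hA : A = g_Lo x * (d.sg x y * y / d.D x * d.U.eval x) / (2 * y0 L * ((a - 1 : ℕ) : ℂ))) :
    g_Lo x / (4 * ((a - 1 : ℕ) : ℝ)) ≤ A.re ∧ ‖A‖ ≤ 2 * g_Lo x := by
  by_cases h0 : g_Lo x = 0
  · simp [hA, h0]
  have h1 := g_supp_Lo h0
  have hg := g_nonneg_Lo x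
  have h2 := d.p_low h1
  have h3 := dl_le hL
  have h4 := (d.sheet (dl_pos L) h (by linarith)).2
  have h5 : dl L / ‖d.p x‖ ≤ 1 / 10 := by
    rw [div_le_iff₀ (by linarith)]
    linarith
  have h6 := (d.near x h1).2
  obtain ⟨-, y1, y2⟩ := y0_sq hL
  have hm : (1 : ℝ) ≤ ((a - 1 : ℕ) : ℝ) := by
    have := d.two_le
    exact_mod_cast (by omega : 1 ≤ a - 1)
  generalize d.sg x y * y / d.D x = j at *
  generalize d.U.eval x = U at *
  have h7 : ‖j * U - 1‖ ≤ 1 / 2 := by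
    have e : j * U - 1 = (j - 1) * (U - 1) + (j - 1) + (U - 1) := by ring
    have a1 := norm_add₃_le (a := (j - 1) * (U - 1)) (b := j - 1) (c := U - 1)
    rw [← e, norm_mul] at a1
    nlinarith [norm_nonneg (j - 1), norm_nonneg (U - 1)]
  generalize j * U = k at *
  have h8 : 1 / 2 ≤ k.re := by
    have a1 := (abs_le.1 (abs_re_le_norm (k - 1))).1
    rw [sub_re, one_re] at a1
    linarith
  have h9 : ‖k‖ ≤ 3 / 2 := by
    have a1 := norm_add_le (k - 1) 1
    rw [sub_add_cancel, norm_one] at a1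
    linarith
  have hD : (2 * y0 L * ((a - 1 : ℕ) : ℂ)) = ((2 * y0 L * ((a - 1 : ℕ) : ℝ) : ℝ) : ℂ) := by
    rw [ofReal_mul, ofReal_mul, ofReal_natCast, ofReal_ofNat]
  generalize ((a - 1 : ℕ) : ℝ) = m at *
  have d1 : 1 ≤ 2 * y0 L * m := by nlinarith
  have d2 : 2 * y0 L * m ≤ 2 * m := by nlinarith
  have d0 : 0 < 2 * y0 L * m := by linarith
  rw [hA, hD]
  generalize 2 * y0 L * m = D at *
  constructor
  · rw [div_ofReal_re, re_ofReal_mul, div_le_div_iff₀ (by linarith) d0]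
    nlinarith [mul_le_mul_of_nonneg_left h8 (mul_nonneg hg (by linarith : 0 ≤ m)),
      mul_le_mul_of_nonneg_left d2 hg]
  · rw [norm_div, norm_mul, norm_real, norm_real, Real.norm_of_nonneg hg,
      Real.norm_of_nonneg d0.le, div_le_iff₀ d0]
    nlinarith [mul_le_mul_of_nonneg_left h9 hg, mul_le_mul_of_nonneg_left d1 hg]

theorem err_Lo {a b : ℕ} (d : PD a b) : ∃ E : ℝ, 0 ≤ E ∧ ∀ L : ℝ, 1 ≤ L → ∀ x : ℂ,
    ‖deriv cB (d.lg L x) * conj (d.ell x) / (4 * L * d.c * conj (d.A.eval x) * x ^ (a + 1))‖ ≤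
      E / L * ‖1 / (x * d.A.eval x)‖ := by
  obtain ⟨C, hC0, hC⟩ := cB_d
  obtain ⟨η, M, -, -, hM, h1, -⟩ := d.eta
  have hc := norm_pos_iff.2 d.c_ne
  refine ⟨C * M / (4 * ‖d.c‖), by positivity, fun L hL x => ?_⟩
  have hL0 : 0 < L := by linarith
  by_cases h0 : deriv cB (d.lg L x) = 0
  · rw [h0, ofReal_zero, zero_mul, zero_div, norm_zero]
    positivity
  by_cases hA : d.A.eval x = 0
  · rw [hA, map_zero, mul_zero, zero_mul, div_zero, norm_zero]
    positivity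
  have h2 : ‖d.p x‖ < 1 / 2 := by
    by_contra h
    exact h0 (cB_one (d.lg_one hL (not_lt.1 h)).le).2
  have h3 := (h1 x (by linarith)).2
  have h4 : 1 ≤ ‖x‖ := by
    by_contra h
    linarith [d.p_low (not_le.1 h).le]
  have h5 : ‖x‖ ≤ ‖x‖ ^ (a + 1) := le_self_pow₀ h4 (Nat.succ_ne_zero a)
  have h6 := norm_pos_iff.2 hA
  have e4 : ‖(4 : ℂ)‖ = 4 := by simp
  rw [norm_div, norm_mul, norm_mul, norm_mul, norm_mul, norm_mul, norm_pow, norm_conj, norm_conj,
    norm_real, norm_real, Real.norm_of_nonneg hL0.le, e4, norm_div, norm_one, norm_mul]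
  calc _ ≤ C * M / (4 * L * ‖d.c‖ * ‖d.A.eval x‖ * ‖x‖) := by
        gcongr
        exact hC _
    _ = _ := by field_simp

theorem point_Lo {a b : ℕ} (d : PD a b) : ∃ E : ℝ, 0 ≤ E ∧ ∀ L : ℝ, 1 ≤ L → ∀ x y : ℂ,
    y ^ 2 = (d.P (dl L)).eval x →
    ‖y‖ ^ 2 * g_Lo x / (4 * ((a - 1 : ℕ) : ℝ)) - E / L * (‖y‖ ^ 2 * ‖1 / (x * d.A.eval x)‖) ≤
      (-d.nuX L x y).re ∧
    ‖d.nuX L x y‖ ≤ 2 * (‖y‖ ^ 2 * g_Lo x) + E / L * (‖y‖ ^ 2 * ‖1 / (x * d.A.eval x)‖) := by
  obtain ⟨E, hE, hb⟩ := err_Lo d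
  refine ⟨E, hE, fun L hL x y h => ?_⟩
  obtain ⟨A, hA⟩ : ∃ A : ℂ,
      A = g_Lo x * (d.sg x y * y / d.D x * d.U.eval x) / (2 * y0 L * ((a - 1 : ℕ) : ℂ)) := ⟨_, rfl⟩
  obtain ⟨a1, a2⟩ := main_Lo d hL h hA
  have b1 := hb L hL x
  obtain ⟨B, hB⟩ : ∃ B : ℂ, B = deriv cB (d.lg L x) * conj (d.ell x) /
      (4 * L * d.c * conj (d.A.eval x) * x ^ (a + 1)) := ⟨_, rfl⟩
  rw [← hB] at b1
  have e : -d.nuX L x y = (‖y‖ ^ 2 : ℝ) * (A - B) := by
    rw [PD.nuX, ← hB, hA, g_Lo, ofReal_neg]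
    ring
  have hy := sq_nonneg ‖y‖
  rw [← norm_neg (d.nuX L x y), e]
  generalize ‖1 / (x * d.A.eval x)‖ = w at *
  constructor
  · have b2 := (abs_le.1 (abs_re_le_norm B)).2
    rw [re_ofReal_mul, sub_re, mul_div_assoc]
    have := mul_le_mul_of_nonneg_left
      (show g_Lo x / (4 * ((a - 1 : ℕ) : ℝ)) - E / L * w ≤ A.re - B.re by linarith) hy
    linarith
  · rw [norm_mul, norm_real, Real.norm_of_nonneg hy]
    have := mul_le_mul_of_nonneg_left (show ‖A - B‖ ≤ 2 * g_Lo x + E / L * w by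
      linarith [norm_sub_le A B]) hy
    linarith

theorem meas_Lo {a b : ℕ} (d : PD a b) (L : ℝ) {Y : Type} [MeasurableSpace Y] {x y : Y → ℂ}
    (hx : Measurable x) (hy : Measurable y) : Measurable fun q => d.nuX L (x q) (y q) := by
  have h1 := (X9_cZ.continuous_deriv le_rfl).measurable
  have h2 := ((cB_smooth (k := 1)).continuous_deriv le_rfl).measurable
  have hU : Measurable fun q => d.U.eval (x q) := d.U.continuous.measurable.comp hx
  have hA : Measurable fun q => d.A.eval (x q) := d.A.continuous.measurable.comp hx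
  have hD : Measurable fun q => d.D (x q) := hU.mul hA
  have h3 : Measurable fun q => d.sg (x q) (y q) :=
    Measurable.ite (measurableSet_lt measurable_const (measurable_re.comp (hy.div hD)))
      measurable_const measurable_const
  have h4 : Measurable fun q => conj (d.ell (x q)) :=
    (continuous_conj.comp d.ell_cont).measurable.comp hx
  have h5 : Measurable fun q => conj (d.A.eval (x q)) := continuous_conj.measurable.comp hA
  have h6 : Measurable fun q => d.lg L (x q) :=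
    (Real.measurable_log.comp (d.p_cont.measurable.comp hx).norm).div_const L
  have h7 : Measurable fun q => ((deriv cB (d.lg L (x q)) : ℝ) : ℂ) :=
    measurable_ofReal.comp (h2.comp h6)
  have h8 : Measurable fun q => ((deriv cZ (‖x q‖ ^ 2) : ℝ) : ℂ) :=
    measurable_ofReal.comp (h1.comp (hx.norm.pow_const 2))
  have h9 : Measurable fun q => ((‖y q‖ ^ 2 : ℝ) : ℂ) :=
    measurable_ofReal.comp (hy.norm.pow_const 2)
  exact h9.mul (((h7.mul h4).div ((h5.const_mul _).mul (hx.pow_const _))).add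
    (((h8.mul ((h3.mul hy).div hD)).mul hU).div_const _))

theorem sLo (h1 : SIn) (h2 : SJ1) : SLo := by
  intro a b d
  obtain ⟨E, hE, hpt⟩ := point_Lo d
  have hm : (0 : ℝ) < ((a - 1 : ℕ) : ℝ) := by
    have := d.two_le
    exact_mod_cast (by omega : 0 < a - 1)
  generalize ((a - 1 : ℕ) : ℝ) = m at *
  have hh : ∀ z : ℂ, 0 ≤ ‖1 / (z * d.A.eval z)‖ := fun z => norm_nonneg _
  have hmeas : Measurable fun z : ℂ => ‖1 / (z * d.A.eval z)‖ :=
    (measurable_const.div (measurable_id.mul d.A.continuous.measurable)).norm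
  have hp := g_pos_Lo
  have hq : 0 ≤ ∫ z : ℂ, ‖1 / (z * d.A.eval z)‖ := integral_nonneg hh
  refine ⟨(∫ z, g_Lo z) / (4 * m), 1 + 8 * m * E * (∫ z : ℂ, ‖1 / (z * d.A.eval z)‖) / ∫ z, g_Lo z,
    by positivity, fun L hL H => ?_⟩
  have h0 : 0 ≤ 8 * m * E * (∫ z : ℂ, ‖1 / (z * d.A.eval z)‖) / ∫ z, g_Lo z := by positivity
  have hL1 : 1 ≤ L := by linarith
  have hL0 : 0 < L := by linarith
  have hP : d.P (dl L) ≠ 0 := fun h => by
    have e := d.P_eval (dl L) 0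
    rw [h, eval_zero, PD.p, d.A0, d.U0, one_mul, one_pow, one_mul, eq_comm, sub_eq_zero] at e
    have e' : (1 : ℝ) = dl L := by exact_mod_cast e
    linarith [dl_le hL1]
  obtain ⟨i1, e1⟩ := (h1 _ _ _ H hP).2 _ g_cont_Lo.measurable g_nonneg_Lo
    (g_cont_Lo.integrable_of_hasCompactSupport g_cs_Lo)
  obtain ⟨i2, e2⟩ := (h1 _ _ _ H hP).2 _ hmeas hh (h2 a b d).norm
  have hpt' := fun q => hpt L hL1 _ _ (H.eqn q)
  have i3 : Integrable (fun q => d.nuX L (H.x q) (H.y q)) H.S.lam :=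
    ((i1.const_mul 2).add (i2.const_mul (E / L))).mono'
      (meas_Lo d L H.x_hol.continuous.measurable H.y_hol.continuous.measurable).aestronglyMeasurable
      (Eventually.of_forall fun q => (hpt' q).2)
  have h3 := integral_mono ((i1.div_const (4 * m)).sub (i2.const_mul (E / L))) i3.neg.re
    fun q => (hpt' q).1
  have h4 := integral_re i3.neg
  simp only [Pi.sub_apply, Pi.neg_apply, RCLike.re_to_complex] at h3 h4
  rw [integral_sub (i1.div_const (4 * m)) (i2.const_mul (E / L)), integral_div, integral_const_mul,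
    e1, e2, h4, integral_neg] at h3
  rw [← norm_neg]
  refine le_trans ?_ (h3.trans (re_le_norm _))
  generalize ∫ z : ℂ, ‖1 / (z * d.A.eval z)‖ = w at *
  have h5 : 8 * m * E * w ≤ L * ∫ z, g_Lo z := by
    rw [← div_le_iff₀ hp]
    linarith
  have h6 : E / L * (2 * w) ≤ (∫ z, g_Lo z) / (4 * m) := by
    rw [div_mul_eq_mul_div, div_le_div_iff₀ hL0 (by positivity)]
    linarith
  rw [mul_div_assoc]
  linarith

end Pool.Agent.MP_e62289_ag.Un

end
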