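import Pool.Agent.Mg.Fe62289a.Gfb6445

set_option linter.all false

open Set Filter Topology Complex MeasureTheory Metric Polynomial
open scoped Manifold ContDiff ComplexConjugate NNReal ENNReal

namespace Pool.Agent.MP_e62289_ag.Un

theorem poly_Po (P : ℂ[X]) (h : P.eval 0 = 1) :
    ∃ K : ℝ, 0 ≤ K ∧ ∀ x : ℂ, ‖x‖ ≤ 1 → ‖P.eval x - 1‖ ≤ K * ‖x‖ := by
  obtain ⟨K, hK⟩ := (isCompact_closedBall (0 : ℂ) 1).exists_bound_of_continuousOn
    (f := fun x => P.divX.eval x) P.divX.continuous.continuousOn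
  refine ⟨K, (norm_nonneg _).trans (hK 0 (by simp)), fun x hx => ?_⟩
  have h1 := congrArg (Polynomial.eval x) (divX_mul_X_add P)
  rw [eval_add, eval_mul, eval_X, eval_C, coeff_zero_eq_eval_zero, h] at h1
  rw [← h1, add_sub_cancel_right, norm_mul]
  exact mul_le_mul_of_nonneg_right (hK x (mem_closedBall_zero_iff.2 hx)) (norm_nonneg _)

theorem near_Po {U A j : ℂ} (hU : ‖U - 1‖ ≤ 1 / 10) (hA : ‖A - 1‖ ≤ 1 / 10)
    (hj : ‖j - 1‖ ≤ 1 / 32) :
    ‖A‖ ≤ 11 / 10 ∧ ‖U * A - 1‖ ≤ 21 / 100 ∧ ‖j * (U * A) - 1‖ ≤ 1 / 4 := by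
  have h1 : ‖A‖ ≤ 11 / 10 := by
    have := norm_sub_norm_le A 1
    rw [norm_one] at this
    linarith
  have h2 : ‖U * A - 1‖ ≤ 21 / 100 := by
    rw [show U * A - 1 = (U - 1) * A + (A - 1) by ring]
    refine (norm_add_le _ _).trans ?_
    rw [norm_mul]
    have := mul_le_mul hU h1 (norm_nonneg _) (by norm_num)
    linarith
  refine ⟨h1, h2, ?_⟩
  have h3 : ‖U * A‖ ≤ 121 / 100 := by
    have := norm_sub_norm_le (U * A) 1
    rw [norm_one] at this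
    linarith
  rw [show j * (U * A) - 1 = (j - 1) * (U * A) + (U * A - 1) by ring]
  refine (norm_add_le _ _).trans ?_
  rw [norm_mul]
  have := mul_le_mul hj h3 (norm_nonneg _) (by norm_num)
  linarith

theorem small_Po {U A w : ℂ} {δ y t : ℝ} (hU : ‖U - 1‖ ≤ t) (hA : ‖A - 1‖ ≤ t)
    (h1 : ‖A‖ ≤ 11 / 10) (h2 : ‖U * A - 1‖ ≤ 21 / 100) (h3 : ‖w - 1‖ ≤ 1 / 4) (hδ : 0 ≤ δ)
    (hδ' : δ ≤ 1) (hy : y ^ 2 = 1 - δ) (hy' : 9 / 10 ≤ y) (h : w ^ 2 = (U * A) ^ 2 - δ * A) :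
    ‖1 - w / y‖ ≤ 8 * t := by
  have ht : 0 ≤ t := (norm_nonneg _).trans hU
  have hy0 : (y : ℂ) ≠ 0 := by
    have : y ≠ 0 := by linarith
    exact_mod_cast this
  have hyc : (y : ℂ) ^ 2 = 1 - δ := by exact_mod_cast hy
  have e : (w - y) * (w + y) = (U * A - 1) * (U * A - 1 + 2) - δ * (A - 1) := by
    linear_combination h - hyc
  have a1 : 9 / 10 ≤ ‖w + y‖ := by
    have b1 := re_le_norm (w + y)
    have b2 := (abs_le.1 ((abs_re_le_norm (w - 1)).trans h3)).1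
    simp only [add_re, sub_re, one_re, ofReal_re] at b1 b2
    linarith
  have a2 : ‖U * A - 1‖ ≤ 21 / 10 * t := by
    rw [show U * A - 1 = (U - 1) * A + (A - 1) by ring]
    refine (norm_add_le _ _).trans ?_
    rw [norm_mul]
    have := mul_le_mul hU h1 (norm_nonneg _) ht
    linarith
  have a3 : ‖U * A - 1 + 2‖ ≤ 221 / 100 := by
    have := norm_add_le (U * A - 1) 2
    rw [Complex.norm_two] at this
    linarith
  have a4 : ‖w - y‖ * ‖w + y‖ ≤ 6 * t := by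
    rw [← norm_mul, e]
    refine (norm_sub_le _ _).trans ?_
    rw [norm_mul, norm_mul, norm_real, Real.norm_of_nonneg hδ]
    have b1 := mul_le_mul a2 a3 (norm_nonneg _) (by positivity)
    have b2 := mul_le_mul hδ' hA (norm_nonneg _) (by norm_num)
    linarith
  have a5 := mul_le_mul_of_nonneg_left a1 (norm_nonneg (w - y))
  rw [show 1 - w / y = -((w - y) / y) by field_simp; ring, norm_neg, norm_div, norm_real,
    Real.norm_of_nonneg (by linarith), div_le_iff₀ (by linarith)]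
  have a6 := mul_le_mul_of_nonneg_left hy' ht
  linarith

theorem mid_Po {C y t : ℝ} (hC0 : 0 ≤ C) (hC : ∀ t, |deriv cZ t| ≤ C) {w : ℂ} {N : ℕ} (hN : 1 ≤ N)
    (hw : ‖w - 1‖ ≤ 1 / 4) (hy : 9 / 10 ≤ y) (ht0 : 0 ≤ t) (ht : t ≤ 1 / 4) :
    ‖1 - w * ((cZ t : ℂ) + t * deriv cZ t / (N : ℂ)) / y‖ + ‖w‖ * (t * |deriv cZ t|) / y ≤
      4 + 2 * C := by
  have h1 : ‖w‖ ≤ 5 / 4 := by
    have := norm_sub_norm_le w 1
    rw [norm_one] at this
    linarith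
  have h6 : t * |deriv cZ t| ≤ 1 / 4 * C := mul_le_mul ht (hC _) (abs_nonneg _) (by norm_num)
  have hN' : (1 : ℝ) ≤ N := by exact_mod_cast hN
  have h7 : ‖(cZ t : ℂ) + t * deriv cZ t / (N : ℂ)‖ ≤ 1 + 1 / 4 * C := by
    refine (norm_add_le _ _).trans (add_le_add ?_ ?_)
    · rw [norm_real, cZ, Real.norm_of_nonneg (Real.smoothTransition.nonneg _)]
      exact Real.smoothTransition.le_one _
    · rw [norm_div, norm_mul, norm_real, norm_real, Real.norm_of_nonneg ht0, Complex.norm_natCast]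
      exact (div_le_self (by positivity) hN').trans h6
  have h8 := norm_sub_le 1 (w * ((cZ t : ℂ) + t * deriv cZ t / (N : ℂ)) / y)
  rw [norm_one, norm_div, norm_mul, norm_real, Real.norm_of_nonneg (by linarith)] at h8
  have h9 : ‖w‖ * ‖(cZ t : ℂ) + t * deriv cZ t / (N : ℂ)‖ / y ≤ 2 + C := by
    rw [div_le_iff₀ (by linarith)]
    have a1 := mul_le_mul h1 h7 (norm_nonneg _) (by norm_num)
    have a2 := mul_le_mul_of_nonneg_left hy (show 0 ≤ 2 + C by linarith)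
    linarith
  have h10 : ‖w‖ * (t * |deriv cZ t|) / y ≤ C := by
    rw [div_le_iff₀ (by linarith)]
    have a1 := mul_le_mul h1 h6 (by positivity) (by norm_num)
    have a2 := mul_le_mul_of_nonneg_left hy hC0
    linarith
  linarith

theorem Q_Po {a b : ℕ} (d : PD a b) : ∃ C : ℝ, 2 ≤ C ∧ ∀ L : ℝ, 1 ≤ L → ∀ x j : ℂ,
    ‖j - 1‖ ≤ 1 / 32 → (j * d.D x) ^ 2 = (d.P (dl L)).eval x →
    ‖1 - j * d.D x * ((cZ (‖x‖ ^ 2) : ℂ) + (‖x‖ ^ 2 : ℝ) * deriv cZ (‖x‖ ^ 2) / ((a - 1 : ℕ) : ℂ)) /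
      y0 L‖ + ‖j * d.D x‖ * (‖x‖ ^ 2 * |deriv cZ (‖x‖ ^ 2)|) / y0 L ≤ C * ‖x‖ := by
  obtain ⟨C, hC0, hC⟩ := x7_dZ
  obtain ⟨K1, hK1, h1⟩ := poly_Po d.A d.A0
  obtain ⟨K2, hK2, h2⟩ := poly_Po d.U d.U0
  refine ⟨16 + 8 * C + 8 * (K1 + K2), by linarith, fun L hL x j hj h => ?_⟩
  have hx0 := norm_nonneg x
  have b1 := mul_nonneg hC0 hx0
  have b2 := mul_nonneg hK1 hx0
  have b3 := mul_nonneg hK2 hx0
  obtain ⟨y1, y2, -⟩ := y0_sq hL
  rcases le_total (1 / 2) ‖x‖ with hx | hx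
  · have h3 := x7_cZ_zero (t := ‖x‖ ^ 2) (by nlinarith)
    rw [h3.1, h3.2]
    simp only [ofReal_zero, mul_zero, zero_div, add_zero, sub_zero, norm_one, abs_zero]
    linarith
  obtain ⟨n1, n2⟩ := d.near x (by linarith)
  obtain ⟨m1, m2, m3⟩ := near_Po n2 n1 hj
  rcases le_total (1 / 4) ‖x‖ with hx' | hx'
  · have h3 := mid_Po hC0 hC (N := a - 1) (by have := d.two_le; omega) m3 y2 (sq_nonneg ‖x‖)
      (by nlinarith)
    have h4 := mul_le_mul_of_nonneg_left hx' hC0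
    unfold PD.D
    linarith
  · have h3 := x7_cZ_one (t := ‖x‖ ^ 2) (by nlinarith)
    rw [h3.1, h3.2]
    simp only [ofReal_zero, ofReal_one, mul_zero, zero_div, add_zero, mul_one, abs_zero]
    rw [d.P_eval'] at h
    have h4 := small_Po (t := (K1 + K2) * ‖x‖) ((h2 x (by linarith)).trans (by linarith))
      ((h1 x (by linarith)).trans (by linarith)) m1 m2 m3 (dl_pos L).le
      (by linarith [dl_le hL]) y1 y2 h
    unfold PD.D
    linarith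

theorem A_Po {s y U A c L E w v r Y Z T : ℂ} (hU : U ≠ 0) (hA : A ≠ 0) (hc : c ≠ 0) (hL : L ≠ 0) :
    w + r * v + s * ((E - 1) * w / (U * A) - E * (T / (4 * L * A)) / (c * U) - r / Y * (v * Z)) * y =
      w * (1 - s * y / (U * A)) + s * y / (U * A) * E * w +
        (r * v * (1 - s * y / (U * A) * (U * A) * Z / Y) -
          s * y / (U * A) * E * (T / (4 * L * c))) := by
  rw [div_eq_mul_inv r Y, div_eq_mul_inv _ Y]
  generalize Y⁻¹ = J
  field_simp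
  ring

theorem B_Po {s y U A c E x v r T l : ℂ} {L Y z : ℝ} {N : ℕ} (hU : U ≠ 0) (hA : A ≠ 0) (hc : c ≠ 0)
    (hL : 0 < L) (hY : 0 < Y) (hN : 1 ≤ N) :
    ‖s * (-(E * (T * conj l / (4 * L * conj A)) / (c * U)) - r / Y * (x ^ 2 * v * z / N)) * conj y‖ ≤
      ‖s * y / (U * A)‖ * ‖E‖ * ‖T * l / (4 * L * c)‖ +
        ‖r‖ * ‖v‖ * (‖s * y / (U * A) * (U * A)‖ * (‖x‖ ^ 2 * |z|) / Y) := by
  have hN' : (1 : ℝ) ≤ N := by exact_mod_cast hN
  have h1 := norm_pos_iff.2 hU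
  have h2 := norm_pos_iff.2 hA
  have h3 := norm_pos_iff.2 hc
  rw [div_mul_cancel₀ _ (mul_ne_zero hU hA), mul_sub, sub_mul]
  refine (norm_sub_le _ _).trans (add_le_add (le_of_eq ?_) ?_)
  · simp only [norm_mul, norm_div, norm_neg, RCLike.norm_conj, norm_real, Complex.norm_ofNat,
      Real.norm_of_nonneg hL.le]
    field_simp
  · simp only [norm_mul, norm_div, norm_pow, RCLike.norm_conj, norm_real, Complex.norm_natCast,
      Real.norm_of_nonneg hY.le, Real.norm_eq_abs]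
    have h4 : ‖x‖ ^ 2 * ‖v‖ * |z| / N ≤ ‖x‖ ^ 2 * ‖v‖ * |z| := div_le_self (by positivity) hN'
    calc ‖s‖ * (‖r‖ / Y * (‖x‖ ^ 2 * ‖v‖ * |z| / N)) * ‖y‖
        ≤ ‖s‖ * (‖r‖ / Y * (‖x‖ ^ 2 * ‖v‖ * |z|)) * ‖y‖ := by gcongr
      _ = _ := by ring

theorem sPo : SPo := by
  intro a b d
  obtain ⟨C, hC0, hC⟩ := cB_d
  obtain ⟨C1, hC1, hQ⟩ := Q_Po d
  obtain ⟨η, M, -, -, hM, hM1, -⟩ := d.eta
  have hc0 := norm_pos_iff.2 d.c_ne
  have ha := d.two_le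
  obtain ⟨c, c1, c2, c3⟩ : ∃ c : ℝ, 0 < c ∧ c ≤ 1 ∧ c * (C * M) ≤ 1 / 10 * (4 * ‖d.c‖) := by
    have h0 : 0 ≤ C * M := by positivity
    refine ⟨‖d.c‖ / (‖d.c‖ + 3 * (C * M)), by positivity, ?_, ?_⟩
    · rw [div_le_one (by positivity)]; linarith
    · rw [div_mul_eq_mul_div, div_le_iff₀ (by positivity)]; nlinarith
  obtain ⟨ε, e1, e2⟩ : ∃ ε : ℝ, 0 < ε ∧ ε * C1 = 1 / 4 :=
    ⟨1 / (4 * C1), by positivity, by field_simp⟩
  refine ⟨c, ε, 22, c1, c2, e1, by norm_num, fun L hL x y u r h hx hu hr => ?_⟩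
  have hL0 : 0 < L := by linarith
  have hL1 : 1 ≤ L := by linarith
  have w1 : x ^ (a - 1) = x * x ^ (a - 2) := by
    rw [← pow_succ', show a - 2 + 1 = a - 1 by omega]
  have w2 : x ^ a = x ^ 2 * x ^ (a - 2) := by rw [← pow_add, show 2 + (a - 2) = a by omega]
  have hv : x ^ (a - 2) ≠ 0 := pow_ne_zero _ hx
  have x1 : Real.exp (-2 * L) ≤ 1 / 32 * Real.exp (-L / 2) := by
    rw [show -2 * L = -(3 * L / 2) + -L / 2 by ring, Real.exp_add, Real.exp_neg]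
    refine mul_le_mul_of_nonneg_right ?_ (Real.exp_pos _).le
    rw [one_div]
    exact inv_anti₀ (by norm_num) (by linarith [Real.add_one_le_exp (3 * L / 2)])
  have x2 : Real.exp (-L / 2) ≤ 1 := Real.exp_le_one_iff.2 (by linarith)
  have hbig : ‖d.p x‖ ≤ 1 / 2 → 1 < ‖x‖ := fun h1 => by
    by_contra h2
    linarith [d.p_low (not_lt.1 h2)]
  rcases le_or_gt ‖d.p x‖ (Real.exp (-2 * L)) with hp | hp
  · have h1 := hbig (by linarith)
    have h3 := x7_cZ_zero (t := ‖x‖ ^ 2) (by nlinarith)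
    have h4 : deriv cB (d.lg L x) = 0 ∧ (d.ex L u x y - 1) * x ^ (a - 1) / d.D x = 0 := by
      by_cases h0 : d.p x = 0
      · refine ⟨(cB_one ?_).2, by rw [(d.p_zero h0).2.2, div_zero]⟩
        rw [PD.lg, h0]; simp
      · have h5 : d.lg L x ≤ -2 := by
          rw [PD.lg, div_le_iff₀ hL0]
          exact (Real.log_le_iff_le_exp (norm_pos_iff.2 h0)).2 hp
        refine ⟨(cB_zero h5).2, ?_⟩
        rw [PD.ex, (cB_zero h5).1]; simp
    rw [PD.K1, PD.K2, h4.1, h4.2, h3.1, h3.2]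
    simp only [ofReal_zero, mul_zero, zero_div, zero_mul, norm_zero, add_zero, sub_zero, neg_zero]
    rw [w1, ← add_mul, norm_pos_iff]
    refine mul_ne_zero (fun h6 => ?_) hv
    have h7 : ‖x‖ = ‖r‖ := by rw [eq_neg_of_add_eq_zero_left h6, norm_neg]
    have h8 : Real.exp (-‖u‖ / 2) ≤ 1 := Real.exp_le_one_iff.2 (by linarith [norm_nonneg u])
    nlinarith
  have hdl : dl L = Real.exp (-2 * L) * Real.exp (-2 * L) := by
    rw [dl, ← Real.exp_add]; congr 1; ring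
  have x3 := Real.exp_pos (-2 * L)
  have hp0 : 0 < ‖d.p x‖ := x3.trans hp
  obtain ⟨hU, hA, hD⟩ := d.p_ne (norm_pos_iff.1 hp0)
  have hj : ‖d.sg x y * y / d.D x - 1‖ ≤ Real.exp (-2 * L) := by
    refine (d.sheet (dl_pos L) h (by rw [hdl]; nlinarith)).2.trans ?_
    rw [div_le_iff₀ hp0, hdl]
    exact mul_le_mul_of_nonneg_left hp.le x3.le
  obtain ⟨hσ, hσ2⟩ := d.sg_norm x y
  have hE : Real.exp (-‖u‖ / 2) ≤ ‖d.ex L u x y‖ := x7_E hσ (cB_mem _).1 (cB_mem _).2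
  have hE0 : d.ex L u x y ≠ 0 := exp_ne_zero _
  have huL : ‖u‖ ≤ L := by nlinarith
  have x4 : Real.exp (-L / 2) ≤ Real.exp (-‖u‖ / 2) := Real.exp_le_exp.2 (by linarith)
  have hj3 : ‖d.sg x y * y / d.D x - 1‖ ≤ 1 / 32 := by linarith
  have hj4 : ‖d.sg x y * y / d.D x - 1‖ ≤ 1 / 32 * ‖d.ex L u x y‖ := by linarith
  have hj5 : ‖d.sg x y * y / d.D x‖ ≤ 2 := by
    have := norm_sub_norm_le (d.sg x y * y / d.D x) 1
    rw [norm_one] at this
    linarith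
  have hq := hQ L hL1 x _ hj3 (by rw [div_mul_cancel₀ _ hD, mul_pow, hσ2, one_mul, h])
  have hrE := hr.le.trans (mul_le_mul_of_nonneg_left hE e1.le)
  have hT : ‖u * d.sg x y * deriv cB (d.lg L x) * d.ell x / (4 * L * d.c)‖ ≤
      1 / 10 * ‖x ^ (a - 1)‖ := by
    by_cases h0 : deriv cB (d.lg L x) = 0
    · rw [h0]; simp
    have h1 : ‖d.p x‖ ≤ 1 / 2 := by
      by_contra h2
      exact h0 (cB_one (d.lg_one hL1 (not_le.1 h2).le).le).2
    have h2 : 1 ≤ ‖x ^ (a - 1)‖ := by rw [norm_pow]; exact one_le_pow₀ (hbig h1).le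
    refine le_trans ?_ (mul_le_mul_of_nonneg_left h2 (by norm_num))
    rw [norm_div, norm_mul, norm_mul, norm_mul, norm_mul, norm_mul, hσ, norm_real, norm_real,
      Real.norm_eq_abs, Real.norm_of_nonneg hL0.le, Complex.norm_ofNat,
      div_le_iff₀ (by positivity)]
    have a1 := mul_le_mul (mul_le_mul hu.le (hC (d.lg L x)) (abs_nonneg _) (by positivity))
      (hM1 x (by linarith)).2 (norm_nonneg _) (by positivity)
    have a2 := mul_le_mul_of_nonneg_right c3 hL0.le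
    linarith
  have hLc : (L : ℂ) ≠ 0 := by exact_mod_cast hL0.ne'
  have hy0 : 0 < y0 L := by linarith [(y0_sq hL1).2.1]
  have hB := B_Po (s := d.sg x y) (y := y) (E := d.ex L u x y) (x := x) (v := x ^ (a - 2)) (r := r)
    (T := u * d.sg x y * deriv cB (d.lg L x)) (l := d.ell x) (z := deriv cZ (‖x‖ ^ 2)) (N := a - 1)
    hU hA d.c_ne hL0 hy0 (by omega)
  rw [PD.K1, PD.K2, w2, PD.D, A_Po hU hA d.c_ne hLc]
  rw [PD.D] at hj3 hj4 hj5 hq
  refine x7_low (pow_ne_zero _ hx) hE0 hj3 hj4 ?_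
  refine (add_le_add (norm_sub_le _ _) hB).trans ?_
  rw [norm_mul (r * _), norm_mul r, norm_mul (_ * d.ex L u x y), norm_mul _ (d.ex L u x y)]
  have hw : ‖x ^ (a - 1)‖ = ‖x‖ * ‖x ^ (a - 2)‖ := by rw [w1, norm_mul]
  have a1 := mul_le_mul (mul_le_mul_of_nonneg_right hj5 (norm_nonneg (d.ex L u x y))) hT
    (norm_nonneg _) (by positivity)
  have a2 := mul_le_mul_of_nonneg_left hq (mul_nonneg (norm_nonneg r) (norm_nonneg (x ^ (a - 2))))
  have a3 : ‖r‖ * ‖x ^ (a - 2)‖ * (C1 * ‖x‖) ≤ 1 / 4 * (‖d.ex L u x y‖ * ‖x ^ (a - 1)‖) := by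
    rw [hw, ← e2]
    calc ‖r‖ * ‖x ^ (a - 2)‖ * (C1 * ‖x‖)
        ≤ ε * ‖d.ex L u x y‖ * ‖x ^ (a - 2)‖ * (C1 * ‖x‖) := by gcongr
      _ = _ := by ring
  have a4 := mul_nonneg (norm_nonneg (d.ex L u x y)) (norm_nonneg (x ^ (a - 1)))
  linarith

end Pool.Agent.MP_e62289_ag.Un
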