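import Pool.Agent.Mg.Fe62289a.Gfb6445

set_option linter.all false

section

open Set Filter Topology Complex MeasureTheory Metric
open scoped Manifold ContDiff ComplexConjugate NNReal ENNReal

namespace Pool.Agent.MP_e62289_ag.Un

variable {E : Type} [NormedAddCommGroup E] [NormedSpace ℂ E] [FiniteDimensional ℂ E]
  {B : Type} [EMetricSpace B] [ChartedSpace E B] [IsManifold 𝓘(ℂ, E) ω B]
  [IsManifold 𝓘(ℝ, E) ∞ B] [SimplyConnectedSpace B] {n : ℕ} {a : Fin n → ℕ}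

/-- the inequality forced by a Kähler hyperbolic metric -/
theorem mid2 (k : KData E B) (d : DData k) (C : Family E B a) :
    ∃ Cst : ℝ, 0 ≤ Cst ∧ ∀ (S : Flat n) (ξp ξm : S.H), ξp ∈ S.hd.W → ξm ∈ S.hd.W →
      Nonempty (S.FV a ξp ξm) → ∀ D : TopologicalSpace.Opens P2, SimplyConnectedSpace D →
      ∀ (δ : S.Defo a D) (C' : Family P2 D a) (M : C'.MFam S.Y fun t => t),
      (∀ t : D, bel (M.G t).φ = δ.mu t) →
      (∀ i t, Tendsto (fun q => ((M.G t).φ q).1) (S.endF i) (𝓝 (C'.sec i t))) →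
      C'.IsPullback C → ∀ α β : ℝ, 0 < α → 0 < β →
      (∀ ζ ∈ ball (0 : ℂ) 1, ![α * ζ, 0] ∈ D ∧ ![0, β * ζ] ∈ D) → (∀ q, δ.mu 0 q = 0) →
      ∀ ν : S.Y → ℂ, (∀ q, HasDerivAt (fun u => deriv (fun r => δ.mu ![u, r] q) 0) (ν q) 0) →
      α * β * ‖∫ q, ν q * (S.f q * ξp q * ξm q) ∂S.lam‖ ≤ Cst * (‖ξp‖ * ‖ξm‖) := by
  obtain ⟨CA, hA⟩ := schwarzA k d
  obtain ⟨CS, CS0, hS⟩ := schwarzS k
  refine ⟨CS * (4 * max CA 0) + 2, by positivity, ?_⟩
  rintro S ξp ξm hp hm ⟨fv⟩ D hD δ C' M hM hMe ⟨ψ, Ψ, hψ, hΨ, hb, hs, hh⟩ α β α0 β0 hdisc h0 ν hν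
  obtain ⟨M', hM1, hM2⟩ := M.pull hΨ hb hs hh
  have z0 : (0 : P2) ∈ D := by
    have := (hdisc 0 (mem_ball_self one_pos)).1
    convert this using 1
    ext i
    fin_cases i <;> simp
  let t₀ : D := ⟨0, z0⟩
  have : LocallyConnectedSpace D := D.isOpen.locallyConnectedSpace
  obtain ⟨h, h1, h2, h3, h4⟩ := Family.global hp hm fv hψ.continuous M' t₀ (fun q => by
      have e : bel (M'.G t₀).φ q = 0 := by rw [hM2, hM]; exact h0 q
      exact (div_eq_zero_iff.1 e).resolve_right ((M'.G t₀).d1_ne q))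
    fun i => by
      simp only [hM1, ← hs]
      exact (hΨ.tendsto _).comp (hMe i t₀)
  set p := ψ t₀ with hpe
  have pr0 : midPr t₀ 0 = t₀ := Subtype.ext (midPr_val t₀ z0)
  have md : ∀ v ∈ D, MDifferentiableAt 𝓘(ℂ, P2) 𝓘(ℂ, E) (fun v => ψ (midPr t₀ v)) v :=
    fun v hv => (hψ _).comp v (midPr_md t₀ hv)
  have c0 : Tendsto (midPr t₀) (𝓝 0) (𝓝 t₀) := by
    have := (midPr_md t₀ z0).continuousAt.tendsto
    rwa [pr0] at this
  have src : ∀ᶠ v in 𝓝 (0 : P2), ψ (midPr t₀ v) ∈ (chartAt E p).source :=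
    ((hψ.continuous.tendsto t₀).comp c0).eventually (chart_source_mem_nhds E p)
  let g : P2 → E := fun v => chartAt E p (ψ (midPr t₀ v))
  have gd : ∀ᶠ v in 𝓝 (0 : P2), DifferentiableAt ℂ g v := by
    filter_upwards [src, D.isOpen.mem_nhds z0] with v v1 v2
    exact mdifferentiableAt_iff_differentiableAt.1
      ((mdifferentiableAt_atlas (chart_mem_atlas E p) v1).comp v (md v v2))
  have g0 : g 0 = chartAt E p p := by simp only [g, pr0, hpe]
  have gl : ∀ v : P2, deriv (fun ζ : ℂ => g (ζ • v)) 0 = fderiv ℂ g 0 v := fun v =>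
    (HasFDerivAt.comp_hasDerivAt_of_eq (0 : ℂ) gd.self_of_nhds.hasFDerivAt (mid_line v)
      (by simp)).deriv
  have ga : ∀ v : P2, AnalyticAt ℂ (fun ζ : ℂ => g (ζ • v)) 0 := fun v => by
    have t : Tendsto (fun ζ : ℂ => ζ • v) (𝓝 0) (𝓝 0) := by
      simpa using (mid_line v).continuousAt.tendsto
    refine Complex.analyticAt_iff_eventually_differentiableAt.2 ?_
    filter_upwards [t.eventually gd] with ζ hζ
    exact DifferentiableAt.comp ζ (g := g) hζ (by fun_prop)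
  have disc : ∀ v : P2, (∀ ζ ∈ ball (0 : ℂ) 1, ζ • v ∈ D) →
      k.G p (chartAt E p p) (fderiv ℂ g 0 v) (fderiv ℂ g 0 v) ≤ max CA 0 := fun v hv => by
    have := hA (fun ζ => ψ (midPr t₀ (ζ • v))) fun ζ hζ =>
      (MDifferentiableAt.comp ζ (g := fun v => ψ (midPr t₀ v)) (md _ (hv ζ hζ))
        (mdifferentiableAt_iff_differentiableAt.2 (by fun_prop))).mdifferentiableWithinAt
    simp only [zero_smul, pr0, ← hpe] at this
    rw [← gl]
    exact this.trans (le_max_left _ _)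
  let v₁ : P2 := ![α, 0]
  let v₂ : P2 := ![0, β]
  have ev : ∀ u r : ℂ, ![α * u, β * r] = u • v₁ + r • v₂ := fun u r => by
    ext i
    fin_cases i <;> simp [v₁, v₂, mul_comm]
  have d1 := disc v₁ fun ζ hζ => by
    have := ev ζ 0
    rw [mul_zero, zero_smul, add_zero] at this
    exact this ▸ (hdisc ζ hζ).1
  have d2 := disc v₂ fun ζ hζ => by
    have := ev 0 ζ
    rw [mul_zero, zero_smul, zero_add] at this
    exact this ▸ (hdisc ζ hζ).2
  obtain ⟨ρ, ρ0, ρ1, hρ⟩ : ∃ ρ : ℝ, 0 < ρ ∧ ρ ≤ 1 ∧ ∀ u ∈ ball (0 : ℂ) ρ, ∀ r ∈ ball (0 : ℂ) ρ,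
      ![α * u, β * r] ∈ D := by
    have t : Tendsto (fun x : ℂ × ℂ => x.1 • v₁ + x.2 • v₂) (𝓝 0) (𝓝 0) := by
      have : Continuous fun x : ℂ × ℂ => x.1 • v₁ + x.2 • v₂ := by fun_prop
      simpa using this.tendsto 0
    obtain ⟨ρ, ρ0, hρ⟩ := Metric.eventually_nhds_iff_ball.1 (t.eventually (D.isOpen.mem_nhds z0))
    refine ⟨min ρ 1, by positivity, min_le_right _ _, fun u hu r hr => ?_⟩
    rw [ev]
    refine hρ (u, r) ?_
    rw [← Prod.mk_zero_zero, ← ball_prod_same]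
    exact ⟨ball_subset_ball (min_le_left _ _) hu, ball_subset_ball (min_le_left _ _) hr⟩
  have dv : ∀ r : ℂ, Differentiable ℂ fun u : ℂ => (![α * u, β * r] : P2) := fun r => by
    simp only [ev]
    fun_prop
  have dv' : ∀ u : ℂ, Differentiable ℂ fun r : ℂ => (![α * u, β * r] : P2) := fun u => by
    simp only [ev]
    fun_prop
  have key := S.second ξp ξm (μ := fun u r => δ.mu ![α * u, β * r]) (ν := fun q => α * β * ν q)
    (Bd := CS * (‖ξp‖ * ‖ξm‖) * (4 * max CA 0)) ρ0 ρ1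
    (fun u hu r hr => δ.mu_cont (hρ u hu r hr)) (fun q => by
      rw [ev, zero_smul, zero_smul, add_zero]
      exact h0 q)
    (fun u hu r hr q => (δ.norm_mu_lt (hρ u hu r hr) q).le)
    (fun r hr q u hu => (δ.mu_hol (dv r) (hρ u hu r hr) q).differentiableWithinAt)
    (fun u hu q r hr => (δ.mu_hol (dv' u) (hρ u hu r hr) q).differentiableWithinAt)
    (fun q => by
      have e : ∀ u ∈ ball (0 : ℂ) 1, ![α * u, β * (0 : ℂ)] ∈ D := fun u hu => by
        rw [mul_zero]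
        exact (hdisc u hu).1
      exact ⟨fun u hu => (δ.mu_hol (dv 0) (e u hu) q).differentiableWithinAt,
        fun u hu => (δ.norm_mu_lt (e u hu) q).le⟩)
    (fun q => by
      have e : ∀ u ∈ ball (0 : ℂ) 1, ![α * (0 : ℂ), β * u] ∈ D := fun u hu => by
        rw [mul_zero]
        exact (hdisc u hu).2
      exact ⟨fun u hu => (δ.mu_hol (dv' 0) (e u hu) q).differentiableWithinAt,
        fun u hu => (δ.norm_mu_lt (e u hu) q).le⟩)
    (fun q => by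
      have e : ∀ u : ℂ, deriv (fun r : ℂ => δ.mu ![α * u, β * r] q) 0 =
          β * deriv (fun r : ℂ => δ.mu ![α * u, r] q) 0 := fun u => by
        have := deriv_comp_mul_left (𝕜 := ℂ) β (fun r : ℂ => δ.mu ![α * u, r] q) 0
        rwa [mul_zero] at this
      simp only [e]
      have := (HasDerivAt.comp_of_eq (0 : ℂ) (hν q) ((hasDerivAt_id (0 : ℂ)).const_mul (α : ℂ))
        (by simp)).const_mul (β : ℂ)
      rw [show (α * β * ν q : ℂ) = β * (ν q * (α * 1)) by ring]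
      exact this)
    fun η η0 ε δ' hε hδ => by
      have hc := hS p h _ h1 h2 h3 _ (ga (ε • v₁ + δ' • v₂)) (by rw [zero_smul, g0]) η η0
      have t : Tendsto (fun t : ℝ => (t : ℂ) • (ε • v₁ + δ' • v₂)) (𝓝[>] 0) (𝓝 0) := by
        have : Continuous fun t : ℝ => (t : ℂ) • (ε • v₁ + δ' • v₂) := by fun_prop
        exact tendsto_nhdsWithin_of_tendsto_nhds (by simpa using this.tendsto 0)
      filter_upwards [hc, t.eventually src, t.eventually (D.isOpen.mem_nhds z0),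
        (c0.comp t).eventually h4] with t t1 t2 t3 t4
      have e : ![α * (ε * t), β * (δ' * t)] = (t : ℂ) • (ε • v₁ + δ' • v₂) := by
        rw [ev, smul_add, smul_smul, smul_smul, mul_comm ε, mul_comm δ']
      simp only [g, (chartAt E p).left_inv t2] at t1
      rw [Function.comp_apply, hM2, hM, midPr_val t₀ t3] at t4
      rw [e, ← t4]
      refine t1.trans (mul_le_mul_of_nonneg_right (add_le_add_left
        (mul_le_mul_of_nonneg_left ?_ (by positivity)) _) (sq_nonneg _))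
      have := gl (ε • v₁ + δ' • v₂)
      simp only [g] at this
      rw [this, zero_smul, pr0, map_add, map_smul, map_smul]
      exact (mid_quad k (mem_chart_target E p) _ _ hε hδ).trans (by linarith)
  simp only [mul_assoc (α * β : ℂ), integral_const_mul, norm_mul, Complex.norm_real,
    Real.norm_of_nonneg α0.le, Real.norm_of_nonneg β0.le] at key
  linarith

end Pool.Agent.MP_e62289_ag.Un

end

section

open Set Filter Topology Complex MeasureTheory Metric Polynomial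
open scoped Manifold ContDiff ComplexConjugate NNReal ENNReal

namespace Pool.Agent.MP_e62289_ag.Un

/-- the inequality forced by a Kähler hyperbolic metric -/
def Bd {n : ℕ} (a : Fin n → ℕ) (Cst : ℝ) : Prop :=
  ∀ (S : Flat n) (ξp ξm : S.H), ξp ∈ S.hd.W → ξm ∈ S.hd.W →
    Nonempty (S.FV a ξp ξm) → ∀ D : TopologicalSpace.Opens P2, SimplyConnectedSpace D →
    ∀ (δ : S.Defo a D) (α β : ℝ), 0 < α → 0 < β →
    (∀ ζ ∈ ball (0 : ℂ) 1, ![α * ζ, 0] ∈ D ∧ ![0, β * ζ] ∈ D) → (∀ q, δ.mu 0 q = 0) →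
    ∀ ν : S.Y → ℂ, (∀ q, HasDerivAt (fun u => deriv (fun r => δ.mu ![u, r] q) 0) (ν q) 0) →
    α * β * ‖∫ q, ν q * (S.f q * ξp q * ξm q) ∂S.lam‖ ≤ Cst * (‖ξp‖ * ‖ξm‖)

theorem bd_of {E : Type} [NormedAddCommGroup E] [NormedSpace ℂ E] [FiniteDimensional ℂ E]
    {ι : Type} [Finite ι] {B : ι → Type} [∀ i, EMetricSpace (B i)] [∀ i, ChartedSpace E (B i)]
    [∀ i, IsManifold 𝓘(ℂ, E) ω (B i)] [∀ i, IsManifold 𝓘(ℝ, E) ∞ (B i)]
    [∀ i, SimplyConnectedSpace (B i)] {n : ℕ} {a : Fin n → ℕ} (k : ∀ i, KData E (B i))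
    (d : ∀ i, DData (k i)) (C : ∀ i, Family E (B i) a)
    (hC : ∀ (m : ℕ) (S : TopologicalSpace.Opens (Fin m → ℂ)), SimplyConnectedSpace S →
      ∀ D : Family (Fin m → ℂ) S a, ∃ i, D.IsPullback (C i)) : ∃ Cst, 0 ≤ Cst ∧ Bd a Cst := by
  choose Cst h0 h using fun i => mid2 (k i) (d i) (C i)
  have := Fintype.ofFinite ι
  refine ⟨∑ i, Cst i, Finset.sum_nonneg fun i _ => h0 i, ?_⟩
  intro S ξp ξm hp hm fv D hD δ α β α0 β0 hdisc h1 ν hν
  obtain ⟨C', M, hM, hMe⟩ := δ.build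
  obtain ⟨i, hi⟩ := hC 2 D hD C'
  exact (h i S ξp ξm hp hm fv D hD δ C' M hM hMe hi α β α0 β0 hdisc h1 ν hν).trans
    (mul_le_mul_of_nonneg_right (Finset.single_le_sum (fun j _ => h0 j) (Finset.mem_univ i))
      (by positivity))

theorem exists_H (hHy : SHy) {a b : ℕ} (d : PD a b) : ∃ L₀ : ℝ, ∀ L, L₀ ≤ L → Nonempty (d.H L) := by
  obtain ⟨η, M, h0, h1, -, -, h2⟩ := d.eta
  refine ⟨1 / η, fun L hL => ?_⟩
  have h3 := dl_pos L
  have h4 : dl L ≤ η := by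
    have h5 := Real.add_one_le_exp (4 * L)
    have h6 : dl L * Real.exp (4 * L) = 1 := by rw [dl, ← Real.exp_add]; simp
    rw [div_le_iff₀ h0] at hL
    by_contra hc
    have h7 : η * Real.exp (4 * L) < 1 := h6 ▸ mul_lt_mul_of_pos_right (not_le.1 hc) (Real.exp_pos _)
    nlinarith
  have h5 : ((dl L : ℝ) : ℂ) ≠ 0 := ofReal_ne_zero.2 h3.ne'
  have h6 := d.two_le
  have h7 : (d.U ^ 2 * d.A - C ((dl L : ℝ) : ℂ)).natDegree = 2 * b + a := by
    rw [natDegree_sub_C, natDegree_mul (pow_ne_zero _ d.U_ne) d.A_ne, natDegree_pow, d.degA, d.degU]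
  refine hHy _ _ _ ?_ (by omega) ?_ (fun z hz => ?_) (fun x y hx => ?_) fun x y hx hy => ?_
  · rw [PD.P, natDegree_mul d.A_ne (fun h => by rw [h, natDegree_zero] at h7; omega), h7, d.degA]
    ring
  · rw [d.P_eval, PD.p, d.A0, d.U0]
    have : (1 * (1 ^ 2 * 1 - dl L) : ℝ) ≠ 0 := by linarith
    exact_mod_cast this
  · have e : (derivative (d.P (dl L))).eval z = (derivative d.A).eval z * (d.p z - dl L) +
        d.A.eval z * (d.U.eval z ^ 2 * d.ell z) := by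
      refine ((d.P (dl L)).hasDerivAt z).unique ?_
      simp only [d.P_eval]
      exact (d.A.hasDerivAt z).fun_mul ((d.p_deriv z).sub_const _)
    rw [e]
    rw [d.P_eval] at hz
    rcases mul_eq_zero.1 hz with h | h
    · rw [PD.p, h]
      simpa using ⟨d.sep z h, h3.ne'⟩
    · have h8 : d.p z = dl L := sub_eq_zero.1 h
      obtain ⟨a1, a2, -⟩ := d.p_ne (h8 ▸ h5)
      have h9 := h2 z (by rw [h8, norm_real, Real.norm_of_nonneg h3.le]; exact h4)
      rw [h, mul_zero, zero_add]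
      exact mul_ne_zero a2 (mul_ne_zero (pow_ne_zero _ a1) (norm_pos_iff.1 (h0.trans_le h9)))
  · have a1 : Differentiable ℂ d.p := fun z => (d.p_deriv z).differentiableAt
    have a2 := d.U.differentiable
    unfold PD.ff
    fun_prop (disch := exact hx)
  · intro h
    rw [PD.ff, div_eq_zero_iff, or_iff_left hx] at h
    rw [d.P_eval] at hy
    refine pow_ne_zero 2 h5 ?_
    rw [PD.p] at h hy
    linear_combination (2 * (d.U.eval x ^ 2 * d.A.eval x) - 2 * d.U.eval x * y - dl L) * h +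
      4 * d.U.eval x ^ 2 * hy

theorem core2 (hPD : SPD) (hHy : SHy) (hXi : SXi) (hKd : SKd) (hNu : SNu) (hPo : SPo) (hE0 : SE0)
    (hE1 : SE1) (hLo : SLo) {a b : ℕ} (ha : 2 ≤ a) (hab : a ≤ b) {Cst : ℝ} (hCst : 0 ≤ Cst)
    (hmid : Bd ![a, a, b, b] Cst) : False := by
  obtain ⟨d⟩ := hPD a b ha hab
  obtain ⟨L₀, hH⟩ := exists_H hHy d
  obtain ⟨H₀, L₄, hxi⟩ := hXi a b d
  obtain ⟨c, ε₁, L₁, c0, c1, e1, l1, hpos⟩ := hPo a b d
  obtain ⟨ε₂, L₂, e2, hend⟩ := hE0 a b d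
  obtain ⟨I₀, L₃, i0, hnu⟩ := hLo a b d
  obtain ⟨ε, e0, ee1, ee2⟩ : ∃ ε : ℝ, 0 < ε ∧ ε ≤ ε₁ ∧ ε ≤ ε₂ :=
    ⟨min ε₁ ε₂, lt_min e1 e2, min_le_left _ _, min_le_right _ _⟩
  obtain ⟨L, hL0, hL1, hL2, hL3, hL5, hL4⟩ : ∃ L : ℝ, L₀ ≤ L ∧ L₁ ≤ L ∧ L₂ ≤ L ∧ L₃ ≤ L ∧ L₄ ≤ L ∧
      (Cst * H₀ + 1) / (c * ε * I₀) ≤ L :=
    ⟨max (max L₀ L₄) (max (max L₁ L₂) (max L₃ ((Cst * H₀ + 1) / (c * ε * I₀)))), by simp, by simp,
      by simp, by simp, by simp, by simp⟩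
  have hL : 1 ≤ L := l1.trans hL1
  obtain ⟨H⟩ := hH L hL0
  obtain ⟨ξp, ξm, hp, hm, hn, hfv, hprod⟩ := hxi L hL5 H
  obtain ⟨hsm, hd⟩ := hKd a b d L hL H
  have hE : ∀ i : Fin 4, EndAt d ε₂ L H i (![a, a, b, b] i - 1) := fun i => by
    fin_cases i
    · exact hend L hL2 H _ (by simp)
    · exact hend L hL2 H _ (by simp)
    · exact hE1 a b d ε₂ L hL H _ (by simp)
    · exact hE1 a b d ε₂ L hL H _ (by simp)
  choose ρ Φ ρ0 ρ1 Φ1 Φ2 Φ3 using hE
  obtain ⟨j, hj⟩ := Finite.exists_min ρ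
  have cL : 0 < c * L := by positivity
  let δ : H.S.Defo ![a, a, b, b] (DD c ε L) :=
    { g₀ := fun q => H.x q ^ (a - 1)
      g₁ := fun q => H.x q ^ (a - 2)
      hol₀ := H.x_hol.pow (n := a - 1)
      hol₁ := H.x_hol.pow (n := a - 2)
      K := fun t q => d.KK L (t 0) (t 1) (H.x q) (H.y q)
      smooth := hsm
      holK := fun q => by
        unfold PD.KK PD.ex
        fun_prop
      pos := fun t ht q => by
        rw [(hd _ _ q).1, (hd _ _ q).2]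
        exact hpos L hL1 _ _ _ _ (H.eqn q) (H.x_ne q) ht.1 (ht.2.trans_le (by gcongr))
      r := ρ j
      r_pos := ρ0 j
      r_le := ρ1 j
      Φ := Φ
      holΦ := fun i => (Φ1 i).mono (prod_mono (ball_subset_ball (hj i)) (subset_univ _))
      endK := fun i t _ q hq => by
        have h := Φ2 i t q ⟨hq.1, hq.2.trans_le (hj i)⟩
        rw [(hd _ _ q).1, (hd _ _ q).2, h.1, zero_mul]
        exact ⟨rfl, h.2⟩
      ord := fun i t ht => Φ3 i t ⟨ht.1.trans_le (by gcongr),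
        ht.2.trans_le (by gcongr)⟩ }
  have hmu : ∀ t q, δ.mu t q = d.muX L (t 0) (t 1) (H.x q) (H.y q) := fun t q => by
    change d2 (fun q => d.KK L (t 0) (t 1) (H.x q) (H.y q)) q /
      (H.x q ^ (a - 1) + t 1 * H.x q ^ (a - 2) +
        d1 (fun q => d.KK L (t 0) (t 1) (H.x q) (H.y q)) q) = _
    rw [(hd _ _ q).1, (hd _ _ q).2, PD.muX]
  choose ν hν1 hν2 using fun q => hNu a b d L hL (H.x q) (H.y q) (H.x_ne q)
  have key := hmid H.S ξp ξm hp hm hfv _ (DD_simply cL e0) δ (c * L) ε cL e0 (fun ζ hζ => by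
      rw [mem_ball_zero_iff] at hζ
      refine ⟨⟨?_, ?_⟩, ?_, ?_⟩
      · change ‖((c * L : ℝ) : ℂ) * ζ‖ < c * L
        rw [norm_mul, Complex.norm_real, Real.norm_of_nonneg cL.le]
        exact mul_lt_of_lt_one_right cL hζ
      · change ‖(0 : ℂ)‖ < _
        rw [norm_zero]
        positivity
      · change ‖(0 : ℂ)‖ < _
        rwa [norm_zero]
      · change ‖(ε : ℂ) * ζ‖ < ε * Real.exp (-‖(0 : ℂ)‖ / 2)
        rw [norm_mul, Complex.norm_real, Real.norm_of_nonneg e0.le]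
        simpa using mul_lt_of_lt_one_right e0 hζ)
    (fun q => by simp [hmu, PD.muX, PD.K2]) ν (fun q => by
      simp only [hmu]
      exact hν1 q)
  have e : ∫ q, ν q * (H.S.f q * ξp q * ξm q) ∂H.S.lam = ∫ q, d.nuX L (H.x q) (H.y q) ∂H.S.lam :=
    integral_congr_ae (hprod.mono fun q hq => by
      change ν q * _ = d.nuX L _ _
      rw [hq, hν2])
  rw [e] at key
  have h1 := hnu L hL3 H
  have h2 : Cst * (‖ξp‖ * ‖ξm‖) ≤ Cst * H₀ := mul_le_mul_of_nonneg_left hn hCst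
  have h3 : c * L * ε * I₀ ≤ c * L * ε * ‖∫ q, d.nuX L (H.x q) (H.y q) ∂H.S.lam‖ :=
    mul_le_mul_of_nonneg_left h1 (by positivity)
  rw [div_le_iff₀ (by positivity)] at hL4
  nlinarith

end Pool.Agent.MP_e62289_ag.Un

end

section

open Set Filter Topology Complex MeasureTheory Metric Polynomial
open scoped Manifold ContDiff ComplexConjugate NNReal ENNReal

namespace Pool.Agent.MP_e62289_ag.Un

theorem norm_E0 {P : ℂ[X]} {G : ℕ} {F : ℂ → ℂ → ℂ} (H : Hy P G F) {z : ℂ}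
    (hz : z ∈ ball (0 : ℂ) 1) : ‖(H.r : ℂ) * z‖ ≤ 1 / 8 := by
  rw [norm_mul, norm_real, Real.norm_of_nonneg H.r_pos.le]
  nlinarith [mem_ball_zero_iff.1 hz, H.r_pos, H.r_le]

theorem sq_E0 {P : ℂ[X]} {G : ℕ} {F : ℂ → ℂ → ℂ} (H : Hy P G F) {i : Fin 4} (hi : i.val < 2) {z : ℂ}
    (hz : z ∈ ball (0 : ℂ) 1) : H.Yb i z ^ 2 = P.eval (H.r * z) := by
  have key : ∀ z ∈ ball (0 : ℂ) 1, z ≠ 0 → H.Yb i z ^ 2 = P.eval (H.r * z) := by
    intro z hz h0
    have h1 : z ∈ (H.S.e i).target := by rw [H.S.e_target]; exact ⟨hz, h0⟩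
    have h2 := H.fin i hi _ ((H.S.e i).map_target h1)
    rw [(H.S.e i).right_inv h1] at h2
    rw [← h2.1, ← h2.2, H.eqn]
  by_cases h0 : z = 0
  swap
  · exact key z hz h0
  subst h0
  have c1 : ContinuousAt (fun z => H.Yb i z ^ 2) 0 :=
    ((H.Yb_hol i).continuousOn.continuousAt (ball_mem_nhds _ one_pos)).pow 2
  have c2 : ContinuousAt (fun z : ℂ => P.eval (H.r * z)) 0 :=
    (P.continuous.comp (continuous_const.mul continuous_id)).continuousAt
  refine tendsto_nhds_unique (l := 𝓝[≠] 0) (c1.tendsto.mono_left nhdsWithin_le_nhds)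
    ((c2.tendsto.mono_left nhdsWithin_le_nhds).congr' ?_)
  filter_upwards [self_mem_nhdsWithin, mem_nhdsWithin_of_mem_nhds (ball_mem_nhds (0 : ℂ) one_pos)]
    with w h1 h2 using (key w h2 h1).symm

variable {a b : ℕ} (d : PD a b) {L : ℝ}

theorem D_E0 (x : ℂ) : HasDerivAt d.D (deriv d.D x) x :=
  (d.U.differentiableAt.mul d.A.differentiableAt).hasDerivAt

theorem Dne_E0 {x : ℂ} (h : ‖x‖ ≤ 1 / 8) : d.D x ≠ 0 :=
  (d.p_ne (norm_pos_iff.1 (lt_of_lt_of_le (by norm_num) (d.p_low (by linarith))))).2.2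

theorem near_E0 (hL : 1 ≤ L) {x : ℂ} (h : ‖x‖ ≤ 1 / 8) (u t y : ℂ) :
    d.K2 L u t x y = 0 ∧ d.K1 L u t x y = d.sg x y *
      ((exp (u * d.sg x y / 2) - 1) * x ^ (a - 1) / d.D x - t / y0 L * x ^ (a - 2)) := by
  have hB := cB_one (d.lg_one hL (x := x) (by linarith [d.p_low (x := x) (by linarith)])).le
  have hZ := x7_cZ_one (t := ‖x‖ ^ 2) (by nlinarith [norm_nonneg x])
  rw [PD.K1, PD.K2, PD.ex, hB.1, hB.2, hZ.1, hZ.2]
  simp

theorem sg_E0 (hL : 1 ≤ L) (H : d.H L) {i : Fin 4} (hi : i.val < 2) {z : ℂ}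
    (hz : z ∈ ball (0 : ℂ) 1) :
    d.sg (H.r * z) (H.Yb i z) = d.sg (H.r * 0) (H.Yb i 0) := by
  have h2 : ∀ z ∈ ball (0 : ℂ) 1, (H.Yb i z / d.D (H.r * z)).re ≠ 0 := fun z hz =>
    (d.sheet (dl_pos L) (sq_E0 H hi hz) (by
      linarith [dl_le hL, d.p_low (x := H.r * z) (by linarith [norm_E0 H hz])])).1
  have cD : Continuous d.D := continuous_iff_continuousAt.2 fun x => (D_E0 d x).continuousAt
  have h3 : ContinuousOn (fun z => (H.Yb i z / d.D (H.r * z)).re) (ball 0 1) :=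
    continuous_re.comp_continuousOn ((H.Yb_hol i).continuousOn.div (by fun_prop)
      fun z hz => Dne_E0 d (norm_E0 H hz))
  have h4 : ∀ z ∈ ball (0 : ℂ) 1, ∀ w ∈ ball (0 : ℂ) 1,
      0 < (H.Yb i z / d.D (H.r * z)).re → 0 < (H.Yb i w / d.D (H.r * w)).re := by
    intro z hz w hw h
    by_contra h'
    obtain ⟨v, hv, e⟩ := (convex_ball (0 : ℂ) 1).isPreconnected.intermediate_value hw hz h3
      ⟨not_lt.1 h', h.le⟩
    exact h2 v hv e
  exact if_congr ⟨h4 _ hz _ (mem_ball_self one_pos), h4 _ (mem_ball_self one_pos) _ hz⟩ rfl rfl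

theorem D0_E0 : d.D 0 = 1 := by rw [PD.D, d.U0, d.A0, one_mul]

theorem j_E0 {y : ℂ} {j : ℝ} (hj : 0 < j) (h : y ^ 2 = j ^ 2) : y = d.sg 0 y * j := by
  rw [PD.sg, D0_E0]
  rcases sq_eq_sq_iff_eq_or_eq_neg.1 h with rfl | rfl
  · rw [if_pos (by simpa using hj), one_mul]
  · rw [if_neg (by simpa using hj.le), neg_one_mul]

theorem ne_E0 {y m : ℝ} {E τ : ℂ} (h1 : 9 / 10 ≤ y) (h2 : y ≤ 1) (hm : 0 < m)
    (h3 : 1 - y ^ 2 ≤ m / 4) (h4 : m ≤ ‖E‖) (h5 : ‖τ‖ ≤ m / 4) :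
    2 * (y : ℂ) ^ 3 * (E - 1) + 2 * y ^ 2 - τ ≠ 0 := by
  intro h
  have h6 : ((2 * y ^ 3 : ℝ) : ℂ) * E = τ - ((2 * y ^ 2 * (1 - y) : ℝ) : ℂ) := by
    push_cast; linear_combination h
  have h7 := congrArg norm h6
  have h8 := norm_sub_le τ ((2 * y ^ 2 * (1 - y) : ℝ) : ℂ)
  have h9 : (9 / 10 : ℝ) ^ 3 ≤ y ^ 3 := pow_le_pow_left₀ (by norm_num) h1 3
  have h10 : y ^ 2 ≤ 1 := by nlinarith
  have h11 : y ^ 2 * (1 - y) ≤ 1 - y ^ 2 := by nlinarith
  rw [norm_mul, norm_real, Real.norm_of_nonneg (by positivity)] at h7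
  rw [norm_real, Real.norm_of_nonneg (mul_nonneg (by positivity) (by linarith))] at h8
  nlinarith

theorem sE0 : SE0 := by
  intro a b d
  obtain ⟨B, hB⟩ : ∃ B, B = 2 * ‖deriv d.D 0‖ + ‖(derivative d.A).eval 0‖ + 1 := ⟨_, rfl⟩
  have B0 : 0 < B := by rw [hB]; positivity
  refine ⟨1 / (4 * B), 1, by positivity, fun L hL H i hi => ?_⟩
  have hr : (H.r : ℂ) ≠ 0 := ofReal_ne_zero.2 H.r_pos.ne'
  have b0 := mem_ball_self (x := (0 : ℂ)) one_pos
  have n0 := ball_mem_nhds (0 : ℂ) one_pos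
  have pw : ∀ x : ℂ, x ^ (a - 1) = x ^ (a - 2) * x := fun x => by
    have := d.two_le
    rw [← pow_succ, show a - 2 + 1 = a - 1 by omega]
  obtain ⟨σ, hσ⟩ : ∃ σ, σ = d.sg (H.r * 0) (H.Yb i 0) := ⟨_, rfl⟩
  obtain ⟨s1, s2⟩ : ‖σ‖ = 1 ∧ σ ^ 2 = 1 := hσ ▸ d.sg_norm _ _
  obtain ⟨y1, y2, y3⟩ := y0_sq hL
  have y4 : (y0 L : ℂ) ≠ 0 := ofReal_ne_zero.2 (by linarith)
  have y5 : H.Yb i 0 = σ * y0 L := by
    rw [hσ, mul_zero]
    refine j_E0 d (by linarith) ?_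
    rw [sq_E0 H hi b0, mul_zero, d.P_eval', D0_E0, d.A0, ← ofReal_pow, y1]
    push_cast
    ring
  have hg : DifferentiableOn ℂ (fun z => (H.Yb i z)⁻¹) (ball 0 1) := (H.Yb_hol i).inv (H.Yb_ne i)
  have hk := (differentiableOn_dslope n0).2 hg
  have hD : DifferentiableOn ℂ (fun z => (d.D (H.r * z))⁻¹) (ball 0 1) :=
    DifferentiableOn.inv (fun z _ => ((D_E0 d _).differentiableAt.comp z
      (by fun_prop)).differentiableWithinAt) fun z hz => Dne_E0 d (norm_E0 H hz)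
  have lift : ∀ {f : ℂ → ℂ}, DifferentiableOn ℂ f (ball 0 1) →
      DifferentiableOn ℂ (fun p : ℂ × P2 => f p.1) (ball 0 1 ×ˢ univ) := fun hf =>
    hf.comp differentiableOn_fst fun _ h => h.1
  have hΨ : DifferentiableOn ℂ (fun p : ℂ × P2 => (H.r : ℂ) ^ (a - 1) * (H.r * ((H.Yb i p.1)⁻¹ +
      σ * (exp (p.2 0 * σ / 2) - 1) * (d.D (H.r * p.1))⁻¹) +
      p.2 1 * dslope (fun z => (H.Yb i z)⁻¹) 0 p.1)) (ball 0 1 ×ˢ univ) :=
    ((((lift hg).add (DifferentiableOn.mul (by fun_prop) (lift hD))).const_mul _).add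
      (DifferentiableOn.mul (by fun_prop) (lift hk))).const_mul _
  have hΦ := (differentiableOn_fst.pow (a - 1)).mul hΨ
  refine ⟨1, _, one_pos, le_rfl, hΦ, fun t q hq => ?_, fun t ht => ?_⟩
  · have b1 : H.S.e i q ∈ ball (0 : ℂ) 1 := mem_ball_zero_iff.2 hq.2
    obtain ⟨e1, e2⟩ := H.fin i hi q hq.1
    have e3 := H.d_fin i hi hq.1
    have h2 := near_E0 d hL (norm_E0 H b1) (t 0) (t 1) (H.Yb i (H.S.e i q))
    rw [sg_E0 d hL H hi b1, ← hσ] at h2
    rw [e2] at e3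
    rw [e1, e2, h2.2]
    refine ⟨h2.1, ?_⟩
    have h7 := H.Yb_ne i _ b1
    have h8 := sub_smul_dslope (fun z => (H.Yb i z)⁻¹) 0 (H.S.e i q)
    have h9 : (σ * y0 L)⁻¹ = σ / y0 L := by
      rw [mul_inv, ← div_eq_mul_inv, inv_eq_of_mul_eq_one_right (by rw [← pow_two, s2])]
    rw [sub_zero, smul_eq_mul, y5, h9] at h8
    have h10 := mul_inv_cancel₀ h7
    simp only [Pi.mul_apply, Pi.pow_apply, pw, mul_pow, div_eq_mul_inv] at h8 ⊢
    generalize dslope (fun z => (H.Yb i z)⁻¹) 0 (H.S.e i q) = k at h8 ⊢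
    generalize (d.D (H.r * H.S.e i q))⁻¹ = w
    generalize (H.Yb i (H.S.e i q))⁻¹ = v at h8 h10 ⊢
    generalize exp (t 0 * σ * 2⁻¹) = E
    rw [e3] at h10 ⊢
    generalize d1 (H.S.e i) q = e at h10 ⊢
    generalize H.S.e i q = z at h8 ⊢
    linear_combination (-((H.r : ℂ) ^ (a - 2) * z ^ (a - 2) * t 1 * H.r * e)) * h8 -
      ((H.r : ℂ) ^ (a - 2) * z ^ (a - 2) * (H.r * z + t 1)) * h10
  · obtain ⟨t1, t2⟩ : ‖t 0‖ < 1 * L ∧ ‖t 1‖ < 1 / (4 * B) * Real.exp (-‖t 0‖ / 2) := ht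
    refine (X8_an hΦ t).analyticOrderAt_eq_natCast.2 ⟨_, X8_an hΨ t, ?_,
      Eventually.of_forall fun z => by simp⟩
    have hY := ((H.Yb_hol i).differentiableAt n0).hasDerivAt
    have y6 := H.Yb_ne i 0 b0
    have hx : HasDerivAt (fun z : ℂ => H.r * z) H.r 0 := by
      simpa using (hasDerivAt_id (0 : ℂ)).const_mul (H.r : ℂ)
    have d2 := (((D_E0 d (H.r * 0)).comp 0 hx).fun_pow 2).fun_sub
      (((d.A.hasDerivAt (H.r * 0)).comp 0 hx).const_mul (dl L : ℂ))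
    have d3 := (hY.fun_pow 2).unique (d2.congr_of_eventuallyEq
      (mem_of_superset n0 fun z hz => (sq_E0 H hi hz).trans (d.P_eval' _ _)))
    have h4 : Real.exp (-2 * L) ≤ Real.exp (-‖t 0‖ / 2) := Real.exp_le_exp.2 (by linarith)
    have h5 : Real.exp (-‖t 0‖ / 2) ≤ ‖exp (t 0 * σ / 2)‖ := by
      rw [norm_exp, Real.exp_le_exp]
      have := (abs_le.1 (abs_re_le_norm (t 0 * σ / 2))).1
      rw [norm_div, norm_mul, s1, mul_one, norm_ofNat] at this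
      linarith
    have h6 : dl L = Real.exp (-2 * L) ^ 2 := by
      rw [dl, ← Real.exp_nat_mul]; congr 1; push_cast; ring
    have h7 := dl_le hL
    have h8 := Real.exp_pos (-2 * L)
    have h9 : Real.exp (-2 * L) ≤ 1 / 4 := by nlinarith
    have h10 : ‖2 * deriv d.D 0 - dl L * (derivative d.A).eval 0‖ ≤ B := by
      refine (norm_sub_le _ _).trans ?_
      rw [norm_mul, norm_mul, norm_ofNat, norm_real, Real.norm_of_nonneg (dl_pos L).le, hB]
      nlinarith [norm_nonneg ((derivative d.A).eval 0)]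
    have h11 := ne_E0 (τ := t 1 * (2 * deriv d.D 0 - dl L * (derivative d.A).eval 0)) y2 y3
      (Real.exp_pos (-‖t 0‖ / 2)) (by nlinarith) h5 (by
        rw [norm_mul]
        refine (mul_le_mul t2.le h10 (norm_nonneg _) (by positivity)).trans (le_of_eq ?_)
        field_simp)
    refine mul_ne_zero (pow_ne_zero _ hr) fun h => h11 ?_
    dsimp only at h
    rw [dslope_same, (hY.fun_inv y6).deriv, mul_zero, D0_E0] at h
    simp only [Function.comp_apply, mul_zero, D0_E0] at d3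
    push_cast at d3
    have s0 : σ ≠ 0 := fun h => by simp [h] at s1
    rw [y5] at h d3
    generalize exp (t 0 * σ / 2) = E at h ⊢
    field_simp at h
    apply mul_left_cancel₀ hr
    linear_combination 2 * σ * y0 L * h + t 1 * d3 -
      (2 * H.r * (y0 L : ℂ) ^ 2 + 2 * H.r * (y0 L : ℂ) ^ 3 * (E - 1) * (σ ^ 2 + 1)) * s2

end Pool.Agent.MP_e62289_ag.Un

end
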