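import Pool.Agent.Mg.Fe62289.G5202e2

set_option linter.all false

section

open Set Filter Topology Complex MeasureTheory Metric Polynomial
open scoped Manifold ContDiff ComplexConjugate NNReal ENNReal

namespace Pool.Agent.MP_e62289_ag.Un

/-- polynomial data: `d (-1 / (c U)) = t ^ (a - 1) dt / (U A)` and
`d (R / t ^ (a - 1)) = U dt / t ^ a` -/
structure PD (a b : ℕ) where
  A : ℂ[X]
  U : ℂ[X]
  R : ℂ[X]
  c : ℂ
  two_le : 2 ≤ a
  le : a ≤ b
  c_ne : c ≠ 0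
  degA : A.natDegree = a
  degU : U.natDegree = b
  degR : R.natDegree ≤ b
  key : ∀ z, (derivative U).eval z * A.eval z = c * z ^ (a - 1) * U.eval z
  hR : ∀ z, z * (derivative R).eval z - ((a - 1 : ℕ) : ℂ) * R.eval z = U.eval z
  sep : ∀ z, A.eval z = 0 → (derivative A).eval z ≠ 0
  root : ∀ z, U.eval z = 0 ↔ A.eval z = 0
  ell_ne : ∀ z, A.eval z = 0 → 2 * c * z ^ (a - 1) + (derivative A).eval z ≠ 0
  A0 : A.eval 0 = 1
  U0 : U.eval 0 = 1
  near : ∀ z : ℂ, ‖z‖ ≤ 1 → ‖A.eval z - 1‖ ≤ 1 / 10 ∧ ‖U.eval z - 1‖ ≤ 1 / 10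

/-- the affine curve `y ^ 2 = P x` without the points over `0` -/
abbrev Cw (P : ℂ[X]) : Type := {p : ℂ × ℂ // p.2 ^ 2 = P.eval p.1 ∧ p.1 ≠ 0}

/-- `φ` is a local primitive of `dx / y` -/
def IsFl {P : ℂ[X]} (φ : OpenPartialHomeomorph (Cw P) ℂ) : Prop :=
  ∀ z ∈ φ.target, HasDerivAt (fun z => (φ.symm z).1.1) (φ.symm z).1.2 z ∧
    HasDerivAt (fun z => (φ.symm z).1.2) ((derivative P).eval (φ.symm z).1.1 / 2) z

/-- The curve `y ^ 2 = P x`, `P` of degree `2 G`, without the points over `0, ∞`, with the flat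
structure of `dx / y` and the twist `F`. The ends `0, 1` lie over `0`, the ends `2, 3` over `∞`. -/
structure Hy (P : ℂ[X]) (G : ℕ) (F : ℂ → ℂ → ℂ) where
  S : Flat 4
  x : S.Y → ℂ
  y : S.Y → ℂ
  x_hol : Hol x
  y_hol : Hol y
  d1x : ∀ q, d1 x q = y q
  eqn : ∀ q, y q ^ 2 = P.eval (x q)
  x_ne : ∀ q, x q ≠ 0
  inj : Function.Injective fun q => (x q, y q)
  surj : ∀ X Y : ℂ, Y ^ 2 = P.eval X → X ≠ 0 → ∃ q, x q = X ∧ y q = Y
  f_eq : ∀ q, S.f q = F (x q) (y q)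
  r : ℝ
  r_pos : 0 < r
  r_le : r ≤ 1 / 8
  Yb : Fin 4 → ℂ → ℂ
  Yb_hol : ∀ i, DifferentiableOn ℂ (Yb i) (ball 0 1)
  Yb_ne : ∀ i, ∀ z ∈ ball (0 : ℂ) 1, Yb i z ≠ 0
  fin : ∀ i : Fin 4, i.val < 2 → ∀ q ∈ (S.e i).source,
    x q = r * S.e i q ∧ y q = Yb i (S.e i q)
  inf : ∀ i : Fin 4, 2 ≤ i.val → ∀ q ∈ (S.e i).source,
    x q * (r * S.e i q) = 1 ∧ y q * S.e i q ^ G = Yb i (S.e i q)

/-- cutoff in the long annuli -/
noncomputable def cB (t : ℝ) : ℝ := Real.smoothTransition (t + 2)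

/-- the size of the perturbation -/
noncomputable def dl (L : ℝ) : ℝ := Real.exp (-4 * L)

/-- the value of `y` over `0` -/
noncomputable def y0 (L : ℝ) : ℝ := √(1 - dl L)

namespace PD

variable {a b : ℕ} (d : PD a b)

/-- `U A` -/
noncomputable def D (z : ℂ) : ℂ := d.U.eval z * d.A.eval z

/-- `U ^ 2 A` -/
noncomputable def p (z : ℂ) : ℂ := d.U.eval z ^ 2 * d.A.eval z

/-- `p' / U ^ 2` -/
noncomputable def ell (z : ℂ) : ℂ := 2 * d.c * z ^ (a - 1) + (derivative d.A).eval z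

/-- the polynomial of the curve -/
noncomputable def P (δ : ℝ) : ℂ[X] := d.A * (d.U ^ 2 * d.A - C (δ : ℂ))

/-- the twist -/
noncomputable def ff (δ : ℝ) (x y : ℂ) : ℂ := (2 * d.p x + 2 * d.U.eval x * y - δ) / x

/-- the curve at scale `L` -/
abbrev H (L : ℝ) : Type 1 := Hy (d.P (dl L)) (a + b) (d.ff (dl L))

/-- the sheet -/
noncomputable def sg (x y : ℂ) : ℂ := if 0 < (y / d.D x).re then 1 else -1

/-- the argument of the cutoff -/
noncomputable def lg (L : ℝ) (x : ℂ) : ℝ := Real.log ‖d.p x‖ / L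

/-- the scaling factor -/
noncomputable def ex (L : ℝ) (u x y : ℂ) : ℂ := exp (u * d.sg x y * cB (d.lg L x) / 2)

/-- the potential of the deformation -/
noncomputable def KK (L : ℝ) (u r x y : ℂ) : ℂ :=
  d.sg x y * ((d.ex L u x y - 1) * (-1 / (d.c * d.U.eval x)) -
    r / y0 L * (x ^ (a - 1) * cZ (‖x‖ ^ 2) / ((a - 1 : ℕ) : ℂ)))

/-- `∂ K / ∂ x` -/
noncomputable def K1 (L : ℝ) (u r x y : ℂ) : ℂ :=
  d.sg x y * ((d.ex L u x y - 1) * x ^ (a - 1) / d.D x -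
    d.ex L u x y * (u * d.sg x y * deriv cB (d.lg L x) * d.ell x / (4 * L * d.A.eval x)) /
      (d.c * d.U.eval x) -
    r / y0 L * (x ^ (a - 2) *
      (cZ (‖x‖ ^ 2) + (‖x‖ ^ 2 : ℝ) * deriv cZ (‖x‖ ^ 2) / ((a - 1 : ℕ) : ℂ))))

/-- `∂ K / ∂ xbar` -/
noncomputable def K2 (L : ℝ) (u r x y : ℂ) : ℂ :=
  d.sg x y * (-(d.ex L u x y *
      (u * d.sg x y * deriv cB (d.lg L x) * conj (d.ell x) / (4 * L * conj (d.A.eval x))) /
      (d.c * d.U.eval x)) -
    r / y0 L * (x ^ a * deriv cZ (‖x‖ ^ 2) / ((a - 1 : ℕ) : ℂ)))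

/-- the explicit Beltrami coefficient -/
noncomputable def muX (L : ℝ) (u r x y : ℂ) : ℂ :=
  d.K2 L u r x y * conj y / (x ^ (a - 1) + r * x ^ (a - 2) + d.K1 L u r x y * y)

/-- its mixed second derivative at the origin, multiplied by `U y / x` -/
noncomputable def nuX (L : ℝ) (x y : ℂ) : ℂ :=
  (‖y‖ ^ 2 : ℝ) *
    (deriv cB (d.lg L x) * conj (d.ell x) / (4 * L * d.c * conj (d.A.eval x) * x ^ (a + 1)) +
      deriv cZ (‖x‖ ^ 2) * (d.sg x y * y / d.D x) * d.U.eval x / (2 * y0 L * ((a - 1 : ℕ) : ℂ)))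

end PD

end Pool.Agent.MP_e62289_ag.Un

end

section

open Set Filter Topology Complex MeasureTheory Metric Polynomial
open scoped Manifold ContDiff ComplexConjugate NNReal ENNReal

namespace Pool.Agent.MP_e62289_ag.Un

theorem cB_one {t : ℝ} (h : -1 ≤ t) : cB t = 1 ∧ deriv cB t = 0 :=
  x7_top (f := fun t : ℝ => t + 2) (by linarith)

theorem cB_zero {t : ℝ} (h : t ≤ -2) : cB t = 0 ∧ deriv cB t = 0 :=
  x7_bot (f := fun t : ℝ => t + 2) (by linarith)

theorem cB_smooth {k : ℕ∞} : ContDiff ℝ k cB :=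
  Real.smoothTransition.contDiff.comp (f := fun t : ℝ => t + 2) (by fun_prop)

theorem cB_mem (t : ℝ) : 0 ≤ cB t ∧ cB t ≤ 1 :=
  ⟨Real.smoothTransition.nonneg _, Real.smoothTransition.le_one _⟩

theorem cB_d : ∃ C, 0 ≤ C ∧ ∀ t, |deriv cB t| ≤ C := by
  refine x7_bdd (a := -2) (b := -1) cB_smooth fun t ht => ?_
  rcases le_total t (-2) with h | h
  · exact (cB_zero h).2
  · refine (cB_one ?_).2
    by_contra h'
    exact ht ⟨h, (not_le.1 h').le⟩

theorem dl_pos (L : ℝ) : 0 < dl L := Real.exp_pos _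

theorem dl_le {L : ℝ} (hL : 1 ≤ L) : dl L ≤ 1 / 16 := X8_s hL

theorem y0_sq {L : ℝ} (hL : 1 ≤ L) : y0 L ^ 2 = 1 - dl L ∧ 9 / 10 ≤ y0 L ∧ y0 L ≤ 1 := by
  have h1 := dl_pos L
  have h2 := dl_le hL
  refine ⟨Real.sq_sqrt (by linarith), Real.le_sqrt_of_sq_le (by linarith), ?_⟩
  exact Real.sqrt_le_one.2 (by linarith)

namespace PD

variable {a b : ℕ} (d : PD a b)

theorem P_eval (δ : ℝ) (x : ℂ) : (d.P δ).eval x = d.A.eval x * (d.p x - δ) := by
  simp [P, p]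

theorem P_eval' (δ : ℝ) (x : ℂ) : (d.P δ).eval x = d.D x ^ 2 - δ * d.A.eval x := by
  rw [P_eval, p, D]
  ring

theorem p_ne {x : ℂ} (h : d.p x ≠ 0) : d.U.eval x ≠ 0 ∧ d.A.eval x ≠ 0 ∧ d.D x ≠ 0 := by
  have h1 : d.U.eval x ≠ 0 := fun h1 => h (by rw [p, h1]; simp)
  have h2 : d.A.eval x ≠ 0 := fun h2 => h (by rw [p, h2]; simp)
  exact ⟨h1, h2, mul_ne_zero h1 h2⟩

theorem p_zero {x : ℂ} (h : d.p x = 0) : d.U.eval x = 0 ∧ d.A.eval x = 0 ∧ d.D x = 0 := by
  have h1 : d.U.eval x = 0 := by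
    rcases mul_eq_zero.1 h with h | h
    · exact pow_eq_zero_iff two_ne_zero |>.1 h
    · exact (d.root x).2 h
  exact ⟨h1, (d.root x).1 h1, by rw [D, h1, zero_mul]⟩

theorem p_low {x : ℂ} (h : ‖x‖ ≤ 1) : 7 / 10 ≤ ‖d.p x‖ := by
  obtain ⟨h1, h2⟩ := d.near x h
  have h3 := norm_sub_norm_le 1 (d.A.eval x)
  have h4 := norm_sub_norm_le 1 (d.U.eval x)
  rw [norm_one, norm_sub_rev] at h3 h4
  have h5 : (9 / 10 : ℝ) ^ 2 ≤ ‖d.U.eval x‖ ^ 2 := pow_le_pow_left₀ (by norm_num) (by linarith) 2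
  rw [p, norm_mul, norm_pow]
  nlinarith

theorem lg_one {L : ℝ} (hL : 1 ≤ L) {x : ℂ} (h : 1 / 2 ≤ ‖d.p x‖) : -1 < d.lg L x := by
  have h1 := Real.one_sub_inv_le_log_of_pos (show 0 < 2 * ‖d.p x‖ by linarith)
  have h2 : (2 * ‖d.p x‖)⁻¹ ≤ 1 := inv_le_one_of_one_le₀ (by linarith)
  rw [Real.log_mul two_ne_zero (by linarith)] at h1
  have h3 := Real.log_two_lt_d9
  rw [lg, lt_div_iff₀ (by linarith)]
  linarith

theorem sg_norm (x y : ℂ) : ‖d.sg x y‖ = 1 ∧ d.sg x y ^ 2 = 1 := by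
  unfold sg
  split_ifs <;> simp

/-- away from the clusters of branch points the two sheets are separated -/
theorem sheet {δ : ℝ} (h0 : 0 < δ) {x y : ℂ} (h : y ^ 2 = (d.P δ).eval x) (h1 : δ < ‖d.p x‖) :
    (y / d.D x).re ≠ 0 ∧ ‖d.sg x y * y / d.D x - 1‖ ≤ δ / ‖d.p x‖ := by
  have hp : 0 < ‖d.p x‖ := h0.trans h1
  obtain ⟨h2, h3, h4⟩ := d.p_ne (norm_pos_iff.1 hp)
  have hQ : ‖(y / d.D x) ^ 2 - 1‖ = δ / ‖d.p x‖ := by
    have e : (y / d.D x) ^ 2 - 1 = -(δ / d.p x) := by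
      rw [div_pow, h, P_eval', p, D]
      field_simp
      ring
    rw [e, norm_neg, norm_div, norm_real, Real.norm_of_nonneg h0.le]
  constructor
  · intro h5
    have h6 : |((y / d.D x) ^ 2 - 1).re| ≤ ‖(y / d.D x) ^ 2 - 1‖ := Complex.abs_re_le_norm _
    have h7 : ((y / d.D x) ^ 2 - 1).re = -((y / d.D x).im * (y / d.D x).im) - 1 := by
      rw [sub_re, one_re, pow_two (y / d.D x), mul_re, h5]; ring
    have h8 := neg_abs_le ((y / d.D x) ^ 2 - 1).re
    have h9 := (div_lt_one hp).2 h1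
    have h10 := neg_le_abs ((y / d.D x) ^ 2 - 1).re
    nlinarith [mul_self_nonneg (y / d.D x).im]
  · rw [← hQ]
    unfold sg
    split_ifs with h5
    · rw [one_mul]; exact X6a_near h5.le
    · have h6 : (-1 : ℂ) * y / d.D x = -(y / d.D x) := by ring
      rw [h6, ← neg_sq (y / d.D x)]
      exact X6a_near (by rw [neg_re]; linarith [not_lt.mp h5])

theorem p_deriv (x : ℂ) : HasDerivAt d.p (d.U.eval x ^ 2 * d.ell x) x := by
  refine (((d.U.hasDerivAt x).fun_pow 2).fun_mul (d.A.hasDerivAt x)).congr_deriv ?_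
  rw [ell]
  simp only [Nat.cast_ofNat, Nat.add_one_sub_one, pow_one]
  linear_combination 2 * d.U.eval x * d.key x

theorem p_cont : Continuous d.p := continuous_iff_continuousAt.2 fun x => (d.p_deriv x).continuousAt

theorem ell_cont : Continuous d.ell := by
  have := (derivative d.A).continuous
  unfold ell
  fun_prop

theorem A_ne : d.A ≠ 0 := fun h => by simpa [h] using d.A0

theorem U_ne : d.U ≠ 0 := fun h => by simpa [h] using d.U0

/-- uniform bounds near the clusters -/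
theorem eta : ∃ η M : ℝ, 0 < η ∧ η ≤ 1 / 2 ∧ 1 ≤ M ∧
    (∀ x, ‖d.p x‖ ≤ 1 → ‖x‖ ≤ M ∧ ‖d.ell x‖ ≤ M) ∧ ∀ x, ‖d.p x‖ ≤ η → η ≤ ‖d.ell x‖ := by
  have h2 := d.two_le
  have hd : 0 < (d.U ^ 2 * d.A).degree := by
    refine natDegree_pos_iff_degree_pos.1 ?_
    rw [natDegree_mul (pow_ne_zero _ d.U_ne) d.A_ne, d.degA]
    omega
  have ht := (d.U ^ 2 * d.A).tendsto_norm_atTop hd (l := cocompact ℂ) (z := id)
    tendsto_norm_cocompact_atTop
  obtain ⟨K, hK, hK1⟩ := mem_cocompact.1 (ht.eventually (eventually_gt_atTop 1))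
  have hK2 : ∀ x, ‖d.p x‖ ≤ 1 → x ∈ K := fun x hx => by
    by_contra hc
    have := hK1 hc
    simp only [mem_ofPred_eq, id, eval_mul, eval_pow] at this
    exact absurd hx (not_le.2 this)
  obtain ⟨M₁, hM₁⟩ := hK.exists_bound_of_continuousOn (f := id) continuousOn_id
  obtain ⟨M₂, hM₂⟩ := hK.exists_bound_of_continuousOn d.ell_cont.continuousOn
  obtain ⟨η, h3, h4⟩ := hK.exists_forall_le' (f := fun x => max ‖d.p x‖ ‖d.ell x‖) (a := 0)
    (d.p_cont.norm.max d.ell_cont.norm).continuousOn fun x _ => by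
      by_cases h : d.p x = 0
      · exact lt_max_of_lt_right (norm_pos_iff.2 (d.ell_ne x (d.p_zero h).2.1))
      · exact lt_max_of_lt_left (norm_pos_iff.2 h)
  refine ⟨min (η / 2) (1 / 2), max 1 (max M₁ M₂), by positivity, min_le_right _ _, le_max_left _ _,
    fun x hx => ⟨(hM₁ x (hK2 x hx)).trans (by simp), (hM₂ x (hK2 x hx)).trans (by simp)⟩,
    fun x hx => ?_⟩
  have h5 := min_le_left (η / 2) (1 / 2)
  have h6 := min_le_right (η / 2) (1 / 2)
  rcases le_max_iff.1 (h4 x (hK2 x (by linarith))) with h | h <;> linarith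

end PD

namespace Hy

variable {P : ℂ[X]} {G : ℕ} {F : ℂ → ℂ → ℂ} (H : Hy P G F)

theorem e_prop (i : Fin 4) {q : H.S.Y} (hq : q ∈ (H.S.e i).source) :
    RDiffAt (H.S.e i) q ∧ ‖H.S.e i q‖ < 1 ∧ H.S.e i q ≠ 0 := by
  have h := (H.S.e i).map_source hq
  rw [H.S.e_target] at h
  exact ⟨(d2_of_hol ((coord_hol (H.S.e_hol i)).1 q hq).1).1, mem_ball_zero_iff.1 h.1, h.2⟩

theorem d_fin (i : Fin 4) (hi : i.val < 2) {q : H.S.Y} (hq : q ∈ (H.S.e i).source) :
    H.y q = H.r * d1 (H.S.e i) q := by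
  have h : H.x =ᶠ[𝓝 q] fun p => H.r * H.S.e i p :=
    eventually_of_mem ((H.S.e i).open_source.mem_nhds hq) fun p hp => (H.fin i hi p hp).1
  rw [← H.d1x, (d_congr h).1]
  have hg : HasDerivAt (fun z : ℂ => H.r * z) (H.r : ℂ) (H.S.e i q) := by
    simpa using (hasDerivAt_id (H.S.e i q)).const_mul (H.r : ℂ)
  exact (d_hol_comp hg (H.e_prop i hq).1).2.1

theorem d_inf (i : Fin 4) (hi : 2 ≤ i.val) {q : H.S.Y} (hq : q ∈ (H.S.e i).source) :
    d1 (H.S.e i) q = -(H.r * H.y q * H.S.e i q ^ 2) := by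
  have hr : (H.r : ℂ) ≠ 0 := by exact_mod_cast H.r_pos.ne'
  have he := (H.e_prop i hq).2.2
  have h : H.x =ᶠ[𝓝 q] fun p => (H.r * H.S.e i p)⁻¹ :=
    eventually_of_mem ((H.S.e i).open_source.mem_nhds hq) fun p hp =>
      eq_inv_of_mul_eq_one_left (H.inf i hi p hp).1
  have hg : HasDerivAt (fun z : ℂ => (H.r * z)⁻¹) (-(H.r : ℂ) / (H.r * H.S.e i q) ^ 2)
      (H.S.e i q) := by
    have := ((hasDerivAt_id (H.S.e i q)).const_mul (H.r : ℂ)).inv (mul_ne_zero hr he)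
    rw [mul_one] at this
    exact this
  have e := (d_hol_comp hg (H.e_prop i hq).1).2.1
  rw [← (d_congr h).1, H.d1x] at e
  rw [e]
  field_simp

end Hy

end Pool.Agent.MP_e62289_ag.Un

end

section

open Set Filter Topology Complex MeasureTheory Metric Polynomial
open scoped Manifold ContDiff ComplexConjugate NNReal ENNReal

namespace Pool.Agent.MP_e62289_ag.Un

/-- existence of the polynomial data -/
def SPD : Prop := ∀ a b : ℕ, 2 ≤ a → a ≤ b → Nonempty (PD a b)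

/-- flat charts -/
def SFl : Prop := ∀ P : ℂ[X], (∀ z, P.eval z = 0 → (derivative P).eval z ≠ 0) →
  (∀ q : Cw P, ∃ φ : OpenPartialHomeomorph (Cw P) ℂ, q ∈ φ.source ∧ IsFl φ) ∧
  ∀ φ ψ : OpenPartialHomeomorph (Cw P) ℂ, IsFl φ → IsFl ψ → ∀ q ∈ φ.source ∩ ψ.source,
    ∀ᶠ q' in 𝓝 q, φ q' - ψ q' = φ q - ψ q

/-- the four ends -/
def SEn : Prop := ∀ (P : ℂ[X]) (G : ℕ), P.natDegree = 2 * G → P.eval 0 ≠ 0 →
  ∃ (e : Fin 4 → OpenPartialHomeomorph (Cw P) ℂ) (r : ℝ) (Yb : Fin 4 → ℂ → ℂ),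
    0 < r ∧ r ≤ 1 / 8 ∧ (∀ i, (e i).target = ball 0 1 \ {0}) ∧
    (Pairwise fun i j => Disjoint (e i).source (e j).source) ∧
    (∀ i ρ, ρ < 1 → IsClosed {q | q ∈ (e i).source ∧ ‖e i q‖ ≤ ρ}) ∧
    (∀ ρ, 0 < ρ → IsCompact {q | ∀ i, q ∈ (e i).source → ρ ≤ ‖e i q‖}) ∧
    (∀ i, DifferentiableOn ℂ (Yb i) (ball 0 1)) ∧ (∀ i, ∀ z ∈ ball (0 : ℂ) 1, Yb i z ≠ 0) ∧
    (∀ i : Fin 4, i.val < 2 → ∀ q ∈ (e i).source, q.1.1 = r * e i q ∧ q.1.2 = Yb i (e i q)) ∧
    ∀ i : Fin 4, 2 ≤ i.val → ∀ q ∈ (e i).source,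
      q.1.1 * (r * e i q) = 1 ∧ q.1.2 * e i q ^ G = Yb i (e i q)

/-- existence of the flat surface -/
def SHy : Prop := ∀ (P : ℂ[X]) (G : ℕ) (F : ℂ → ℂ → ℂ), P.natDegree = 2 * G → 1 ≤ G →
  P.eval 0 ≠ 0 → (∀ z, P.eval z = 0 → (derivative P).eval z ≠ 0) →
  (∀ x y : ℂ, x ≠ 0 → DifferentiableAt ℂ (fun w : ℂ × ℂ => F w.1 w.2) (x, y)) →
  (∀ x y : ℂ, x ≠ 0 → y ^ 2 = P.eval x → F x y ≠ 0) → Nonempty (Hy P G F)

/-- integration over the curve -/
def SIn : Prop := ∀ (P : ℂ[X]) (G : ℕ) (F : ℂ → ℂ → ℂ) (H : Hy P G F), P ≠ 0 →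
  (∀ (u : H.S.Y → ℂ) (g : ℂ → ℂ) (C : ℝ≥0∞), Hol u → Measurable g →
    (∀ q, H.y q ≠ 0 → ‖H.S.f q‖ * ‖u q‖ ^ 2 = ‖H.y q‖ ^ 2 * ‖g (H.x q)‖) → C ≠ ⊤ →
    ∫⁻ z, ‖g z‖ₑ ≤ C → ∃ ξ : H.S.H, ξ ∈ H.S.hd.W ∧ ‖ξ‖ ≤ ((2 * C) ^ (1 / 2 : ℝ)).toReal ∧
      ∀ᵐ q ∂H.S.lam, ξ q = u q) ∧
  ∀ g : ℂ → ℝ, Measurable g → (∀ z, 0 ≤ g z) → Integrable g →
    Integrable (fun q => ‖H.y q‖ ^ 2 * g (H.x q)) H.S.lam ∧
      ∫ q, ‖H.y q‖ ^ 2 * g (H.x q) ∂H.S.lam = 2 * ∫ z, g z

/-- the first plane integral -/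
def SJ1 : Prop := ∀ (a b : ℕ) (d : PD a b), Integrable fun z : ℂ => 1 / (z * d.A.eval z)

/-- the second plane integral -/
def SJ2 : Prop := ∀ (a b : ℕ) (d : PD a b), ∃ (C : ℝ≥0) (η : ℝ), 0 < η ∧ ∀ δ : ℝ, 0 < δ → δ ≤ η →
  ∫⁻ z : ℂ, ‖d.U.eval z ^ 2 / (z * (d.p z - δ))‖ₑ ≤ C

/-- the two twisted holomorphic forms -/
def SXi : Prop := ∀ (a b : ℕ) (d : PD a b), ∃ H₀ L₀ : ℝ, ∀ L, L₀ ≤ L → ∀ H : d.H L,
  ∃ ξp ξm : H.S.H, ξp ∈ H.S.hd.W ∧ ξm ∈ H.S.hd.W ∧ ‖ξp‖ * ‖ξm‖ ≤ H₀ ∧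
    Nonempty (H.S.FV ![a, a, b, b] ξp ξm) ∧
    ∀ᵐ q ∂H.S.lam, H.S.f q * ξp q * ξm q = d.U.eval (H.x q) * H.y q / H.x q

/-- smoothness and derivatives of the potential -/
def SKd : Prop := ∀ (a b : ℕ) (d : PD a b) (L : ℝ), 1 ≤ L → ∀ H : d.H L,
  (ContMDiff (𝓘(ℝ, P2).prod 𝓘(ℝ, ℂ)) 𝓘(ℝ, ℂ) 2
    fun p : P2 × H.S.Y => d.KK L (p.1 0) (p.1 1) (H.x p.2) (H.y p.2)) ∧
  ∀ (u r : ℂ) (q : H.S.Y),
    d1 (fun q => d.KK L u r (H.x q) (H.y q)) q = d.K1 L u r (H.x q) (H.y q) * H.y q ∧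
    d2 (fun q => d.KK L u r (H.x q) (H.y q)) q = d.K2 L u r (H.x q) (H.y q) * conj (H.y q)

/-- the mixed derivative -/
def SNu : Prop := ∀ (a b : ℕ) (d : PD a b) (L : ℝ), 1 ≤ L → ∀ x y : ℂ, x ≠ 0 →
  ∃ ν : ℂ, HasDerivAt (fun u => deriv (fun r => d.muX L u r x y) 0) ν 0 ∧
    ν * (d.U.eval x * y / x) = d.nuX L x y

/-- the deformed forms define complex structures -/
def SPo : Prop := ∀ (a b : ℕ) (d : PD a b), ∃ c ε L₀ : ℝ, 0 < c ∧ c ≤ 1 ∧ 0 < ε ∧ 1 ≤ L₀ ∧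
  ∀ L, L₀ ≤ L → ∀ x y u r : ℂ, y ^ 2 = (d.P (dl L)).eval x → x ≠ 0 → ‖u‖ < c * L →
    ‖r‖ < ε * Real.exp (-‖u‖ / 2) →
    ‖d.K2 L u r x y * conj y‖ < ‖x ^ (a - 1) + r * x ^ (a - 2) + d.K1 L u r x y * y‖

/-- the deformed form at the end `i` has a zero of order `m` -/
def EndAt {a b : ℕ} (d : PD a b) (ε L : ℝ) (H : d.H L) (i : Fin 4) (m : ℕ) : Prop :=
  ∃ (ρ : ℝ) (Φ : ℂ × P2 → ℂ), 0 < ρ ∧ ρ ≤ 1 ∧ DifferentiableOn ℂ Φ (ball 0 ρ ×ˢ univ) ∧
    (∀ t : P2, ∀ q ∈ H.S.End i ρ, d.K2 L (t 0) (t 1) (H.x q) (H.y q) = 0 ∧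
      H.x q ^ (a - 1) + t 1 * H.x q ^ (a - 2) + d.K1 L (t 0) (t 1) (H.x q) (H.y q) * H.y q =
        Φ (H.S.e i q, t) * d1 (H.S.e i) q) ∧
    ∀ t ∈ DD 1 ε L, analyticOrderAt (fun z => Φ (z, t)) 0 = (m : ℕ∞)

/-- the ends over `0` -/
def SE0 : Prop := ∀ (a b : ℕ) (d : PD a b), ∃ ε L₀ : ℝ, 0 < ε ∧ ∀ L, L₀ ≤ L → ∀ (H : d.H L)
  (i : Fin 4), i.val < 2 → EndAt d ε L H i (a - 1)

/-- the ends over `∞` -/
def SE1 : Prop := ∀ (a b : ℕ) (d : PD a b) (ε L : ℝ), 1 ≤ L → ∀ (H : d.H L) (i : Fin 4),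
  2 ≤ i.val → EndAt d ε L H i (b - 1)

/-- the mixed second variation does not degenerate -/
def SLo : Prop := ∀ (a b : ℕ) (d : PD a b), ∃ I₀ L₀ : ℝ, 0 < I₀ ∧ ∀ L, L₀ ≤ L → ∀ H : d.H L,
  I₀ ≤ ‖∫ q, d.nuX L (H.x q) (H.y q) ∂H.S.lam‖

end Pool.Agent.MP_e62289_ag.Un

end

section

open Set Filter Topology Complex MeasureTheory Metric Polynomial
open scoped Manifold ContDiff ComplexConjugate NNReal ENNReal

namespace Pool.Agent.MP_e62289_ag.Un

theorem exQ_Pd (n m : ℕ) : ∃ (Q : ℂ[X]) (c : ℂ), c ≠ 0 ∧ Q.natDegree = m ∧ Q.eval 0 = 1 ∧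
    (1 + X) * derivative Q + C ((n : ℂ) + 1) * Q = C c * X ^ m := by
  induction m with
  | zero => exact ⟨1, n + 1, Nat.cast_add_one_ne_zero n, by simp, by simp, by simp⟩
  | succ m ih =>
    obtain ⟨Q, c, hc, hd, h0, hI⟩ := ih
    have m0 : (m : ℂ) + 1 ≠ 0 := Nat.cast_add_one_ne_zero m
    obtain ⟨q, hq⟩ : ∃ q : ℂ, q * (m + 1) = -c := ⟨-c / (m + 1), div_mul_cancel₀ _ m0⟩
    have q0 : q ≠ 0 := fun h => hc (by simpa [h] using hq)
    have e0 : (m : ℂ) + 1 + (n + 1) ≠ 0 := by exact_mod_cast (by omega : m + 1 + (n + 1) ≠ 0)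
    refine ⟨Q + C q * X ^ (m + 1), q * (m + 1 + (n + 1)), mul_ne_zero q0 e0, ?_, by simp [h0], ?_⟩
    · rw [natDegree_add_eq_right_of_natDegree_lt, natDegree_C_mul_X_pow _ _ q0]
      rw [natDegree_C_mul_X_pow _ _ q0, hd]
      exact Nat.lt_succ_self m
    · have e : C q * (C (m : ℂ) + 1) = -C c := by rw [← C_1, ← C_add, ← C_mul, hq, C_neg]
      rw [derivative_add, derivative_C_mul, derivative_X_pow_succ]
      simp only [C_mul, C_add, C_1] at hI ⊢
      linear_combination hI + X ^ m * e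

theorem exR_Pd (U : ℂ[X]) (m : ℕ) (h : U.coeff m = 0) : ∃ R : ℂ[X], R.natDegree ≤ U.natDegree ∧
    X * derivative R - C (m : ℂ) * R = U := by
  obtain ⟨R, hR⟩ : ∃ R : ℂ[X], ∀ j, R.coeff j = U.coeff j / ((j : ℂ) - m) := by
    refine ⟨∑ i ∈ U.support, monomial i (U.coeff i / ((i : ℂ) - m)), fun j => ?_⟩
    simp only [finsetSum_coeff, coeff_monomial, Finset.sum_ite_eq', mem_support_iff]
    split_ifs with e
    · rfl
    · rw [not_not.1 e, zero_div]
  refine ⟨R, natDegree_le_iff_coeff_eq_zero.2 fun j hj => by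
    rw [hR, coeff_eq_zero_of_natDegree_lt hj, zero_div], ?_⟩
  ext j
  have e : (X * derivative R).coeff j = j * R.coeff j := by
    rcases j with _ | j
    · simp
    · rw [coeff_X_mul, coeff_derivative]
      push_cast
      ring
  rw [coeff_sub, e, coeff_C_mul, ← sub_mul, hR]
  by_cases hj : j = m
  · rw [hj, h, sub_self, zero_mul]
  · exact mul_div_cancel₀ _ (sub_ne_zero.2 (by exact_mod_cast hj))

theorem sPD : SPD := by
  intro a b ha hab
  obtain ⟨m, rfl⟩ : ∃ m, a = m + 1 + 1 := ⟨a - 2, by omega⟩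
  obtain ⟨n, rfl⟩ : ∃ n, b = n + 1 + (m + 1) := ⟨b - (m + 1 + 1), by omega⟩
  obtain ⟨Q, c, hc, hd, h0, hI⟩ := exQ_Pd n (m + 1)
  have Q0 : Q ≠ 0 := fun h => by simp [h] at h0
  have X0 : (1 + X : ℂ[X]) ≠ 0 := fun h => by simpa using congrArg (eval 0) h
  have X1 : (1 + X : ℂ[X]).natDegree = 1 := by rw [add_comm, ← C_1, natDegree_X_add_C]
  obtain ⟨A, hA⟩ : ∃ A : ℂ[X], A = (1 + X) * Q := ⟨_, rfl⟩
  obtain ⟨U, hU⟩ : ∃ U : ℂ[X], U = (1 + X) ^ (n + 1) * Q := ⟨_, rfl⟩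
  have dA : A.natDegree = m + 1 + 1 := by rw [hA, natDegree_mul X0 Q0, X1, hd, add_comm]
  have dU : U.natDegree = n + 1 + (m + 1) := by
    rw [hU, natDegree_mul (pow_ne_zero _ X0) Q0, natDegree_pow, X1, hd, mul_one]
  have U' : derivative U = X ^ (m + 1) * (C c * (1 + X) ^ n) := by
    rw [hU, derivative_mul, derivative_pow_succ]
    simp only [derivative_add, derivative_one, derivative_X, zero_add, mul_one]
    linear_combination (1 + X) ^ n * hI
  have Um : U.coeff (m + 1) = 0 := by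
    have := congrArg (fun p => coeff p m) U'
    simp only [coeff_derivative, coeff_X_pow_mul', if_neg (Nat.not_succ_le_self m)] at this
    exact (mul_eq_zero.1 this).resolve_right (Nat.cast_add_one_ne_zero m)
  obtain ⟨R, dR, hR⟩ := exR_Pd U (m + 1) Um
  have eI : ∀ z, (1 + z) * (derivative Q).eval z + (n + 1) * Q.eval z = c * z ^ (m + 1) :=
    fun z => by simpa using congrArg (eval z) hI
  have eA : ∀ z, A.eval z = (1 + z) * Q.eval z := fun z => by simp [hA]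
  have eU : ∀ z, U.eval z = (1 + z) ^ (n + 1) * Q.eval z := fun z => by simp [hU]
  have eA' : ∀ z, (derivative A).eval z = Q.eval z + (1 + z) * (derivative Q).eval z :=
    fun z => by simp [hA]
  have eU' : ∀ z, (derivative U).eval z = z ^ (m + 1) * (c * (1 + z) ^ n) := fun z => by simp [U']
  have eR : ∀ z, z * (derivative R).eval z - ((m + 1 : ℕ) : ℂ) * R.eval z = U.eval z :=
    fun z => by simpa only [eval_sub, eval_mul, eval_X, eval_C] using congrArg (eval z) hR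
  have rt : ∀ z, A.eval z = 0 → (derivative A).eval z ≠ 0 ∧
      2 * c * z ^ (m + 1) + (derivative A).eval z ≠ 0 := fun z hz => by
    have e := eI z
    rw [eA']
    rcases mul_eq_zero.1 ((eA z).symm.trans hz) with h | h
    · have z0 : z ≠ 0 := fun h' => by simp [h'] at h
      have q0 : Q.eval z ≠ 0 := fun h' => mul_ne_zero hc (pow_ne_zero (m + 1) z0) (by
        rw [← e, h, h']
        ring)
      have n0 : 2 * ((n : ℂ) + 1) + 1 ≠ 0 := by exact_mod_cast (by omega : 2 * (n + 1) + 1 ≠ 0)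
      rw [h, zero_mul, zero_add] at e
      rw [h, zero_mul, add_zero]
      exact ⟨q0, fun h' => mul_ne_zero n0 q0 (by linear_combination h' + 2 * e)⟩
    · have z0 : z ≠ 0 := fun h' => by simp [h', h0] at h
      have q0 := mul_ne_zero hc (pow_ne_zero (m + 1) z0)
      rw [h, mul_zero, add_zero] at e
      rw [h, zero_add, e]
      exact ⟨q0, fun h' => q0 (by linear_combination h' / 3)⟩
  have A1 : A.eval 0 = 1 := by simp [eA, h0]
  have U1 : U.eval 0 = 1 := by simp [eU, h0]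
  have nr : ∀ p : ℂ[X], p.eval 0 = 1 → ∀ᶠ w in 𝓝 (0 : ℂ), ‖p.eval w - 1‖ ≤ 1 / 10 := fun p hp => by
    have := (p.continuous.tendsto 0).eventually (closedBall_mem_nhds _ (by norm_num : (0 : ℝ) < 1 / 10))
    simpa only [hp, mem_closedBall, dist_eq_norm] using this
  obtain ⟨t, t0, ht⟩ := Metric.nhds_basis_closedBall.eventually_iff.1 ((nr A A1).and (nr U U1))
  have l0 : (t : ℂ) ≠ 0 := by exact_mod_cast t0.ne'
  have ev : ∀ (p : ℂ[X]) z, (p.comp (C (t : ℂ) * X)).eval z = p.eval (t * z) := fun p z => by simp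
  have ev' : ∀ (p : ℂ[X]) z, (derivative (p.comp (C (t : ℂ) * X))).eval z =
      t * (derivative p).eval (t * z) := fun p z => by simp [derivative_comp]
  have dg : ∀ p : ℂ[X], (p.comp (C (t : ℂ) * X)).natDegree = p.natDegree := fun p => by
    rw [natDegree_comp, natDegree_C_mul_X _ l0, mul_one]
  refine ⟨⟨A.comp (C (t : ℂ) * X), U.comp (C (t : ℂ) * X), R.comp (C (t : ℂ) * X),
    c * t ^ (m + 1 + 1), ha, hab, mul_ne_zero hc (pow_ne_zero _ l0), (dg A).trans dA,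
    (dg U).trans dU, (dg R).le.trans (dR.trans dU.le), fun z => ?_, fun z => ?_, fun z hz => ?_,
    fun z => ?_, fun z hz => ?_, ?_, ?_, fun z hz => ?_⟩⟩
  · rw [ev', ev, ev, eU', eA, eU, Nat.add_sub_cancel]
    ring
  · rw [ev', ev, ev, ← eR, Nat.add_sub_cancel]
    ring
  · rw [ev] at hz
    rw [ev']
    exact mul_ne_zero l0 (rt _ hz).1
  · rw [ev, ev, eA, eU, mul_eq_zero, mul_eq_zero, pow_eq_zero_iff (Nat.succ_ne_zero n)]
  · rw [ev] at hz
    rw [ev', Nat.add_sub_cancel]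
    exact fun h => mul_ne_zero l0 (rt _ hz).2 (by linear_combination h)
  · rw [ev, mul_zero, A1]
  · rw [ev, mul_zero, U1]
  · rw [ev, ev]
    refine ht ?_
    rw [mem_closedBall_zero_iff, norm_mul, Complex.norm_real, Real.norm_of_nonneg t0.le]
    exact mul_le_of_le_one_right t0.le hz

end Pool.Agent.MP_e62289_ag.Un

end

section

open Set Filter Topology Complex MeasureTheory Metric Polynomial
open scoped Manifold ContDiff ComplexConjugate NNReal ENNReal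

namespace Pool.Agent.MP_e62289_ag.Un

variable {Q : ℂ[X]}

/-- the tangent vector of the flow does not vanish on the curve -/
theorem ne_Fl (h0 : ∀ z, Q.eval z = 0 → (derivative Q).eval z ≠ 0) (q : Cw Q) :
    q.1.2 ≠ 0 ∨ (derivative Q).eval q.1.1 / 2 ≠ 0 := by
  by_cases h : q.1.2 = 0
  · refine Or.inr (div_ne_zero (h0 _ ?_) two_ne_zero)
    rw [← q.2.1, h]
    simp
  · exact Or.inl h

open Classical in
/-- restriction of a chart of the plane that straightens the curve -/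
theorem chart_Fl (q : Cw Q) (Φ : OpenPartialHomeomorph (ℂ × ℂ) (ℂ × ℂ)) (hq : q.1 ∈ Φ.source)
    (hΦ : ∀ p, (Φ p).1 = p.2 ^ 2 - Q.eval p.1) :
    ∃ χ : OpenPartialHomeomorph (Cw Q) ℂ, q ∈ χ.source ∧ (∀ p, χ p = (Φ p.1).2) ∧
      ∀ z ∈ χ.target, (0, z) ∈ Φ.target ∧ (χ.symm z).1 = Φ.symm (0, z) := by
  have hcv : ∀ p : Cw Q, Φ p.1 = (0, (Φ p.1).2) := fun p => by
    refine Prod.ext ?_ rfl
    rw [hΦ, p.2.1, sub_self]
  let T : Set ℂ := {z | (0, z) ∈ Φ.target ∧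
    Φ.symm (0, z) ∈ {p : ℂ × ℂ | p.1 ≠ 0}}
  have hT : ∀ z ∈ T, (Φ.symm (0, z)).2 ^ 2 = Q.eval (Φ.symm (0, z)).1 ∧ (Φ.symm (0, z)).1 ≠ 0 := by
    intro z hz
    refine ⟨?_, hz.2⟩
    have := hΦ (Φ.symm (0, z))
    rw [Φ.right_inv hz.1] at this
    exact (sub_eq_zero.1 this.symm)
  let g : ℂ → Cw Q := fun z => if h : z ∈ T then ⟨Φ.symm (0, z), hT z h⟩ else q
  have hg : ∀ z ∈ T, (g z).1 = Φ.symm (0, z) := fun z hz => by simp only [g, dif_pos hz]
  have hmap : ∀ p : Cw Q, p.1 ∈ Φ.source → (Φ p.1).2 ∈ T := by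
    intro p hp
    refine ⟨?_, ?_⟩
    · rw [← hcv]
      exact Φ.map_source hp
    · rw [← hcv, Φ.left_inv hp]
      exact p.2.2
  have hpair : Continuous fun z : ℂ => ((0 : ℂ), z) := by fun_prop
  have hTo : IsOpen T := by
    have ho : IsOpen {p : ℂ × ℂ | p.1 ≠ 0} :=
      isOpen_ne_fun continuous_fst continuous_const
    exact (Φ.continuousOn_symm.isOpen_inter_preimage Φ.open_target ho).preimage hpair
  refine ⟨{ toFun := fun p => (Φ p.1).2
            invFun := g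
            source := {p | p.1 ∈ Φ.source}
            target := T
            map_source' := hmap
            map_target' := fun z hz => ?_
            left_inv' := fun p hp => ?_
            right_inv' := fun z hz => ?_
            open_source := Φ.open_source.preimage continuous_subtype_val
            open_target := hTo
            continuousOn_toFun := ?_
            continuousOn_invFun := ?_ }, hq, fun _ => rfl, fun z hz => ⟨hz.1, hg z hz⟩⟩
  · change (g z).1 ∈ Φ.source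
    rw [hg z hz]
    exact Φ.map_target hz.1
  · refine Subtype.ext ?_
    rw [hg _ (hmap p hp), ← hcv, Φ.left_inv hp]
  · rw [hg z hz, Φ.right_inv hz.1]
  · exact continuous_snd.comp_continuousOn
      (Φ.continuousOn.comp continuous_subtype_val.continuousOn fun p hp => hp)
  · refine IsInducing.subtypeVal.continuousOn_iff.2 ?_
    refine ContinuousOn.congr (f := fun z => Φ.symm (0, z)) ?_ fun z hz => hg z hz
    exact Φ.continuousOn_symm.comp hpair.continuousOn fun z hz => hz.1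

/-- a straightening chart with holomorphic inverse -/
theorem plane_Fl (p : ℂ × ℂ) {a b : ℂ} (hab : a * p.2 + b * ((derivative Q).eval p.1 / 2) ≠ 0) :
    ∃ Φ : OpenPartialHomeomorph (ℂ × ℂ) (ℂ × ℂ), p ∈ Φ.source ∧
      (∀ p, Φ p = (p.2 ^ 2 - Q.eval p.1, a * p.1 + b * p.2)) ∧
      ∀ᶠ w in 𝓝 (Φ p), DifferentiableAt ℂ Φ.symm w := by
  let Ψ : ℂ × ℂ → ℂ × ℂ := fun p => (p.2 ^ 2 - Q.eval p.1, a * p.1 + b * p.2)
  have hc : ContDiffAt ℂ 1 Ψ p := by
    have : ContDiff ℂ 1 fun x : ℂ => Q.eval x := Q.differentiable.contDiff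
    refine ContDiff.contDiffAt ?_
    fun_prop
  have hP : HasDerivAt (fun x => Q.eval x) ((derivative Q).eval p.1) p.1 :=
    Q.hasDerivAt p.1
  set P' := (derivative Q).eval p.1 with hP'
  let L : ℂ × ℂ →L[ℂ] ℂ × ℂ :=
    ((2 * p.2) • ContinuousLinearMap.snd ℂ ℂ ℂ - P' • ContinuousLinearMap.fst ℂ ℂ ℂ).prod
      (a • ContinuousLinearMap.fst ℂ ℂ ℂ + b • ContinuousLinearMap.snd ℂ ℂ ℂ)
  have hL : HasFDerivAt Ψ L p := by
    have h1 : HasFDerivAt (fun p : ℂ × ℂ => Q.eval p.1) (P' • ContinuousLinearMap.fst ℂ ℂ ℂ) p :=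
      hP.comp_hasFDerivAt p hasFDerivAt_fst
    have h2' : HasDerivAt (fun y : ℂ => y ^ 2) (2 * p.2) p.2 := by
      simpa using hasDerivAt_pow 2 p.2
    have h2 : HasFDerivAt (fun p : ℂ × ℂ => p.2 ^ 2)
        ((2 * p.2) • ContinuousLinearMap.snd ℂ ℂ ℂ) p :=
      h2'.comp_hasFDerivAt p hasFDerivAt_snd
    exact (h2.sub h1).prodMk ((hasFDerivAt_fst.const_mul a).add (hasFDerivAt_snd.const_mul b))
  have hinj : Function.Injective L.toLinearMap := by
    rw [injective_iff_map_eq_zero]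
    intro v hv
    have e1 : 2 * p.2 * v.2 - P' * v.1 = 0 := by simpa [L] using congrArg Prod.fst hv
    have e2 : a * v.1 + b * v.2 = 0 := by simpa [L] using congrArg Prod.snd hv
    refine Prod.ext ?_ ?_
    · refine (mul_eq_zero.1 ?_).resolve_left hab
      linear_combination p.2 * e2 - b / 2 * e1
    · refine (mul_eq_zero.1 ?_).resolve_left hab
      linear_combination P' / 2 * e2 + a / 2 * e1
  let e : (ℂ × ℂ) ≃L[ℂ] (ℂ × ℂ) :=
    (LinearEquiv.ofInjectiveEndo L.toLinearMap hinj).toContinuousLinearEquiv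
  have he : HasFDerivAt Ψ (e : ℂ × ℂ →L[ℂ] ℂ × ℂ) p := by
    have : (e : ℂ × ℂ →L[ℂ] ℂ × ℂ) = L := ContinuousLinearMap.ext fun v => rfl
    rw [this]
    exact hL
  refine ⟨hc.toOpenPartialHomeomorph Ψ he one_ne_zero,
    hc.mem_toOpenPartialHomeomorph_source he one_ne_zero, fun _ => rfl, ?_⟩
  filter_upwards [(hc.to_localInverse he one_ne_zero).eventually (by simp)] with w hw
  exact hw.differentiableAt one_ne_zero

/-- derivative of a parametrisation of the curve -/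
theorem param_Fl {X Y : ℂ → ℂ} {a b z : ℂ} (hX : DifferentiableAt ℂ X z)
    (hY : DifferentiableAt ℂ Y z) (h1 : ∀ᶠ w in 𝓝 z, Y w ^ 2 - Q.eval (X w) = 0)
    (h2 : ∀ᶠ w in 𝓝 z, a * X w + b * Y w = w)
    (hD : a * Y z + b * ((derivative Q).eval (X z) / 2) ≠ 0) :
    HasDerivAt X (Y z / (a * Y z + b * ((derivative Q).eval (X z) / 2))) z ∧
    HasDerivAt Y ((derivative Q).eval (X z) / 2 / (a * Y z + b * ((derivative Q).eval (X z) / 2))) z := by
  have hP : HasDerivAt (fun x => Q.eval x) ((derivative Q).eval (X z)) (X z) :=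
    Q.hasDerivAt _
  have e1 : 2 * Y z * deriv Y z - (derivative Q).eval (X z) * deriv X z = 0 := by
    have h3 := (hY.hasDerivAt.pow 2).sub (hP.comp z hX.hasDerivAt)
    have h4 := (hasDerivAt_const z (0 : ℂ)).congr_of_eventuallyEq h1
    have h5 := h3.unique h4
    simpa using h5
  have e2 : a * deriv X z + b * deriv Y z = 1 := by
    have h3 := (hX.hasDerivAt.const_mul a).add (hY.hasDerivAt.const_mul b)
    have h4 := (hasDerivAt_id z).congr_of_eventuallyEq h2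
    exact h3.unique h4
  constructor
  · refine hX.hasDerivAt.congr_deriv (Eq.symm ?_)
    rw [div_eq_iff hD]
    linear_combination -Y z * e2 + b / 2 * e1
  · refine hY.hasDerivAt.congr_deriv (Eq.symm ?_)
    rw [div_eq_iff hD]
    linear_combination -((derivative Q).eval (X z) / 2) * e2 - a / 2 * e1

theorem exists_Fl (h0 : ∀ z, Q.eval z = 0 → (derivative Q).eval z ≠ 0) (q : Cw Q) :
    ∃ φ : OpenPartialHomeomorph (Cw Q) ℂ, q ∈ φ.source ∧ IsFl φ := by
  obtain ⟨a, b, hab⟩ : ∃ a b : ℂ, a * q.1.2 + b * ((derivative Q).eval q.1.1 / 2) ≠ 0 := by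
    rcases ne_Fl h0 q with h | h
    · exact ⟨1, 0, by simpa using h⟩
    · exact ⟨0, 1, by simpa using h⟩
  obtain ⟨Φ, hq, hΦ, hd⟩ := plane_Fl q.1 hab
  obtain ⟨χ, hqχ, hχ, hχs⟩ := chart_Fl q Φ hq fun p => by rw [hΦ]
  set z₀ := χ q with hz₀
  have hz₀t : z₀ ∈ χ.target := χ.map_source hqχ
  have hΦq : Φ q.1 = (0, z₀) := by
    refine Prod.ext ?_ (hχ q).symm
    rw [hΦ, q.2.1, sub_self]
  set X : ℂ → ℂ := fun z => (Φ.symm (0, z)).1 with hX
  set Y : ℂ → ℂ := fun z => (Φ.symm (0, z)).2 with hY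
  set D : ℂ → ℂ := fun z => a * Y z + b * ((derivative Q).eval (X z) / 2) with hD
  have hsq : Φ.symm (0, z₀) = q.1 := by rw [← hΦq, Φ.left_inv hq]
  have hD0 : D z₀ ≠ 0 := by
    simp only [hD, hX, hY, hsq]
    exact hab
  have hpair : Continuous fun z : ℂ => ((0 : ℂ), z) := by fun_prop
  have hd2 : ∀ᶠ z in 𝓝 z₀, DifferentiableAt ℂ X z ∧ DifferentiableAt ℂ Y z ∧
      DifferentiableAt ℂ D z := by
    rw [hΦq] at hd
    filter_upwards [(hpair.tendsto z₀).eventually hd] with z hz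
    have h2 : DifferentiableAt ℂ (fun z : ℂ => Φ.symm (0, z)) z :=
      hz.comp z (f := fun z : ℂ => ((0 : ℂ), z)) (by fun_prop)
    have h3 : DifferentiableAt ℂ X z := h2.fst
    have h4 : DifferentiableAt ℂ Y z := h2.snd
    have h5 : DifferentiableAt ℂ (fun z => (derivative Q).eval (X z)) z :=
      ((derivative Q).differentiable _).comp z h3
    exact ⟨h3, h4, (h4.const_mul a).add ((h5.div_const 2).const_mul b)⟩
  have hd3 : ∀ᶠ z in 𝓝 z₀, D z ≠ 0 := hd2.self_of_nhds.2.2.continuousAt.eventually_ne hD0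
  obtain ⟨r, hr, hball⟩ := Metric.eventually_nhds_iff_ball.1 (hd2.and hd3)
  have hlam : DifferentiableOn ℂ (fun z => (D z)⁻¹) (ball z₀ r) := fun z hz =>
    ((hball z hz).1.2.2.inv (hball z hz).2).differentiableWithinAt
  obtain ⟨g, hg⟩ := hlam.isExactOn_ball
  have hga : AnalyticAt ℂ g z₀ :=
    DifferentiableOn.analyticAt (s := ball z₀ r)
      (fun z hz => (hg z hz).differentiableAt.differentiableWithinAt) (ball_mem_nhds _ hr)
  have hgs : HasStrictDerivAt g (D z₀)⁻¹ z₀ := by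
    have := hga.hasStrictDerivAt
    rwa [(hg z₀ (mem_ball_self hr)).deriv] at this
  let T₀ := (hgs.hasStrictFDerivAt_equiv (inv_ne_zero hD0)).toOpenPartialHomeomorph g
  let T := T₀.restrOpen (ball z₀ r) isOpen_ball
  have hPs : z₀ ∈ T.source :=
    ⟨(hgs.hasStrictFDerivAt_equiv (inv_ne_zero hD0)).mem_toOpenPartialHomeomorph_source,
      mem_ball_self hr⟩
  refine ⟨χ ≫ₕ T, ⟨hqχ, hPs⟩, fun w hw => ?_⟩
  have hw1 : w ∈ T.target := hw.1
  have hw2 : T.symm w ∈ χ.target := hw.2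
  have hw3 : T.symm w ∈ ball z₀ r := (T.map_target hw1).2
  obtain ⟨⟨k1, k2, -⟩, k3⟩ := hball _ hw3
  have hPd : HasDerivAt T.symm (D (T.symm w)) w := by
    have := T.hasDerivAt_symm hw1 (inv_ne_zero k3) (hg _ hw3)
    rwa [inv_inv] at this
  have hev : ∀ᶠ z in 𝓝 (T.symm w), Φ (Φ.symm (0, z)) = (0, z) := by
    filter_upwards [χ.open_target.mem_nhds hw2] with z hz
    exact Φ.right_inv (hχs z hz).1
  obtain ⟨m1, m2⟩ := param_Fl (Q := Q) (a := a) (b := b) k1 k2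
    (hev.mono fun z hz => by
      have := congrArg Prod.fst hz
      rwa [hΦ] at this)
    (hev.mono fun z hz => by
      have := congrArg Prod.snd hz
      rwa [hΦ] at this) k3
  have hev2 : ∀ᶠ v in 𝓝 w, ((χ ≫ₕ T).symm v).1 = Φ.symm (0, T.symm v) := by
    filter_upwards [(χ ≫ₕ T).open_target.mem_nhds hw] with v hv
    exact (hχs _ hv.2).2
  have hw4 := hev2.self_of_nhds
  constructor
  · have n1 := (m1.comp w hPd).congr_of_eventuallyEq
      (f₁ := fun z => ((χ ≫ₕ T).symm z).1.1) (hev2.mono fun v hv => congrArg Prod.fst hv)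
    refine n1.congr_deriv (Eq.symm ?_)
    rw [hw4]
    exact (div_mul_cancel₀ _ k3).symm
  · have n1 := (m2.comp w hPd).congr_of_eventuallyEq
      (f₁ := fun z => ((χ ≫ₕ T).symm z).1.2) (hev2.mono fun v hv => congrArg Prod.snd hv)
    refine n1.congr_deriv (Eq.symm ?_)
    rw [hw4]
    exact (div_mul_cancel₀ _ k3).symm

theorem trans_Fl (h0 : ∀ z, Q.eval z = 0 → (derivative Q).eval z ≠ 0) {φ ψ : OpenPartialHomeomorph (Cw Q) ℂ}
    (hφ : IsFl φ) (hψ : IsFl ψ) {q : Cw Q} (hq : q ∈ φ.source ∩ ψ.source) :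
    ∀ᶠ q' in 𝓝 q, φ q' - ψ q' = φ q - ψ q := by
  let τ := φ.symm ≫ₕ ψ
  have hτ : ∀ z ∈ τ.source, HasDerivAt τ 1 z := by
    intro z hz
    have hz1 : z ∈ φ.target := hz.1
    have hz2 : φ.symm z ∈ ψ.source := hz.2
    have hc : ContinuousAt τ z := τ.continuousAt hz
    have hev : ∀ᶠ v in 𝓝 z, ψ.symm (τ v) = φ.symm v := by
      filter_upwards [τ.open_source.mem_nhds hz] with v hv
      exact ψ.left_inv hv.2
    have hz3 := hev.self_of_nhds
    obtain ⟨a1, a2⟩ := hφ z hz1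
    obtain ⟨b1, b2⟩ := hψ (τ z) (ψ.map_source hz2)
    rw [hz3] at b1 b2
    rcases ne_Fl h0 (φ.symm z) with h | h
    · have := HasDerivAt.of_comp_left hc b1 a1 h
        (hev.mono fun v hv => congrArg (fun p : Cw Q => p.1.1) hv)
      rwa [div_self h] at this
    · have := HasDerivAt.of_comp_left hc b2 a2 h
        (hev.mono fun v hv => congrArg (fun p : Cw Q => p.1.2) hv)
      rwa [div_self h] at this
  have hz₀ : φ q ∈ τ.source := by
    refine ⟨φ.map_source hq.1, ?_⟩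
    change φ.symm (φ q) ∈ ψ.source
    rw [φ.left_inv hq.1]
    exact hq.2
  obtain ⟨r, hr, hball⟩ := Metric.isOpen_iff.1 τ.open_source _ hz₀
  have hder : ∀ z ∈ ball (φ q) r, HasDerivAt (fun z => z - τ z) 0 z := fun z hz =>
    ((hasDerivAt_id z).sub (hτ z (hball hz))).congr_deriv (sub_self _)
  have hconst : ∀ z ∈ ball (φ q) r, z - τ z = φ q - τ (φ q) := fun z hz =>
    isOpen_ball.is_const_of_deriv_eq_zero (f := fun z => z - τ z)
      (convex_ball _ _).isPreconnected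
      (fun z hz => (hder z hz).differentiableAt.differentiableWithinAt)
      (fun z hz => (hder z hz).deriv) hz (mem_ball_self hr)
  have hτφ : ∀ q' ∈ φ.source, τ (φ q') = ψ q' := fun q' h' => by
    change ψ (φ.symm (φ q')) = _
    rw [φ.left_inv h']
  filter_upwards [(φ.continuousAt hq.1).eventually (ball_mem_nhds _ hr),
    φ.open_source.mem_nhds hq.1] with q' h2 h3
  rw [← hτφ q' h3, ← hτφ q hq.1]
  exact hconst _ h2

theorem sFl : SFl := fun _ h =>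
  ⟨exists_Fl h, fun _ _ h1 h2 _ hq => trans_Fl h h1 h2 hq⟩

end Pool.Agent.MP_e62289_ag.Un

end

section

open Set Filter Topology Complex MeasureTheory Metric Polynomial
open scoped Manifold ContDiff ComplexConjugate NNReal ENNReal

namespace Pool.Agent.MP_e62289_ag.Un

variable {P : ℂ[X]}

/-- the hyperelliptic involution -/
def iv_Hyp (q : Cw P) : Cw P := ⟨(q.1.1, -q.1.2), by rw [neg_sq]; exact q.2.1, q.2.2⟩

theorem cont_Hyp : Continuous (iv_Hyp : Cw P → Cw P) :=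
  Continuous.subtype_mk (by fun_prop) _

theorem inv_inv_Hyp (q : Cw P) : iv_Hyp (iv_Hyp q) = q := by
  apply Subtype.ext
  simp [iv_Hyp]

theorem fibre_Hyp {p q : Cw P} (h : p.1.1 = q.1.1) : p = q ∨ p = iv_Hyp q := by
  have h1 : p.1.2 ^ 2 = q.1.2 ^ 2 := by rw [p.2.1, q.2.1, h]
  rcases sq_eq_sq_iff_eq_or_eq_neg.1 h1 with h2 | h2
  · exact Or.inl (Subtype.ext (Prod.ext h h2))
  · exact Or.inr (Subtype.ext (Prod.ext h h2))

theorem open_Hyp {U : Set (Cw P)} (hU : IsOpen U) : IsOpen ((fun q : Cw P => q.1.1) '' U) := by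
  rw [isOpen_iff_mem_nhds]
  rintro _ ⟨q, hq, rfl⟩
  obtain ⟨ε, hε, hb⟩ := Metric.isOpen_iff.1 hU q hq
  have hc : Continuous fun x => P.eval x := P.continuous
  have e1 : ∀ᶠ x in 𝓝 q.1.1, ‖x - q.1.1‖ < ε := by
    have : Continuous fun x : ℂ => ‖x - q.1.1‖ := by fun_prop
    exact this.continuousAt.eventually_lt continuousAt_const (by simpa using hε)
  have e2 : ∀ᶠ x in 𝓝 q.1.1, ‖P.eval x - q.1.2 ^ 2‖ < ε ^ 2 := by
    have : Continuous fun x : ℂ => ‖P.eval x - q.1.2 ^ 2‖ := by fun_prop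
    refine this.continuousAt.eventually_lt continuousAt_const ?_
    rw [q.2.1, sub_self, norm_zero]
    positivity
  have e3 : ∀ᶠ x in 𝓝 q.1.1, x ≠ 0 := isOpen_ne.mem_nhds q.2.2
  filter_upwards [e1, e2, e3] with x h1 h2 h3
  obtain ⟨y, hy, hy2⟩ := x3e_root hε h2
  refine ⟨⟨(x, y), hy, h3⟩, hb ?_, rfl⟩
  rw [mem_ball, Subtype.dist_eq, Prod.dist_eq, dist_eq_norm, dist_eq_norm]
  exact max_lt h1 hy2

theorem base_Hyp : IsPreconnected {x : ℂ | x ≠ 0} :=
  ((toFinite ({0} : Set ℂ)).countable.isConnected_compl_of_one_lt_rank (by simp)).2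

theorem inv_clopen_Hyp {W : Set (Cw P)} (hW : IsClopen W) (hi : ∀ q, q ∈ W → iv_Hyp q ∈ W) :
    W = ∅ ∨ W = univ := by
  have hf : ∀ p q : Cw P, p.1.1 = q.1.1 → q ∈ W → p ∈ W := by
    intro p q h hq
    rcases fibre_Hyp h with h1 | h1
    · rwa [h1]
    · rw [h1]; exact hi q hq
  have hd : Disjoint ((fun q : Cw P => q.1.1) '' W) ((fun q : Cw P => q.1.1) '' Wᶜ) := by
    rw [Set.disjoint_left]
    rintro _ ⟨q, hq, rfl⟩ ⟨p, hp, h⟩
    exact hp (hf p q h hq)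
  have hc : {x : ℂ | x ≠ 0} ⊆
      ((fun q : Cw P => q.1.1) '' W) ∪ ((fun q : Cw P => q.1.1) '' Wᶜ) := by
    intro x hx
    obtain ⟨y, hy⟩ := x3e_sqrt (P.eval x)
    rw [← image_union, union_compl_self]
    exact ⟨⟨(x, y), hy, hx⟩, mem_univ _, rfl⟩
  rcases base_Hyp.subset_or_subset (open_Hyp hW.2) (open_Hyp hW.1.isOpen_compl) hd hc with h | h
  · refine Or.inr (eq_univ_of_forall fun p => ?_)
    obtain ⟨q, hq, h1⟩ := h p.2.2
    exact hf p q h1.symm hq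
  · refine Or.inl (eq_empty_of_forall_notMem fun p hp => ?_)
    obtain ⟨q, hq, h1⟩ := h p.2.2
    exact hq (hf q p h1 hp)

theorem conn_Hyp (h0 : P.eval 0 ≠ 0) (h1 : P.natDegree ≠ 0) : ConnectedSpace (Cw P) := by
  obtain ⟨z, hz⟩ := Complex.exists_root (natDegree_pos_iff_degree_pos.1 (Nat.pos_of_ne_zero h1))
  let b : Cw P := ⟨(z, 0), by simpa using hz.symm, fun h => h0 (by
    have h2 : z = 0 := h
    subst h2
    exact hz)⟩
  have hb : iv_Hyp b = b := by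
    apply Subtype.ext
    simp [iv_Hyp, b]
  rw [connectedSpace_iff_clopen]
  refine ⟨⟨b⟩, fun U hU => inv_clopen_Hyp hU ?_⟩
  have hU' : IsClopen (iv_Hyp ⁻¹' U) := hU.preimage cont_Hyp
  have hV : IsClopen ((U ∩ iv_Hyp ⁻¹' U) ∪ (Uᶜ ∩ (iv_Hyp ⁻¹' U)ᶜ)) :=
    (hU.inter hU').union (hU.compl.inter hU'.compl)
  have hi : ∀ q, q ∈ (U ∩ iv_Hyp ⁻¹' U) ∪ (Uᶜ ∩ (iv_Hyp ⁻¹' U)ᶜ) →
      iv_Hyp q ∈ (U ∩ iv_Hyp ⁻¹' U) ∪ (Uᶜ ∩ (iv_Hyp ⁻¹' U)ᶜ) := by
    intro q hq
    simp only [mem_union, mem_inter_iff, mem_preimage, mem_compl_iff, inv_inv_Hyp] at hq ⊢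
    tauto
  rcases inv_clopen_Hyp hV hi with h | h
  · exfalso
    have h2 : b ∈ (U ∩ iv_Hyp ⁻¹' U) ∪ (Uᶜ ∩ (iv_Hyp ⁻¹' U)ᶜ) := by
      simp only [mem_union, mem_inter_iff, mem_preimage, mem_compl_iff, hb]
      tauto
    rw [h] at h2
    exact h2
  · intro q hq
    have h2 : q ∈ (U ∩ iv_Hyp ⁻¹' U) ∪ (Uᶜ ∩ (iv_Hyp ⁻¹' U)ᶜ) := by rw [h]; exact mem_univ _
    rcases h2 with h2 | h2
    · exact h2.2
    · exact absurd hq h2.1

theorem sHy (h1 : SFl) (h2 : SEn) : SHy := by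
  intro P G F p1 p2 p3 p4 p5 p6
  choose φ hm hφ using (h1 P p4).1
  have hf : ∀ x y : Cw P, ∀ q ∈ (φ x).source ∩ (φ y).source, ∀ᶠ q' in 𝓝 q,
      φ x q' - φ y q' = φ x q - φ y q := fun x y q hq =>
    (h1 P p4).2 _ _ (hφ x) (hφ y) q hq
  obtain ⟨mC, mR⟩ := flat_manifold φ hm hf
  let ch : ChartedSpace ℂ (Cw P) := chartedOf φ hm
  let ms : MeasurableSpace (Cw P) := borel (Cw P)
  have bor : @BorelSpace (Cw P) _ ms := @BorelSpace.mk _ _ ms rfl
  obtain ⟨lam, hlam⟩ := @flat_area (Cw P) _ _ ms bor φ hm hf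
  obtain ⟨e, r, Yb, hr, hrs, e1, e2, e3, e4, e5, e6, e7, e8⟩ := h2 P G p1 p3
  have hx : ∀ q : Cw P, HolAt (fun q : Cw P => q.1.1) q ∧ d1 (fun q : Cw P => q.1.1) q = q.1.2 := by
    intro q
    refine x3_hol (by fun_prop) ?_
    have h := (hφ q (φ q q) ((φ q).map_source (hm q))).1
    rw [(φ q).left_inv (hm q)] at h
    exact h
  have hy : ∀ q : Cw P, HolAt (fun q : Cw P => q.1.2) q := by
    intro q
    have h := (hφ q (φ q q) ((φ q).map_source (hm q))).2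
    exact (x3_hol (u := fun q : Cw P => q.1.2) (q := q) (by fun_prop) h).1
  have hr' : (r : ℂ) ≠ 0 := ofReal_ne_zero.2 hr.ne'
  have he : ∀ i, MDifferentiableOn 𝓘(ℂ, ℂ) 𝓘(ℂ, ℂ) (e i) (e i).source := by
    intro i
    rcases lt_or_ge i.val 2 with hi | hi
    · refine MDifferentiableOn.congr (f := fun q : Cw P => q.1.1 / r) ?_ ?_
      · intro q _
        exact (x3_comp (g := fun z => z / r) (by fun_prop)
          (hx q).1).mdifferentiableWithinAt
      · intro q hq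
        rw [(e7 i hi q hq).1]
        field_simp
    · refine MDifferentiableOn.congr (f := fun q : Cw P => (r * q.1.1)⁻¹) ?_ ?_
      · intro q _
        refine (x3_comp (g := fun z => ((r : ℂ) * z)⁻¹) ?_ (hx q).1).mdifferentiableWithinAt
        exact DifferentiableAt.inv (by fun_prop) (mul_ne_zero hr' q.2.2)
      · intro q hq
        refine eq_inv_of_mul_eq_one_left ?_
        linear_combination (e8 i hi q hq).1
  let S : Flat 4 :=
    { Y := Cw P
      cn := conn_Hyp p3 (by omega)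
      ms := ms
      bor := bor
      ch := ch
      mC := mC
      mR := mR
      flat := hf
      lam := lam
      area := hlam
      e := e
      e_target := e1
      e_hol := he
      e_disj := e2
      e_closed := e3
      e_compact := e4
      f := fun q => F q.1.1 q.1.2
      f_hol := fun q => MDifferentiableAt.comp q (g := fun w : ℂ × ℂ => F w.1 w.2)
        (f := fun q : Cw P => (q.1.1, q.1.2))
        (mdifferentiableAt_iff_differentiableAt.2 (p5 _ _ q.2.2)) ((hx q).1.prodMk_space (hy q))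
      f_ne := fun q => p6 _ _ q.2.2 q.2.1 }
  exact ⟨{ S := S
           x := fun q => q.1.1
           y := fun q => q.1.2
           x_hol := fun q => (hx q).1
           y_hol := hy
           d1x := fun q => (hx q).2
           eqn := fun q => q.2.1
           x_ne := fun q => q.2.2
           inj := fun p q h => Subtype.ext h
           surj := fun X Y a b => ⟨⟨(X, Y), a, b⟩, rfl, rfl⟩
           f_eq := fun _ => rfl
           r := r
           r_pos := hr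
           r_le := hrs
           Yb := Yb
           Yb_hol := e5
           Yb_ne := e6
           fin := e7
           inf := e8 }⟩

end Pool.Agent.MP_e62289_ag.Un

end

section

open Set Filter Topology Complex MeasureTheory Metric Polynomial
open scoped Manifold ContDiff ComplexConjugate NNReal ENNReal

namespace Pool.Agent.MP_e62289_ag.Un

variable {P : ℂ[X]} {G : ℕ} {F : ℂ → ℂ → ℂ}

theorem fin_Int (h0 : P ≠ 0) : {z : ℂ | P.eval z = 0}.Finite := finite_setOfPred_isRoot h0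

theorem sheet_Int (H : Hy P G F) (h0 : P ≠ 0) (g : ℂ → ℝ≥0∞) {ε : ℂ} (hε : ε ^ 2 = 1) :
    ∫⁻ q in {q | ε * H.y q ∈ X4aP}, ‖H.y q‖ₑ ^ 2 * g (H.x q) ∂H.S.lam = ∫⁻ z, g z := by
  have hA : MeasurableSet {q | ε * H.y q ∈ X4aP} :=
    (H.y_hol.continuous.measurable.const_mul ε) X4a_meas
  have hi : InjOn H.x {q | ε * H.y q ∈ X4aP} := fun q hq q' hq' e => by
    have h2 : H.y q ^ 2 = H.y q' ^ 2 := by rw [H.eqn, H.eqn, e]
    rcases sq_eq_sq_iff_eq_or_eq_neg.1 h2 with h | h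
    · exact H.inj (Prod.ext e h)
    · refine absurd hq ?_
      have := X4a_not hq'
      rwa [mem_ofPred_eq, h, mul_neg]
  have hc := H.S.cov_plane hA (fun q _ => (d2_of_hol (H.x_hol q)).1) hi g
  have hf : (H.x '' {q | ε * H.y q ∈ X4aP})ᶜ.Finite := by
    refine ((fin_Int h0).union (finite_singleton 0)).subset fun z hz => ?_
    by_contra hn
    simp only [mem_union, mem_ofPred_eq, not_or, mem_singleton_iff] at hn
    obtain ⟨hP, n3⟩ := hn
    obtain ⟨w, hw⟩ := IsAlgClosed.exists_pow_nat_eq (P.eval z) two_pos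
    have hw0 : w ≠ 0 := by
      rintro rfl
      exact hP (by rw [← hw]; simp)
    have key : ∀ w : ℂ, w ^ 2 = P.eval z → w ∉ X4aP := fun w hw hP => by
      obtain ⟨q, h1, h2⟩ := H.surj z (ε * w) (by rw [mul_pow, hε, one_mul, hw]) n3
      refine hz ⟨q, ?_, h1⟩
      rwa [mem_ofPred_eq, h2, ← mul_assoc, ← sq, hε, one_mul]
    rcases X4a_or hw0 with h | h
    · exact key w hw h
    · exact key (-w) (by rw [neg_sq, hw]) h
  rw [Measure.restrict_eq_self_of_ae_mem (s := H.x '' {q | ε * H.y q ∈ X4aP})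
    (hf.measure_zero volume)] at hc
  rw [hc]
  refine lintegral_congr fun q => ?_
  rw [H.d1x, (d2_of_hol (H.x_hol q)).2, norm_zero, zero_pow two_ne_zero, sub_zero,
    abs_of_nonneg (sq_nonneg _), ENNReal.ofReal_pow (norm_nonneg _), ofReal_norm]

/-- integration over the two sheets -/
theorem lint_Int (H : Hy P G F) (h0 : P ≠ 0) {g : ℂ → ℝ≥0∞} (hg : Measurable g) :
    ∫⁻ q, ‖H.y q‖ₑ ^ 2 * g (H.x q) ∂H.S.lam = 2 * ∫⁻ z, g z := by
  have hA : ∀ ε : ℂ, MeasurableSet {q | ε * H.y q ∈ X4aP} := fun ε =>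
    (H.y_hol.continuous.measurable.const_mul ε) X4a_meas
  have hm : Measurable fun q => ‖H.y q‖ₑ ^ 2 * g (H.x q) :=
    (H.y_hol.continuous.measurable.enorm.pow_const 2).mul (hg.comp H.x_hol.continuous.measurable)
  rw [two_mul]
  nth_rw 1 [← sheet_Int H h0 g (ε := 1) (by simp)]
  rw [← sheet_Int H h0 g (ε := -1) (by simp), ← lintegral_indicator (hA _),
    ← lintegral_indicator (hA _), ← lintegral_add_left (hm.indicator (hA _))]
  refine lintegral_congr fun q => ?_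
  by_cases hy : H.y q = 0
  · simp [indicator, hy]
  · rcases X4a_or hy with h | h
    · rw [indicator_of_mem (by simpa using h), indicator_of_notMem (by simpa using X4a_not h),
        add_zero]
    · rw [indicator_of_notMem (by simpa using X4a_not h), indicator_of_mem (by simpa using h),
        zero_add]

theorem ae_Int (H : Hy P G F) (h0 : P ≠ 0) : ∀ᵐ q ∂H.S.lam, H.y q ≠ 0 := by
  have h1 : {q | H.y q = 0}.Finite := by
    refine Finite.of_finite_image (f := fun q => (H.x q, H.y q)) ?_ H.inj.injOn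
    refine ((fin_Int h0).prod (finite_singleton (0 : ℂ))).subset ?_
    rintro _ ⟨q, hq, rfl⟩
    refine ⟨?_, hq⟩
    have e := H.eqn q
    rw [show H.y q = 0 from hq, zero_pow two_ne_zero] at e
    exact e.symm
  have h2 : ∀ q : H.S.Y, H.S.lam {q} = 0 := fun q => by
    rw [H.S.area q {q} (measurableSet_singleton q)
      (singleton_subset_iff.2 (mem_chart_source ℂ q)), image_singleton, measure_singleton]
  rw [ae_iff]
  simp only [not_not]
  rw [← biUnion_of_singleton {q | H.y q = 0}]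
  exact (measure_biUnion_null_iff h1.countable).2 fun q _ => h2 q

theorem lp_Int (H : Hy P G F) (h0 : P ≠ 0) {u : H.S.Y → ℂ} (hu : Hol u) {g : ℂ → ℂ} (hg : Measurable g)
    (h : ∀ q, H.y q ≠ 0 → ‖H.S.f q‖ * ‖u q‖ ^ 2 = ‖H.y q‖ ^ 2 * ‖g (H.x q)‖) {C : ℝ≥0∞}
    (hC : C ≠ ⊤) (hb : ∫⁻ z, ‖g z‖ₑ ≤ C) :
    ∃ ξ : H.S.H, ξ ∈ H.S.hd.W ∧ ‖ξ‖ ≤ ((2 * C) ^ (1 / 2 : ℝ)).toReal ∧
      ∀ᵐ q ∂H.S.lam, ξ q = u q := by
  have h1 : eLpNorm u 2 H.S.lamf ≤ (2 * C) ^ (1 / 2 : ℝ) := by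
    rw [eLpNorm_eq_lintegral_rpow_enorm_toReal two_ne_zero ENNReal.ofNat_ne_top, H.S.lintegral_lamf]
    refine ENNReal.rpow_le_rpow ?_ (by norm_num)
    calc _ = ∫⁻ q, ‖H.y q‖ₑ ^ 2 * ‖g (H.x q)‖ₑ ∂H.S.lam := by
          refine lintegral_congr_ae ((ae_Int H h0).mono fun q hq => ?_)
          have e := congrArg ENNReal.ofReal (h q hq)
          rw [ENNReal.ofReal_mul (norm_nonneg _), ENNReal.ofReal_mul (sq_nonneg _),
            ENNReal.ofReal_pow (norm_nonneg _), ENNReal.ofReal_pow (norm_nonneg _)] at e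
          simpa only [ofReal_norm, ENNReal.toReal_ofNat, ENNReal.rpow_ofNat] using e
      _ = 2 * ∫⁻ z, ‖g z‖ₑ := lint_Int H h0 hg.enorm
      _ ≤ _ := by gcongr
  have h2 : (2 * C) ^ (1 / 2 : ℝ) ≠ ⊤ :=
    ENNReal.rpow_ne_top_of_nonneg (by norm_num) (ENNReal.mul_ne_top ENNReal.ofNat_ne_top hC)
  have hm : MemLp u 2 H.S.lamf := ⟨hu.continuous.aestronglyMeasurable, h1.trans_lt h2.lt_top⟩
  refine ⟨hm.toLp u, H.S.mem_W hu hm.coeFn_toLp, ?_, H.S.ae_lamf.1 hm.coeFn_toLp⟩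
  rw [Lp.norm_toLp]
  exact ENNReal.toReal_mono h2 h1

theorem tr_Int (H : Hy P G F) (h0 : P ≠ 0) {g : ℂ → ℝ} (hm : Measurable g)
    (hg : ∀ z, 0 ≤ g z) (hi : Integrable g) :
    Integrable (fun q => ‖H.y q‖ ^ 2 * g (H.x q)) H.S.lam ∧
      ∫ q, ‖H.y q‖ ^ 2 * g (H.x q) ∂H.S.lam = 2 * ∫ z, g z := by
  have hx := H.x_hol.continuous.measurable
  have hy := H.y_hol.continuous.measurable
  have h1 : ∫⁻ q, ENNReal.ofReal (‖H.y q‖ ^ 2 * g (H.x q)) ∂H.S.lam =
      ENNReal.ofReal (2 * ∫ z, g z) := by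
    have h2 := lint_Int H h0 hm.ennreal_ofReal
    rw [← ofReal_integral_eq_lintegral_ofReal hi (Eventually.of_forall hg)] at h2
    rw [ENNReal.ofReal_mul zero_le_two, ENNReal.ofReal_ofNat, ← h2]
    refine lintegral_congr fun q => ?_
    rw [ENNReal.ofReal_mul (sq_nonneg _), ENNReal.ofReal_pow (norm_nonneg _), ofReal_norm]
  have h3 : AEStronglyMeasurable (fun q => ‖H.y q‖ ^ 2 * g (H.x q)) H.S.lam :=
    ((hy.norm.pow_const 2).mul (hm.comp hx)).aestronglyMeasurable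
  have h4 : 0 ≤ᵐ[H.S.lam] fun q => ‖H.y q‖ ^ 2 * g (H.x q) :=
    Eventually.of_forall fun q => mul_nonneg (sq_nonneg _) (hg _)
  refine ⟨⟨h3, (hasFiniteIntegral_iff_ofReal h4).2 (h1 ▸ ENNReal.ofReal_lt_top)⟩, ?_⟩
  rw [integral_eq_lintegral_of_nonneg_ae h4 h3, h1, ENNReal.toReal_ofReal]
  exact mul_nonneg zero_le_two (integral_nonneg hg)

theorem sIn : SIn := fun _ _ _ H h0 =>
  ⟨fun _ _ _ hu hg h hC hb => lp_Int H h0 hu hg h hC hb, fun _ hm hg hi => tr_Int H h0 hm hg hi⟩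

end Pool.Agent.MP_e62289_ag.Un

end

section

open Set Filter Topology Complex MeasureTheory Metric Polynomial
open scoped Manifold ContDiff ComplexConjugate NNReal ENNReal

namespace Pool.Agent.MP_e62289_ag.Un

open Asymptotics in
theorem int_J1 (B : ℂ[X]) (h3 : (X ^ 3 : ℂ[X]).degree ≤ B.degree)
    (hs : ∀ z, B.eval z = 0 → (derivative B).eval z ≠ 0) :
    Integrable fun z : ℂ => (B.eval z)⁻¹ := by
  have hm : AEStronglyMeasurable (fun z : ℂ => (B.eval z)⁻¹) volume :=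
    B.continuous.measurable.inv.aestronglyMeasurable
  refine LocallyIntegrable.integrable_of_isBigO_cocompact (g := x4bH 0) (fun x => ?_) ?_
    ((x4bH_int 0).integrableAtFilter _)
  · by_cases hx : B.eval x = 0
    · obtain ⟨Q, hQ⟩ := dvd_iff_isRoot.2 hx
      have h1 : Q.eval x ≠ 0 := by simpa [hQ] using hs x hx
      have h2 : (fun z : ℂ => (z - x)⁻¹) =O[𝓝 x] fun z => x4bG (z - x) := by
        refine IsBigO.of_bound 16 ?_
        filter_upwards [closedBall_mem_nhds x (show (0 : ℝ) < 3 by norm_num)] with z hz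
        rw [norm_inv, Real.norm_of_nonneg (x4bG_nonneg _)]
        exact x4b_near (mem_closedBall_iff_norm.1 hz)
      refine IsBigO.integrableAtFilter (g := fun z => x4bG (z - x)) ?_
        hm.stronglyMeasurableAtFilter ((x4bG_int.comp_sub_right x).integrableAtFilter _)
      simpa [hQ] using ((Q.continuous.continuousAt.inv₀ h1).isBigO_one ℝ).mul h2
    · exact ((B.continuous.continuousAt.inv₀ hx).isBigO_one ℝ).integrableAtFilter
        hm.stronglyMeasurableAtFilter (continuous_const.integrableAt_nhds x)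
  · rw [← cobounded_eq_cocompact]
    have h1 : ∀ᶠ z : ℂ in Bornology.cobounded ℂ, 1 ≤ ‖z‖ :=
      Tendsto.eventually_ge_atTop tendsto_norm_cobounded_atTop 1
    refine ((isBigO_cobounded_of_degree_le h3).inv_rev ?_).trans (IsBigO.of_bound' ?_)
    · filter_upwards [h1] with z hz h
      obtain rfl : z = 0 := by simpa using h
      norm_num at hz
    · filter_upwards [h1] with z hz
      rw [Real.norm_of_nonneg (x4bH_nonneg _ _)]
      simpa using x4b_far hz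

theorem sJ1 : SJ1 := by
  intro a b d
  have h0 : d.A ≠ 0 := fun h => by simpa [h] using d.A0
  have h := int_J1 (X * d.A) (by
    rw [degree_X_pow, degree_mul, degree_X, degree_eq_natDegree h0, d.degA]
    exact_mod_cast (show 3 ≤ 1 + a by have := d.two_le; omega)) fun z hz => by
    rcases eq_or_ne z 0 with rfl | h
    · simp [d.A0]
    · have e : d.A.eval z = 0 := by simpa [h] using hz
      simpa [e, h] using d.sep z e
  simpa using h

end Pool.Agent.MP_e62289_ag.Un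

end

section

open Set Filter Topology Complex MeasureTheory Metric Polynomial
open scoped Manifold ContDiff ComplexConjugate NNReal ENNReal

namespace Pool.Agent.MP_e62289_ag.Un

theorem sum_J2 (s : Multiset ℂ) : Integrable (fun z => (s.map fun w => x4bG (z - w)).sum) ∧
    ∫ z, (s.map fun w => x4bG (z - w)).sum = s.card * ∫ z, x4bG z := by
  induction s using Multiset.induction_on with
  | empty => simp
  | cons w s ih =>
    have a1 := x4bG_int.comp_sub_right w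
    simp only [Multiset.map_cons, Multiset.sum_cons, Multiset.card_cons]
    refine ⟨a1.add ih.1, ?_⟩
    rw [integral_add a1 ih.1, ih.2, integral_sub_right_eq_self]
    push_cast
    ring

theorem near_J2 {w : ℂ} {R : ℝ} (h : ‖w‖ ≤ R) : ‖1 / w‖ ≤ (1 + R) ^ 2 * x4bG w := by
  rw [norm_div, norm_one, x4bG]
  rcases (norm_nonneg w).eq_or_lt with h0 | h0
  · simp [← h0]
  · rw [mul_one_div, div_le_div_iff₀ h0 (by positivity)]
    have : (1 + ‖w‖) ^ 2 ≤ (1 + R) ^ 2 := pow_le_pow_left₀ (by positivity) (by linarith) 2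
    nlinarith

theorem nsum_J2 (s : Multiset ℂ) (z : ℂ) (R : ℝ) (h : ∀ w ∈ s, ‖z - w‖ ≤ R) :
    ‖(s.map fun w => 1 / (z - w)).sum‖ ≤ (1 + R) ^ 2 * (s.map fun w => x4bG (z - w)).sum := by
  induction s using Multiset.induction_on with
  | empty => simp
  | cons w s ih =>
    simp only [Multiset.map_cons, Multiset.sum_cons]
    have h1 := near_J2 (h w (Multiset.mem_cons_self _ _))
    have h2 := ih fun v hv => h v (Multiset.mem_cons_of_mem hv)
    linarith [norm_add_le (1 / (z - w)) (s.map fun w => 1 / (z - w)).sum]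

theorem sJ2 (h : SJ1) : SJ2 := by
  intro a b d
  obtain ⟨η, M, η0, η1, M1, hM, hη⟩ := d.eta
  have i1 := (h a b d).norm.const_mul 2
  have G0 : 0 ≤ ∫ z, x4bG z := integral_nonneg x4bG_nonneg
  refine ⟨Real.toNNReal ((∫ z : ℂ, 2 * ‖1 / (z * d.A.eval z)‖) +
    (1 + 2 * M) ^ 2 / η * ((d.U ^ 2 * d.A).natDegree * ∫ z, x4bG z)), η / 2, by positivity,
    fun δ δ0 δ1 => ?_⟩
  set q : ℂ[X] := d.U ^ 2 * d.A - C (δ : ℂ) with hq
  have qe : ∀ z, q.eval z = d.p z - δ := fun z => by simp [hq, PD.p]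
  have qd : ∀ z, (derivative q).eval z = d.U.eval z ^ 2 * d.ell z := fun z => by
    have h1 := q.hasDerivAt z
    rw [funext qe] at h1
    exact h1.unique ((d.p_deriv z).sub_const _)
  have nδ : ‖(δ : ℂ)‖ = δ := by rw [norm_real, Real.norm_of_nonneg δ0.le]
  obtain ⟨i2, e2⟩ := sum_J2 q.roots
  have S0 : ∀ z, 0 ≤ (q.roots.map fun w => x4bG (z - w)).sum := fun z =>
    Multiset.sum_nonneg fun x hx => by
      obtain ⟨w, -, rfl⟩ := Multiset.mem_map.1 hx
      exact x4bG_nonneg _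
  refine (x4b_bound (i1.add (i2.const_mul ((1 + 2 * M) ^ 2 / η))) fun z => ?_).trans
    (ENNReal.ofReal_le_ofReal ?_)
  · show _ ≤ 2 * ‖1 / (z * d.A.eval z)‖ +
      (1 + 2 * M) ^ 2 / η * (q.roots.map fun w => x4bG (z - w)).sum
    have p1 : 0 ≤ (1 + 2 * M) ^ 2 / η * (q.roots.map fun w => x4bG (z - w)).sum :=
      mul_nonneg (by positivity) (S0 z)
    have p2 : 0 ≤ 2 * ‖1 / (z * d.A.eval z)‖ := by positivity
    by_cases hz : z * (d.p z - δ) = 0
    · rw [hz, div_zero, norm_zero]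
      linarith
    obtain ⟨z0, z1⟩ := mul_ne_zero_iff.1 hz
    rcases le_total η ‖d.p z‖ with hp | hp
    · obtain ⟨u0, a0, -⟩ := d.p_ne (norm_pos_iff.1 (η0.trans_le hp))
      have e : d.U.eval z ^ 2 / (z * (d.p z - δ)) =
          1 / (z * d.A.eval z) * (d.p z / (d.p z - δ)) := by
        rw [div_mul_div_comm, div_eq_div_iff hz (mul_ne_zero (mul_ne_zero z0 a0) z1)]
        unfold PD.p
        ring
      have h1 := norm_sub_norm_le (d.p z) δ
      have h2 : ‖d.p z / (d.p z - δ)‖ ≤ 2 := by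
        rw [norm_div, div_le_iff₀ (norm_pos_iff.2 z1)]
        linarith
      rw [e, norm_mul]
      linarith [mul_le_mul_of_nonneg_left h2 (norm_nonneg (1 / (z * d.A.eval z)))]
    · have l1 := hη z hp
      have l0 : d.ell z ≠ 0 := norm_pos_iff.1 (η0.trans_le l1)
      have n1 : 1 ≤ ‖z‖ := by
        by_contra hn
        linarith [d.p_low (not_le.1 hn).le]
      have n2 := (hM z (by linarith)).1
      have e1 := (IsAlgClosed.splits q).eval_derivative_div_eval_of_ne_zero (x := z)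
        (by rwa [qe])
      have e : d.U.eval z ^ 2 / (z * (d.p z - δ)) =
          (q.roots.map fun w => 1 / (z - w)).sum / (z * d.ell z) := by
        rw [← e1, qe, qd]
        field_simp
      have h1 := nsum_J2 q.roots z (2 * M) fun w hw => by
        have h2 : q.eval w = 0 := isRoot_of_mem_roots hw
        rw [qe, sub_eq_zero] at h2
        have h3 := (hM w (by rw [h2, nδ]; linarith)).1
        linarith [norm_sub_le z w]
      have h2 : η ≤ ‖z * d.ell z‖ := by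
        rw [norm_mul]
        nlinarith
      rw [e, norm_div]
      refine (div_le_div₀ ((norm_nonneg _).trans h1) h1 η0 h2).trans ?_
      rw [← div_mul_eq_mul_div]
      linarith
  · have c1 : (q.roots.card : ℝ) ≤ (d.U ^ 2 * d.A).natDegree := by
      rw [← natDegree_sub_C (a := (δ : ℂ))]
      exact_mod_cast card_roots' q
    rw [integral_add' i1 (i2.const_mul _), integral_const_mul (r := (1 + 2 * M) ^ 2 / η), e2]
    gcongr

end Pool.Agent.MP_e62289_ag.Un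

end

section

open Set Filter Topology Complex MeasureTheory Metric Polynomial
open scoped Manifold ContDiff ComplexConjugate NNReal ENNReal

namespace Pool.Agent.MP_e62289_ag.Un

variable {a b : ℕ} {L : ℝ}

/-- the potential on a fixed sheet -/
noncomputable def F_Kd (d : PD a b) (σ : ℂ) (L : ℝ) (u r x : ℂ) : ℂ :=
  σ * ((exp (u * σ * cB (d.lg L x) / 2) - 1) * (-1 / (d.c * d.U.eval x)) -
    r / y0 L * (x ^ (a - 1) * cZ (‖x‖ ^ 2) / ((a - 1 : ℕ) : ℂ)))

theorem lt_Kd (hL : 1 ≤ L) : dl L < Real.exp (-2 * L) ∧ Real.exp (-2 * L) < 7 / 10 := by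
  refine ⟨Real.exp_lt_exp.2 (by linarith), ?_⟩
  have h := Real.add_one_le_exp (2 * L)
  rw [neg_mul, Real.exp_neg, inv_lt_comm₀ (Real.exp_pos _) (by norm_num)]
  norm_num
  linarith

theorem zero_Kd (d : PD a b) (hL : 1 ≤ L) {x : ℂ} (h : ‖d.p x‖ < Real.exp (-2 * L)) (u r y : ℂ) :
    d.KK L u r x y = 0 ∧ d.K1 L u r x y = 0 ∧ d.K2 L u r x y = 0 := by
  have h1 : 1 < ‖x‖ := by
    by_contra h1
    linarith [d.p_low (not_lt.1 h1), (lt_Kd hL).2]
  obtain ⟨z1, z2⟩ := x7_cZ_zero (t := ‖x‖ ^ 2) (by nlinarith)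
  rw [PD.KK, PD.K1, PD.K2, z1, z2]
  by_cases hp : d.p x = 0
  · obtain ⟨e1, e2, e3⟩ := d.p_zero hp
    simp [e1, e2, e3]
  · have h2 : d.lg L x ≤ -2 := by
      rw [PD.lg, div_le_iff₀ (by linarith)]
      exact ((Real.log_lt_iff_lt_exp (norm_pos_iff.2 hp)).2 h).le
    obtain ⟨e1, e2⟩ := cB_zero h2
    simp [PD.ex, e1, e2]

theorem loc_Kd (d : PD a b) (H : d.H L) (q : H.S.Y) (h : dl L < ‖d.p (H.x q)‖) :
    ∀ᶠ q' in 𝓝 q, ∀ u r, d.KK L u r (H.x q') (H.y q') =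
      F_Kd d (d.sg (H.x q) (H.y q)) L u r (H.x q') := by
  have hx := H.x_hol.continuous
  have hy := H.y_hol.continuous
  have hD : Continuous d.D := d.U.continuous.mul d.A.continuous
  have hc : ContinuousAt (fun q => (H.y q / d.D (H.x q)).re) q :=
    continuous_re.continuousAt.comp (hy.continuousAt.div (hD.comp hx).continuousAt
      (d.p_ne (norm_pos_iff.1 ((dl_pos L).trans h))).2.2)
  have h1 : ∀ᶠ q' in 𝓝 q, d.sg (H.x q') (H.y q') = d.sg (H.x q) (H.y q) := by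
    rcases lt_or_gt_of_ne (d.sheet (dl_pos L) (H.eqn q) h).1 with h2 | h2
    · filter_upwards [hc.eventually_lt continuousAt_const h2] with q' hq'
      rw [PD.sg, PD.sg, if_neg (not_lt.2 (le_of_lt hq')), if_neg (not_lt.2 h2.le)]
    · filter_upwards [continuousAt_const.eventually_lt hc h2] with q' hq'
      rw [PD.sg, PD.sg, if_pos hq', if_pos h2]
  filter_upwards [h1] with q' hq' u r
  rw [← hq']
  rfl

theorem loc0_Kd (d : PD a b) (hL : 1 ≤ L) (H : d.H L) (q : H.S.Y)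
    (h : ‖d.p (H.x q)‖ < Real.exp (-2 * L)) :
    ∀ᶠ q' in 𝓝 q, ∀ u r, d.KK L u r (H.x q') (H.y q') = 0 := by
  filter_upwards [(d.p_cont.comp H.x_hol.continuous).norm.continuousAt.eventually_lt
    continuousAt_const h] with q' hq' u r
  exact (zero_Kd d hL hq' u r _).1

theorem poly_Kd (P : ℂ[X]) (p : P2 × ℂ) : ContDiffAt ℝ 2 (fun p : P2 × ℂ => P.eval p.2) p :=
  ((P.differentiable.contDiff (n := 2)).restrict_scalars ℝ).contDiffAt.comp p contDiffAt_snd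

theorem smooth_Kd (d : PD a b) (σ : ℂ) (L : ℝ) {p : P2 × ℂ} (hp : d.p p.2 ≠ 0) :
    ContDiffAt ℝ 2 (fun p : P2 × ℂ => F_Kd d σ L (p.1 0) (p.1 1) p.2) p := by
  have h0 : ContDiffAt ℝ 2 (fun p : P2 × ℂ => d.p p.2) p :=
    ((poly_Kd d.U p).pow 2).mul (poly_Kd d.A p)
  have h1 : ContDiffAt ℝ 2 (fun p : P2 × ℂ => ((cB (d.lg L p.2) : ℝ) : ℂ)) p :=
    ofRealCLM.contDiff.contDiffAt.comp p ((cB_smooth (k := 2)).contDiffAt.comp p
      (((h0.norm ℝ hp).log (norm_ne_zero_iff.2 hp)).div_const L))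
  have h2 : ContDiffAt ℝ 2 (fun p : P2 × ℂ => ((cZ (‖p.2‖ ^ 2) : ℝ) : ℂ)) p :=
    ofRealCLM.contDiff.contDiffAt.comp p ((X6b_cZ (k := 2)).contDiffAt.comp p
      (contDiffAt_snd.norm_sq ℝ))
  have h3 : ContDiffAt ℝ 2 (fun p : P2 × ℂ => -1 / (d.c * d.U.eval p.2)) p := by
    simp only [div_eq_mul_inv]
    exact contDiffAt_const.mul ((contDiffAt_const.mul (poly_Kd d.U p)).inv
      (mul_ne_zero d.c_ne (d.p_ne hp).1))
  have h4 : ∀ i, ContDiffAt ℝ 2 (fun p : P2 × ℂ => p.1 i) p := fun i => by fun_prop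
  exact contDiffAt_const.mul
    (((((((h4 0).mul contDiffAt_const).mul h1).div_const 2).cexp.sub contDiffAt_const).mul h3).sub
      (((h4 1).div_const _).mul (((contDiffAt_snd.pow _).mul h2).div_const _)))

section W

variable {Y : Type} [TopologicalSpace Y] [ChartedSpace ℂ Y] {f : Y → ℂ} {q : Y} {w : ℂ}

theorem logn_Kd (hf : X6b_W f q w 0) (h0 : f q ≠ 0) {L : ℝ} (hL : L ≠ 0) :
    X6b_W (fun x => (cB (Real.log ‖f x‖ / L) : ℂ)) q
      (deriv cB (Real.log ‖f q‖ / L) / (2 * L * f q) * w)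
      (deriv cB (Real.log ‖f q‖ / L) / (2 * L * conj (f q)) * conj w) := by
  have hn : ‖f q‖ ^ 2 ≠ 0 := pow_ne_zero 2 (norm_ne_zero_iff.2 h0)
  have hl : ∀ z : ℂ, Real.log (‖z‖ ^ 2) / (2 * L) = Real.log ‖z‖ / L := fun z => by
    rw [Real.log_pow, Nat.cast_ofNat, mul_div_mul_left _ _ two_ne_zero]
  have hA : HasDerivAt cB (deriv cB (Real.log ‖f q‖ / L)) (Real.log (‖f q‖ ^ 2) / (2 * L)) := by
    rw [hl]
    exact ((cB_smooth (k := 1)).differentiable (by simp) _).hasDerivAt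
  have hB : HasDerivAt (fun t => cB (Real.log t / (2 * L)))
      (deriv cB (Real.log ‖f q‖ / L) * ((‖f q‖ ^ 2)⁻¹ / (2 * L))) (‖f q‖ ^ 2) :=
    HasDerivAt.comp (h₂ := cB) _ hA ((Real.hasDerivAt_log hn).div_const (2 * L))
  have h1 := hf.real hB
  simp only [hl] at h1
  have n1 : ((‖f q‖ ^ 2 : ℝ) : ℂ) = f q * conj (f q) := by
    rw [mul_conj, normSq_eq_norm_sq]
  have hc0 : conj (f q) ≠ 0 := (_root_.map_ne_zero _).2 h0
  have hL0 : (L : ℂ) ≠ 0 := ofReal_ne_zero.2 hL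
  rw [ofReal_mul, ofReal_div, ofReal_inv, n1, ofReal_mul, ofReal_ofNat] at h1
  refine ⟨h1.1, h1.2.1.trans ?_, h1.2.2.trans ?_⟩ <;> field_simp

theorem pot_Kd (d : PD a b) (hf : X6b_W f q w 0) (h0 : d.p (f q) ≠ 0) {L : ℝ} (hL : L ≠ 0)
    (u r y : ℂ) : X6b_W (fun x => F_Kd d (d.sg (f q) y) L u r (f x)) q
      (d.K1 L u r (f q) y * w) (d.K2 L u r (f q) y * conj w) := by
  obtain ⟨m, rfl⟩ : ∃ m, a = m + 2 := ⟨a - 2, by have := d.two_le; omega⟩
  obtain ⟨hU, hA, -⟩ := d.p_ne h0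
  have hc := d.c_ne
  have key := d.key (f q)
  rw [PD.K1, PD.K2, PD.ex, PD.D]
  unfold F_Kd PD.lg
  simp only [show m + 2 - 1 = m + 1 from rfl, Nat.add_sub_cancel] at key ⊢
  generalize d.sg (f q) y = σ
  generalize r / (y0 L : ℂ) = ρ
  have hp := hf.hol (d.p_deriv (f q))
  rw [mul_zero] at hp
  have h1 := logn_Kd hp h0 hL
  have g2 : ∀ z : ℂ, HasDerivAt (fun z => exp (u * σ * z / 2) - 1)
      (exp (u * σ * z / 2) * (u * σ * 1 / 2)) z := fun z =>
    (((hasDerivAt_id' z).const_mul (u * σ)).div_const 2).cexp.sub_const 1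
  have g3 : HasDerivAt (fun z : ℂ => -1 / (d.c * d.U.eval z))
      (f q ^ (m + 1) / (d.U.eval (f q) * d.A.eval (f q))) (f q) := by
    refine ((hasDerivAt_const (f q) (-1 : ℂ)).fun_div ((d.U.hasDerivAt (f q)).const_mul d.c)
      (mul_ne_zero hc hU)).congr_deriv ?_
    field_simp
    linear_combination key
  have g4 : HasDerivAt (fun z : ℂ => z ^ (m + 1)) (((m + 1 : ℕ) : ℂ) * f q ^ m) (f q) :=
    hasDerivAt_pow (m + 1) (f q)
  have g5 : ∀ z : ℂ, HasDerivAt (fun z => -(ρ * (z / ((m + 1 : ℕ) : ℂ))))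
      (-(ρ * (1 / ((m + 1 : ℕ) : ℂ)))) z := fun z =>
    (((hasDerivAt_id' z).div_const _).const_mul ρ).fun_neg
  have h2 := h1.hol (g2 _)
  have h3 := hf.hol g3
  have h4 := hf.hol g4
  have h5 := hf.real ((X6b_cZ (k := 1)).differentiable (by simp) _).hasDerivAt
  have h6 := (X6b_W.const σ q).mul ((h2.mul h3).add ((h4.mul h5).hol (g5 _)))
  have n2 : ((‖f q‖ ^ 2 : ℝ) : ℂ) = f q * conj (f q) := by
    rw [mul_conj, normSq_eq_norm_sq]
  have hL0 : (L : ℂ) ≠ 0 := ofReal_ne_zero.2 hL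
  have hm : ((m + 1 : ℕ) : ℂ) ≠ 0 := Nat.cast_ne_zero.2 (Nat.succ_ne_zero m)
  have cU : conj (d.U.eval (f q)) ≠ 0 := (_root_.map_ne_zero _).2 hU
  have cA : conj (d.A.eval (f q)) ≠ 0 := (_root_.map_ne_zero _).2 hA
  simp only [← sub_eq_add_neg] at h6
  refine ⟨h6.1, h6.2.1.trans ?_, h6.2.2.trans ?_⟩
  · rw [n2]
    generalize Real.log ‖d.p (f q)‖ / L = t
    rw [PD.p]
    field_simp
    ring
  · generalize Real.log ‖d.p (f q)‖ / L = t
    simp only [PD.p, map_mul, map_pow]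
    field_simp
    ring

end W

theorem sKd : SKd := by
  intro a b d L hL H
  refine ⟨fun p => ?_, fun u r q => ?_⟩
  · rcases lt_or_ge (dl L) ‖d.p (H.x p.2)‖ with h | h
    · have h1 : ContMDiffAt (𝓘(ℝ, P2).prod 𝓘(ℝ, ℂ)) 𝓘(ℝ, P2 × ℂ) 2
          (fun p : P2 × H.S.Y => (p.1, H.x p.2)) p :=
        contMDiffAt_fst.prodMk_space
          ((ckAt_of_hol (Eventually.of_forall H.x_hol) 2).comp p contMDiffAt_snd)
      refine ((smooth_Kd d (d.sg (H.x p.2) (H.y p.2)) L (p := (p.1, H.x p.2))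
        (norm_pos_iff.1 ((dl_pos L).trans h))).contMDiffAt.comp p h1).congr_of_eventuallyEq ?_
      filter_upwards [continuous_snd.continuousAt.eventually (loc_Kd d H p.2 h)] with p' hp'
      exact hp' _ _
    · refine (contMDiffAt_const (c := (0 : ℂ))).congr_of_eventuallyEq ?_
      filter_upwards [continuous_snd.continuousAt.eventually
        (loc0_Kd d hL H p.2 (h.trans_lt (lt_Kd hL).1))] with p' hp'
      exact hp' _ _
  · rcases lt_or_ge (dl L) ‖d.p (H.x q)‖ with h | h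
    · have e := d_congr (G := fun q => d.KK L u r (H.x q) (H.y q))
        (G' := fun q' => F_Kd d (d.sg (H.x q) (H.y q)) L u r (H.x q'))
        ((loc_Kd d H q h).mono fun q' h => h u r)
      have hx : X6b_W H.x q (H.y q) 0 :=
        ⟨(d2_of_hol (H.x_hol q)).1, H.d1x q, (d2_of_hol (H.x_hol q)).2⟩
      have h := pot_Kd d hx (norm_pos_iff.1 ((dl_pos L).trans h)) (L := L) (by linarith) u r
        (H.y q)
      exact ⟨e.1.trans h.2.1, e.2.trans h.2.2⟩
    · have h' := h.trans_lt (lt_Kd hL).1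
      have e := d_congr (G := fun q => d.KK L u r (H.x q) (H.y q)) (G' := fun _ => (0 : ℂ))
        ((loc0_Kd d hL H q h').mono fun q' h => h u r)
      obtain ⟨-, e1, e2⟩ := zero_Kd d hL h' u r (H.y q)
      rw [e1, e2, zero_mul, zero_mul]
      exact ⟨e.1.trans (d_const 0 q).1, e.2.trans (d_const 0 q).2⟩

end Pool.Agent.MP_e62289_ag.Un

end

section

open Set Filter Topology Complex MeasureTheory Metric Polynomial
open scoped Manifold ContDiff ComplexConjugate NNReal ENNReal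

namespace Pool.Agent.MP_e62289_ag.Un

theorem sNu : SNu := by
  intro a b d L hL x y hx
  have hσ : d.sg x y * d.sg x y = 1 := by rw [← sq]; exact (d.sg_norm x y).2
  have hL0 : (L : ℂ) ≠ 0 := by exact_mod_cast (show L ≠ 0 by linarith)
  have hy0 : ((y0 L : ℝ) : ℂ) ≠ 0 := by
    exact_mod_cast (show y0 L ≠ 0 by linarith [(y0_sq hL).2.1])
  have hc := d.c_ne
  have hcase : (cZ (‖x‖ ^ 2) = 0 ∧ deriv cZ (‖x‖ ^ 2) = 0) ∨
      (cB (d.lg L x) = 1 ∧ deriv cB (d.lg L x) = 0) ∧ d.U.eval x ≠ 0 := by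
    rcases le_total (1 / 2) ‖x‖ with h | h
    · exact Or.inl (x7_cZ_zero (by nlinarith))
    · have h1 := d.p_low (x := x) (by linarith)
      exact Or.inr ⟨cB_one (d.lg_one hL (by linarith)).le,
        (d.p_ne (norm_pos_iff.1 (by linarith))).1⟩
  have hroot := d.root x
  have hny : ((‖y‖ ^ 2 : ℝ) : ℂ) = y * conj y := by rw [Complex.mul_conj, Complex.normSq_eq_norm_sq]
  obtain ⟨n, hn⟩ : ∃ n, a = n + 2 := ⟨a - 2, by have := d.two_le; omega⟩
  have e1 : a - 1 = n + 1 := by omega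
  have e2 : a - 2 = n := by omega
  have hm : ((n + 1 : ℕ) : ℂ) ≠ 0 := Nat.cast_ne_zero.2 (by omega)
  have e3 : x ^ a = x ^ n * x ^ 2 := by rw [hn, pow_add]
  have e4 : x ^ (a + 1) = x ^ n * x ^ 3 := by rw [hn, add_assoc, pow_add]
  have hw : x ^ n ≠ 0 := pow_ne_zero _ hx
  unfold PD.muX PD.nuX PD.K1 PD.K2 PD.ex PD.D
  rw [hny, e1, e2, e3, e4, pow_succ x n]
  generalize d.sg x y = σ at hσ ⊢
  generalize ((n + 1 : ℕ) : ℂ) = m at hm ⊢
  generalize ((y0 L : ℝ) : ℂ) = κ at hy0 ⊢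
  generalize cB (d.lg L x) = s at hcase ⊢
  generalize deriv cB (d.lg L x) = s' at hcase ⊢
  generalize cZ (‖x‖ ^ 2) = z at hcase ⊢
  generalize deriv cZ (‖x‖ ^ 2) = z' at hcase ⊢
  generalize ((‖x‖ ^ 2 : ℝ) : ℂ) = N
  generalize x ^ n = w at hw ⊢
  generalize d.U.eval x = U at hcase hroot ⊢
  generalize d.A.eval x = A at hroot ⊢
  generalize d.ell x = l
  generalize d.c = c at hc ⊢
  have hE : HasDerivAt (fun u : ℂ => exp (u * σ * s / 2)) (σ * s / 2) 0 := by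
    have h1 : HasDerivAt (fun u : ℂ => u * σ * s / 2) (σ * s / 2) 0 := by
      simpa using (((hasDerivAt_id (0 : ℂ)).mul_const σ).mul_const (s : ℂ)).div_const 2
    simpa using h1.cexp
  have hEu : ∀ c : ℂ, HasDerivAt (fun u : ℂ => exp (u * σ * s / 2) * (u * c)) c 0 := by
    intro c
    have h1 : HasDerivAt (fun u : ℂ => u * c) c 0 := by
      simpa using (hasDerivAt_id (0 : ℂ)).mul_const c
    exact (hE.fun_mul h1).congr_deriv (by simp)
  have hA : HasDerivAt (fun u : ℂ => w * x + σ * ((exp (u * σ * s / 2) - 1) * (w * x / (U * A)) -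
      exp (u * σ * s / 2) * (u * (σ * s' * l / (4 * L * A) / (c * U)))) * y)
      (σ * (σ * s / 2 * (w * x / (U * A)) - σ * s' * l / (4 * L * A) / (c * U)) * y) 0 :=
    (((((hE.sub_const 1).mul_const _).sub (hEu _)).const_mul σ).mul_const y).const_add _
  have hB : HasDerivAt (fun u : ℂ => -σ * (exp (u * σ * s / 2) *
      (u * (σ * s' * conj l / (4 * L * conj A) / (c * U)))) * conj y)
      (-σ * (σ * s' * conj l / (4 * L * conj A) / (c * U)) * conj y) 0 :=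
    ((hEu _).const_mul (-σ)).mul_const _
  refine ⟨_, X6a_mixed _ _ (w - σ * (1 / κ * (w * (z + N * z' / m))) * y)
    (-σ * (1 / κ * (w * x ^ 2 * z' / m)) * conj y) _ _ (w * x) hA hB (by simp)
    (by simp) (mul_ne_zero hw hx) _ (fun u r => ?_), ?_⟩
  · congr 1 <;> ring
  · by_cases hU : U = 0
    · obtain rfl := hroot.1 hU
      subst hU
      simp
    have hA0 : A ≠ 0 := fun h => hU (hroot.2 h)
    have hA1 : conj A ≠ 0 := by simpa using hA0
    rcases hcase with ⟨h1, h2⟩ | ⟨⟨h1, h2⟩, -⟩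
    · subst h1 h2
      simp only [ofReal_zero]
      field_simp
      rw [pow_two σ, hσ]
      ring
    · subst h1 h2
      simp only [ofReal_zero, ofReal_one]
      field_simp
      rw [pow_two σ, hσ]
      ring

end Pool.Agent.MP_e62289_ag.Un

end
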